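import Pool.Agent.Q205.GC.LS

/-!
# Upper bound for sets of integers given by residues modulo primes, with an unbounded number of excluded classes
-/

set_option autoImplicit false

namespace Pool.Agent.Q205.GC

open Finset

/-- Rankin's trick for the sum over the squarefree numbers with prime factors in `P` -/
theorem rankin (P : Finset ℕ) (hP : ∀ t ∈ P, t.Prime) (w : ℕ → ℝ) (hw0 : ∀ t ∈ P, 0 < w t)
    (hw1 : ∀ t ∈ P, w t ≤ t) (ε : ℝ) (hε : 0 < ε) (Q : ℕ) (hQ : 1 ≤ Q)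
    (hc : ∑ t ∈ P, ((t : ℝ) ^ ε - 1) * (1 - w t / t) ≤ ε * Real.log Q - Real.log 2) :
    (1 / 2 : ℝ) * ∏ t ∈ P, ((t : ℝ) / w t) ≤
      ∑ D ∈ P.powerset.filter (fun D => ∏ t ∈ D, t ≤ Q), ∏ t ∈ D, ((t : ℝ) / w t - 1) := by
  classical
  have hpos : ∀ t ∈ P, (0 : ℝ) < t := fun t ht => by exact_mod_cast (hP t ht).pos
  have hh0 : ∀ t ∈ P, 0 ≤ (t : ℝ) / w t - 1 := by
    intro t ht
    have : 1 ≤ (t : ℝ) / w t := by
      rw [le_div_iff₀ (hw0 t ht)]
      linarith [hw1 t ht]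
    linarith
  set h : ℕ → ℝ := fun t => (t : ℝ) / w t - 1 with hh
  -- the complete sum
  have hall : ∑ D ∈ P.powerset, ∏ t ∈ D, h t = ∏ t ∈ P, ((t : ℝ) / w t) := by
    rw [← Finset.prod_one_add]
    refine Finset.prod_congr rfl fun t _ => ?_
    simp only [hh]
    ring
  -- the large D
  have hQ0 : (0 : ℝ) < Q := by exact_mod_cast (by omega : 0 < Q)
  have hbig : ∑ D ∈ P.powerset.filter (fun D => ¬ ∏ t ∈ D, t ≤ Q), ∏ t ∈ D, h t ≤
      (Q : ℝ) ^ (-ε) * ∏ t ∈ P, (1 + h t * (t : ℝ) ^ ε) := by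
    rw [Finset.prod_one_add, Finset.mul_sum]
    refine le_trans ?_ (Finset.sum_le_sum_of_subset_of_nonneg
      (Finset.filter_subset (fun D : Finset ℕ => ¬ ∏ t ∈ D, t ≤ Q) P.powerset)
      (fun D hD _ => ?_))
    · refine Finset.sum_le_sum fun D hD => ?_
      rw [Finset.mem_filter, Finset.mem_powerset] at hD
      have hDP := hD.1
      rw [Finset.prod_mul_distrib]
      have e0 : 0 ≤ ∏ t ∈ D, h t := Finset.prod_nonneg fun t ht => hh0 t (hDP ht)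
      have e1 : ∏ t ∈ D, (t : ℝ) ^ ε = ((∏ t ∈ D, t : ℕ) : ℝ) ^ ε := by
        rw [Nat.cast_prod, ← Real.finsetProd_rpow _ _ (fun t ht => (hpos t (hDP ht)).le)]
      rw [e1]
      have e2 : 1 ≤ (Q : ℝ) ^ (-ε) * ((∏ t ∈ D, t : ℕ) : ℝ) ^ ε := by
        rw [Real.rpow_neg hQ0.le, inv_mul_eq_div, one_le_div (by positivity)]
        apply Real.rpow_le_rpow hQ0.le _ hε.le
        exact_mod_cast (Nat.lt_of_not_le hD.2).le
      calc ∏ t ∈ D, h t = (∏ t ∈ D, h t) * 1 := (mul_one _).symm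
        _ ≤ (∏ t ∈ D, h t) * ((Q : ℝ) ^ (-ε) * ((∏ t ∈ D, t : ℕ) : ℝ) ^ ε) :=
          mul_le_mul_of_nonneg_left e2 e0
        _ = _ := by ring
    · rw [Finset.mem_powerset] at hD
      apply mul_nonneg (by positivity)
      apply Finset.prod_nonneg
      intro t ht
      exact mul_nonneg (hh0 t (hD ht)) (Real.rpow_nonneg (hpos t (hD ht)).le _)
  have hprod : ∏ t ∈ P, (1 + h t * (t : ℝ) ^ ε) ≤
      (∏ t ∈ P, ((t : ℝ) / w t)) * Real.exp (∑ t ∈ P, ((t : ℝ) ^ ε - 1) * (1 - w t / t)) := by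
    rw [Real.exp_sum, ← Finset.prod_mul_distrib]
    apply Finset.prod_le_prod
    · intro t ht
      have := hh0 t ht
      have := Real.rpow_nonneg (hpos t ht).le ε
      positivity
    · intro t ht
      have h1 := hw0 t ht
      have h2 := hpos t ht
      have e1 : 1 + h t * (t : ℝ) ^ ε = ((t : ℝ) / w t) * (1 + ((t : ℝ) ^ ε - 1) * (1 - w t / t)) := by
        simp only [hh]
        field_simp
        ring
      rw [e1]
      apply mul_le_mul_of_nonneg_left _ (by positivity)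
      have := Real.add_one_le_exp (((t : ℝ) ^ ε - 1) * (1 - w t / t))
      linarith
  have hP0 : 0 ≤ ∏ t ∈ P, ((t : ℝ) / w t) := Finset.prod_nonneg fun t ht =>
    div_nonneg (hpos t ht).le (hw0 t ht).le
  have hhalf : (Q : ℝ) ^ (-ε) * ∏ t ∈ P, (1 + h t * (t : ℝ) ^ ε) ≤
      (1 / 2) * ∏ t ∈ P, ((t : ℝ) / w t) := by
    have e1 : (Q : ℝ) ^ (-ε) * Real.exp (∑ t ∈ P, ((t : ℝ) ^ ε - 1) * (1 - w t / t)) ≤ 1 / 2 := by
      have e2 : (Q : ℝ) ^ (-ε) = Real.exp (-(ε * Real.log Q)) := by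
        rw [Real.rpow_def_of_pos hQ0]
        congr 1
        ring
      rw [e2, ← Real.exp_add]
      calc _ ≤ Real.exp (-Real.log 2) := Real.exp_le_exp.mpr (by linarith)
        _ = 1 / 2 := by rw [Real.exp_neg, Real.exp_log (by norm_num)]; norm_num
    calc _ ≤ (Q : ℝ) ^ (-ε) * ((∏ t ∈ P, ((t : ℝ) / w t)) *
          Real.exp (∑ t ∈ P, ((t : ℝ) ^ ε - 1) * (1 - w t / t))) :=
          mul_le_mul_of_nonneg_left hprod (by positivity)
      _ = ((Q : ℝ) ^ (-ε) * Real.exp (∑ t ∈ P, ((t : ℝ) ^ ε - 1) * (1 - w t / t))) *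
          ∏ t ∈ P, ((t : ℝ) / w t) := by ring
      _ ≤ _ := mul_le_mul_of_nonneg_right e1 hP0
  have hsplit := Finset.sum_filter_add_sum_filter_not P.powerset (fun D => ∏ t ∈ D, t ≤ Q)
    (fun D => ∏ t ∈ D, h t)
  rw [hall] at hsplit
  linarith [hbig.trans hhalf]

/-- the sieve bound -/
theorem box_sieve (N Q A : ℕ) (P : Finset ℕ) (hP : ∀ t ∈ P, t.Prime) (Z : Finset ℕ)
    (Om : ℕ → Finset ℕ) (w : ℕ → ℝ) (hw0 : ∀ t ∈ P, 0 < w t) (hw1 : ∀ t ∈ P, w t ≤ t)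
    (hOm : ∀ t ∈ P, ((Om t).card : ℝ) ≤ w t) (hZ : ∀ z ∈ Z, z ∈ Ioc A (A + N))
    (hZO : ∀ z ∈ Z, ∀ t ∈ P, z % t ∈ Om t) (ε : ℝ) (hε : 0 < ε) (hQ : 1 ≤ Q) (hQN : Q ^ 2 ≤ N)
    (hc : ∑ t ∈ P, ((t : ℝ) ^ ε - 1) * (1 - w t / t) ≤ ε * Real.log Q - Real.log 2) :
    (Z.card : ℝ) ≤ 24 * N * ∏ t ∈ P, (w t / t) := by
  classical
  have hpos : ∀ t ∈ P, (0 : ℝ) < t := fun t ht => by exact_mod_cast (hP t ht).pos
  have h1 := lsh 1 N Q (fun _ => A) P (Z.image (fun z _ => z))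
    (fun t => (Om t).image (fun (x : ℕ) (_ : Fin 1) => ((x : ℕ) : ZMod t))) (fun t => (t : ℝ) / w t - 1) hQN hP
    (by
      intro z hz i
      rw [Finset.mem_image] at hz
      obtain ⟨x, hx, rfl⟩ := hz
      exact hZ x hx)
    (by
      intro t ht
      have : 1 ≤ (t : ℝ) / w t := by
        rw [le_div_iff₀ (hw0 t ht)]
        linarith [hw1 t ht]
      linarith)
    (by
      intro t ht
      have e1 : (((Om t).image (fun (x : ℕ) (_ : Fin 1) => ((x : ℕ) : ZMod t))).card : ℝ) ≤ w t :=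
        le_trans (by exact_mod_cast Finset.card_image_le) (hOm t ht)
      have h2 := hw0 t ht
      have h3 := hpos t ht
      calc _ ≤ w t * (1 + ((t : ℝ) / w t - 1)) := by
            apply mul_le_mul_of_nonneg_right e1
            have : 0 < (t : ℝ) / w t := by positivity
            linarith
        _ = (t : ℝ) ^ 1 := by field_simp; ring)
    (by
      intro z hz t ht
      rw [Finset.mem_image] at hz
      obtain ⟨x, hx, rfl⟩ := hz
      rw [Finset.mem_image]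
      refine ⟨x % t, hZO x hx t ht, ?_⟩
      funext _
      simp)
  have h2 : (Z.image (fun z (_ : Fin 1) => z)).card = Z.card := by
    apply Finset.card_image_of_injective
    intro x y hxy
    exact congrFun hxy 0
  rw [h2, pow_one] at h1
  have h3 := rankin P hP w hw0 hw1 ε hε Q hQ hc
  have h4 : (Z.card : ℝ) * ((1 / 2 : ℝ) * ∏ t ∈ P, ((t : ℝ) / w t)) ≤ 12 * (N : ℝ) :=
    le_trans (mul_le_mul_of_nonneg_left h3 (Nat.cast_nonneg _)) h1
  have h5 : (∏ t ∈ P, ((t : ℝ) / w t)) * ∏ t ∈ P, (w t / (t : ℝ)) = 1 := by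
    rw [← Finset.prod_mul_distrib]
    apply Finset.prod_eq_one
    intro t ht
    have := hw0 t ht
    have := hpos t ht
    field_simp
  have h6 : 0 ≤ ∏ t ∈ P, (w t / (t : ℝ)) := Finset.prod_nonneg fun t ht =>
    div_nonneg (hw0 t ht).le (hpos t ht).le
  calc (Z.card : ℝ) = (Z.card : ℝ) * ((∏ t ∈ P, ((t : ℝ) / w t)) * ∏ t ∈ P, (w t / (t : ℝ))) := by
        rw [h5, mul_one]
    _ = 2 * ((Z.card : ℝ) * ((1 / 2 : ℝ) * ∏ t ∈ P, ((t : ℝ) / w t))) * ∏ t ∈ P, (w t / (t : ℝ)) := by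
        ring
    _ ≤ 2 * (12 * (N : ℝ)) * ∏ t ∈ P, (w t / (t : ℝ)) := by gcongr
    _ = _ := by ring

end Pool.Agent.Q205.GC
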