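import Mathlib
import Pool.Agent.H357R2.SI.PairFinal
import Pool.Agent.Helper601.BT
import Pool.Agent.Results.MP_b5e119_nt.TwoThirds

/-!
# The gcd recursion for Goldbach pairs: the loss `N - g_N` is at least `log² N` on average
-/

set_option autoImplicit false

namespace Pool.Agent.Q205.GC

open Finset

/-- the primes `p` with `a < p ≤ a + X` and `p + 2 h` prime -/
def PP (a X h : ℕ) : Finset ℕ := (Ioc a (a + X)).filter (fun n => n.Prime ∧ (n + 2 * h).Prime)

lemma log_le_two_sqrt {x : ℝ} (hx : 0 < x) : Real.log x ≤ 2 * √x := by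
  have h1 := Real.log_le_sub_one_of_pos (Real.sqrt_pos.mpr hx)
  have h2 : Real.log √x = Real.log x / 2 := Real.log_sqrt hx.le
  linarith

lemma sqrt_le_div {x : ℝ} (hx : 1 < x) : √x ≤ 2 * (x / Real.log x) := by
  have hl := Real.log_pos hx
  have h1 := log_le_two_sqrt (by linarith : 0 < x)
  have h2 := Real.mul_self_sqrt (by linarith : (0 : ℝ) ≤ x)
  have h3 := Real.sqrt_nonneg x
  rw [mul_div_assoc', le_div_iff₀ hl]
  nlinarith

lemma one_le_div_log {x : ℝ} (hx : 1 < x) : 1 ≤ x / Real.log x := by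
  have hl := Real.log_pos hx
  rw [le_div_iff₀ hl]
  have := Real.log_le_sub_one_of_pos (by linarith : 0 < x)
  linarith

lemma one_le_div_log_sq {x : ℝ} (hx : 1 < x) : 1 ≤ 4 * (x / Real.log x ^ 2) := by
  have hl := Real.log_pos hx
  have h1 := log_le_two_sqrt (by linarith : 0 < x)
  have h2 := Real.sq_sqrt (by linarith : (0 : ℝ) ≤ x)
  have h3 : Real.log x ^ 2 ≤ (2 * √x) ^ 2 := by gcongr
  rw [mul_div_assoc', le_div_iff₀ (by positivity)]
  nlinarith

lemma primes_count : ∃ C : ℝ, 1 ≤ C ∧ ∀ a X : ℕ, 2 ≤ X →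
    (((Ioc a (a + X)).filter Nat.Prime).card : ℝ) ≤ C * (X / Real.log X) := by
  obtain ⟨C, hC, h⟩ := Pool.Agent.Helper601.brun_titchmarsh
  refine ⟨C, hC, fun a X hX => ?_⟩
  have h1 := h (a + 1) 1 X hX (Or.inl rfl)
  rw [mul_div_assoc] at h1
  refine le_trans ?_ h1
  have h2 : ((Ioc a (a + X)).filter Nat.Prime).card ≤
      ((range X).filter (fun k => (a + 1 + k * 1).Prime)).card := by
    apply card_le_card_of_injOn (fun p => p - (a + 1))
    · intro p hp
      rw [mem_coe, mem_filter, mem_Ioc] at hp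
      rw [mem_coe, mem_filter, mem_range]
      simp only
      refine ⟨by omega, ?_⟩
      have e : a + 1 + (p - (a + 1)) * 1 = p := by omega
      rw [e]
      exact hp.2
    · intro p hp q hq hpq
      rw [mem_coe, mem_filter, mem_Ioc] at hp hq
      simp only at hpq
      omega
  exact_mod_cast h2

open Pool.Agent.H357R2.SI in
lemma sum_sg_even (C : ℝ) (hC : ∀ T : ℕ, ∑ h ∈ Finset.Icc 1 T, sg h ^ 2 ≤ C * T) (k : ℕ) :
    ∑ h ∈ range k, sg (2 * (h + 1)) ^ 2 ≤ C * (2 * k) := by
  have h1 := hC (2 * k)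
  have h2 : ∑ h ∈ range k, sg (2 * (h + 1)) ^ 2 =
      ∑ m ∈ (range k).image (fun h => 2 * (h + 1)), sg m ^ 2 := by
    rw [sum_image]
    intro a _ b _ h
    simp only at h
    omega
  rw [h2]
  refine (sum_le_sum_of_subset_of_nonneg ?_ ?_).trans (h1.trans (le_of_eq ?_))
  · intro m hm
    rw [mem_image] at hm
    obtain ⟨h, hh, rfl⟩ := hm
    rw [mem_range] at hh
    rw [mem_Icc]
    omega
  · intro m _ _
    positivity
  · push_cast
    ring

open Pool.Agent.H357R2.SI in
/-- the number of pairs of primes `p`, `p + 2 h`, `h < K`, with `p` in an interval of length `X` -/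
lemma sum_pairs : ∃ C : ℝ, 1 ≤ C ∧ ∀ a X : ℕ, 2 ≤ X → ∀ K : ℕ,
    ∑ h ∈ range K, ((PP a X h).card : ℝ) ≤ C * (X / Real.log X + K * (X / Real.log X ^ 2)) := by
  obtain ⟨C0, hC0, hpr⟩ := primes_count
  obtain ⟨C1, hC1, u0, hu0⟩ := pair_sieve
  obtain ⟨C2, hC2, hsum⟩ := sum_sg_sq
  refine ⟨C0 + 2 * C1 * C2 + Real.log u0 ^ 2, by nlinarith [sq_nonneg (Real.log u0)], ?_⟩
  intro a X hX K
  have hX1 : (1 : ℝ) < X := by exact_mod_cast (by omega : 1 < X)
  have hl := Real.log_pos hX1
  have hq1 : 0 < (X : ℝ) / Real.log X := by positivity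
  have hq2 : 0 < (X : ℝ) / Real.log X ^ 2 := by positivity
  have hK0 : (0 : ℝ) ≤ K := Nat.cast_nonneg _
  rcases Nat.lt_or_ge X u0 with hlt | hge
  · have h1 : ∑ h ∈ range K, ((PP a X h).card : ℝ) ≤ ∑ h ∈ range K, (X : ℝ) := by
      apply sum_le_sum
      intro h _
      have : (PP a X h).card ≤ X := by
        refine (card_filter_le _ _).trans ?_
        rw [Nat.card_Ioc]
        omega
      exact_mod_cast this
    rw [sum_const, card_range, nsmul_eq_mul] at h1
    have h2 : (K : ℝ) * X = Real.log X ^ 2 * (K * (X / Real.log X ^ 2)) := by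
      field_simp
    have h3 : Real.log X ^ 2 ≤ Real.log u0 ^ 2 := by
      have : Real.log X ≤ Real.log u0 := Real.log_le_log (by linarith) (by exact_mod_cast hlt.le)
      gcongr
    have h4 : 0 ≤ (K : ℝ) * (X / Real.log X ^ 2) := by positivity
    have h5 : Real.log X ^ 2 * (K * (X / Real.log X ^ 2)) ≤
        Real.log u0 ^ 2 * (K * (X / Real.log X ^ 2)) := mul_le_mul_of_nonneg_right h3 h4
    have h6 : 0 ≤ (C0 + 2 * C1 * C2) * (X / Real.log X + K * (X / Real.log X ^ 2)) := by
      positivity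
    have h7 : 0 ≤ Real.log u0 ^ 2 * ((X : ℝ) / Real.log X) := by positivity
    nlinarith
  · rcases K with _ | k
    · simp only [range_zero, sum_empty]
      positivity
    · rw [sum_range_succ']
      have h0 : ((PP a X 0).card : ℝ) ≤ C0 * (X / Real.log X) := by
        refine le_trans ?_ (hpr a X hX)
        have : (PP a X 0).card ≤ ((Ioc a (a + X)).filter Nat.Prime).card := by
          apply card_le_card
          intro p hp
          unfold PP at hp
          rw [mem_filter] at hp ⊢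
          exact ⟨hp.1, hp.2.1⟩
        exact_mod_cast this
      have h1 : ∀ h ∈ range k, ((PP a X (h + 1)).card : ℝ) ≤
          C1 * (X / Real.log X ^ 2) * sg (2 * (h + 1)) ^ 2 := by
        intro h _
        have h2 := hu0 (2 * (h + 1)) a X (by omega) hge
        refine h2.trans (le_of_eq ?_)
        ring
      have h2 := sum_le_sum h1
      rw [← mul_sum] at h2
      have h3 := sum_sg_even C2 hsum k
      have h4 : C1 * ((X : ℝ) / Real.log X ^ 2) * ∑ h ∈ range k, sg (2 * (h + 1)) ^ 2 ≤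
          C1 * (X / Real.log X ^ 2) * (C2 * (2 * k)) :=
        mul_le_mul_of_nonneg_left h3 (by positivity)
      have h5 : C1 * ((X : ℝ) / Real.log X ^ 2) * (C2 * (2 * k)) =
          2 * C1 * C2 * (k * (X / Real.log X ^ 2)) := by ring
      have h6 : (k : ℝ) * (X / Real.log X ^ 2) ≤ ((k + 1 : ℕ) : ℝ) * (X / Real.log X ^ 2) := by
        apply mul_le_mul_of_nonneg_right _ hq2.le
        push_cast
        linarith
      have h7 : 2 * C1 * C2 * ((k : ℝ) * (X / Real.log X ^ 2)) ≤
          2 * C1 * C2 * (((k + 1 : ℕ) : ℝ) * (X / Real.log X ^ 2)) :=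
        mul_le_mul_of_nonneg_left h6 (by positivity)
      have h8 : 0 ≤ ((k + 1 : ℕ) : ℝ) * (X / Real.log X ^ 2) := by positivity
      have h9 : 0 ≤ Real.log u0 ^ 2 * ((X : ℝ) / Real.log X + ((k + 1 : ℕ) : ℝ) * (X / Real.log X ^ 2)) := by
        positivity
      have h10 : 0 ≤ 2 * C1 * C2 * ((X : ℝ) / Real.log X) := by positivity
      have h11 : 0 ≤ C0 * (((k + 1 : ℕ) : ℝ) * (X / Real.log X ^ 2)) := by positivity
      nlinarith

end Pool.Agent.Q205.GC
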