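import Pool.Agent.Q205.GC.Gold

/-!
# The loss `N - g_N`: counting and mean value
-/

set_option autoImplicit false

namespace Pool.Agent.Q205.GC

open Finset

/-- the descent is shorter than `N` -/
lemma gold_lt (N : ℕ) (hN : 3 ≤ N) (a : ℕ → ℤ) (ha1 : a 1 = (N : ℤ) - 2)
    (ha : ∀ n : ℕ, 2 ≤ n → a n = a (n - 1) -
        ((Int.gcd (a (n - 1)) ((N : ℤ) - (-1) ^ n * ((N : ℤ) - n)) : ℕ) : ℤ))
    (g : ℕ) (hg : IsLeast {n : ℕ | 2 ≤ n ∧ a n = 0} g) : g + 1 ≤ N := by
  obtain ⟨⟨hg2, hag⟩, hmin⟩ := hg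
  have h : ∀ k, 1 ≤ k → k ≤ g → 0 ≤ a k ∧ a k + (k : ℤ) ≤ (N : ℤ) - 1 := by
    intro k hk
    induction k, hk using Nat.le_induction with
    | base => intro _; rw [ha1]; push_cast; constructor <;> omega
    | succ k hk ih =>
      intro hkg
      obtain ⟨h1, h2⟩ := ih (by omega)
      have hne : a k ≠ 0 := by
        intro h3
        rcases Nat.lt_or_ge k 2 with h4 | h4
        · have h5 : k = 1 := by omega
          subst h5
          rw [ha1] at h3
          omega
        · have := hmin ⟨h4, h3⟩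
          omega
      have hpos : 0 < a k := lt_of_le_of_ne h1 (Ne.symm hne)
      rw [ha (k + 1) (by omega), Nat.add_sub_cancel]
      have hle := Int.le_of_dvd hpos (Int.gcd_dvd_left (a := a k)
        (b := ((N : ℤ) - (-1) ^ (k + 1) * ((N : ℤ) - ((k + 1 : ℕ) : ℤ)))))
      have hge : 1 ≤ Int.gcd (a k) ((N : ℤ) - (-1) ^ (k + 1) * ((N : ℤ) - ((k + 1 : ℕ) : ℤ))) := by
        apply Nat.pos_of_ne_zero
        intro h6
        rw [Int.gcd_eq_zero_iff] at h6
        exact hne h6.1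
      constructor
      · linarith
      · push_cast at hge ⊢
        omega
  have h1 := (h g (by omega) le_rfl).2
  rw [hag] at h1
  omega

/-- the recursion of the problem for all `N`, and its zeros -/
structure Rec (a : ℕ → ℕ → ℤ) (g : ℕ → ℕ) : Prop where
  one : ∀ N : ℕ, 3 ≤ N → a N 1 = (N : ℤ) - 2
  step : ∀ N : ℕ, 3 ≤ N → ∀ n : ℕ, 2 ≤ n → a N n = a N (n - 1) -
        ((Int.gcd (a N (n - 1)) ((N : ℤ) - (-1) ^ n * ((N : ℤ) - n)) : ℕ) : ℤ)
  zero : ∀ N : ℕ, 3 ≤ N → IsLeast {n : ℕ | 2 ≤ n ∧ a N n = 0} (g N)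

lemma Rec.lt {a : ℕ → ℕ → ℤ} {g : ℕ → ℕ} (h : Rec a g) {N : ℕ} (hN : 3 ≤ N) : g N + 1 ≤ N :=
  gold_lt N hN (a N) (h.one N hN) (h.step N hN) (g N) (h.zero N hN)

/-- the `N` of an interval for which the loss `N - g_N` is at most `K` -/
lemma gold_count : ∃ C : ℝ, 1 ≤ C ∧ ∀ (a : ℕ → ℕ → ℤ) (g : ℕ → ℕ), Rec a g →
    ∀ A X : ℕ, 2 ≤ X → ∀ K : ℕ,
      (((Ioc A (A + X)).filter (fun N => 3 ≤ N ∧ N ≤ g N + K)).card : ℝ) ≤
      C * (X / Real.log X + K * (X / Real.log X ^ 2)) := by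
  obtain ⟨N₀, hN₀⟩ := Pool.Agent.Results.MP_b5e119_nt.TwoThirds.result.2 (1 / 12) (by norm_num)
  obtain ⟨C, hC, hsum⟩ := sum_pairs
  refine ⟨2 * C + N₀ + 16, by have : (0 : ℝ) ≤ N₀ := Nat.cast_nonneg _; linarith, ?_⟩
  intro a g hrec A X hX K
  have hX1 : (1 : ℝ) < X := by exact_mod_cast (by omega : 1 < X)
  have hl := Real.log_pos hX1
  have hq1 := one_le_div_log hX1
  have hq2 := one_le_div_log_sq hX1
  have hK0 : (0 : ℝ) ≤ K := Nat.cast_nonneg _
  have hN0 : (0 : ℝ) ≤ N₀ := Nat.cast_nonneg _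
  have hq2' : 0 < (X : ℝ) / Real.log X ^ 2 := by positivity
  have h4 : 0 ≤ (K : ℝ) * (X / Real.log X ^ 2) := by positivity
  have h5 : 0 ≤ (N₀ : ℝ) * (K * (X / Real.log X ^ 2)) := by positivity
  rcases Nat.lt_or_ge K X with hKX | hKX
  · have hsub : (Ioc A (A + X)).filter (fun N => 3 ≤ N ∧ N ≤ g N + K) ⊆
        Icc 1 (N₀ + 4 * K) ∪
          (range K).biUnion (fun h => (PP (A - X) (2 * X) h).image (fun p => p + h)) := by
      intro N hN
      rw [mem_filter, mem_Ioc] at hN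
      obtain ⟨⟨hAN, hNX⟩, h3, hNg⟩ := hN
      rw [mem_union]
      rcases Nat.lt_or_ge (N₀ + 4 * K) N with hbig | hsmall
      · right
        have hlt := hrec.lt h3
        have h1 : (2 / 3 + 1 / 12 : ℝ) * N ≤ g N := by
          have e1 : (N : ℝ) ≤ g N + K := by exact_mod_cast hNg
          have e2 : (4 * K : ℝ) ≤ N := by exact_mod_cast (by omega : 4 * K ≤ N)
          linarith
        have h2 := hN₀ N (by omega) (a N) (hrec.one N h3) (hrec.step N h3) (g N) (hrec.zero N h3) h1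
        rw [mem_biUnion]
        refine ⟨N - g N - 1, by rw [mem_range]; omega, ?_⟩
        rw [mem_image]
        refine ⟨g N + 1, ?_, by omega⟩
        unfold PP
        rw [mem_filter, mem_Ioc]
        refine ⟨by omega, h2.1, ?_⟩
        have e : g N + 1 + 2 * (N - g N - 1) = 2 * N - g N - 1 := by omega
        rw [e]
        exact h2.2
      · left
        rw [mem_Icc]
        omega
    have hcard : ((Ioc A (A + X)).filter (fun N => 3 ≤ N ∧ N ≤ g N + K)).card ≤
        (N₀ + 4 * K) + ∑ h ∈ range K, (PP (A - X) (2 * X) h).card := by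
      refine (card_le_card hsub).trans ((card_union_le _ _).trans ?_)
      apply Nat.add_le_add
      · rw [Nat.card_Icc]
        omega
      · refine card_biUnion_le.trans (sum_le_sum fun h _ => card_image_le)
    have hcard' : (((Ioc A (A + X)).filter (fun N => 3 ≤ N ∧ N ≤ g N + K)).card : ℝ) ≤
        (N₀ + 4 * K) + ∑ h ∈ range K, ((PP (A - X) (2 * X) h).card : ℝ) := by exact_mod_cast hcard
    have h1 := hsum (A - X) (2 * X) (by omega) K
    push_cast at h1
    have hl2 : Real.log X ≤ Real.log (2 * X) := Real.log_le_log (by linarith) (by linarith)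
    have h2 : (2 * X : ℝ) / Real.log (2 * X) ≤ 2 * (X / Real.log X) := by
      rw [mul_div_assoc]
      gcongr
    have h3 : (2 * X : ℝ) / Real.log (2 * X) ^ 2 ≤ 2 * (X / Real.log X ^ 2) := by
      rw [mul_div_assoc]
      gcongr
    have h6 : C * ((2 * X : ℝ) / Real.log (2 * X) + K * ((2 * X) / Real.log (2 * X) ^ 2)) ≤
        C * (2 * (X / Real.log X) + K * (2 * (X / Real.log X ^ 2))) := by gcongr
    have h7 : (N₀ : ℝ) ≤ N₀ * (X / Real.log X) := by nlinarith
    have h8 : (4 * K : ℝ) ≤ 16 * (K * (X / Real.log X ^ 2)) := by nlinarith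
    nlinarith
  · have h1 : ((Ioc A (A + X)).filter (fun N => 3 ≤ N ∧ N ≤ g N + K)).card ≤ X := by
      refine (card_filter_le _ _).trans ?_
      rw [Nat.card_Ioc]
      omega
    have h2 : (((Ioc A (A + X)).filter (fun N => 3 ≤ N ∧ N ≤ g N + K)).card : ℝ) ≤ K := by
      exact_mod_cast h1.trans hKX
    have h3 : (K : ℝ) ≤ 4 * (K * (X / Real.log X ^ 2)) := by nlinarith
    have h6 : 0 ≤ (2 * C + N₀ + 16) * ((X : ℝ) / Real.log X) := by positivity
    nlinarith

/-- the mean of the loss over an interval of length `X` is at least of the order `log² X` -/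
lemma gold_mean : ∃ c : ℝ, 0 < c ∧ ∀ (a : ℕ → ℕ → ℤ) (g : ℕ → ℕ), Rec a g →
    ∀ A X : ℕ, 3 ≤ X → c * (X * Real.log X ^ 2) ≤
      ∑ N ∈ (Ioc A (A + X)).filter (fun N => 3 ≤ N), ((N : ℝ) - g N) := by
  obtain ⟨C, hC, hcount⟩ := gold_count
  have hlim : ∀ᶠ x : ℝ in Filter.atTop, 16 * C ≤ Real.log x :=
    Real.tendsto_log_atTop.eventually_ge_atTop _
  obtain ⟨x₀, hx₀⟩ := Filter.eventually_atTop.mp hlim
  set X₀ : ℕ := ⌈x₀⌉₊ + 16 with hX₀
  have hX₀1 : (1 : ℝ) < X₀ := by exact_mod_cast (by omega : 1 < X₀)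
  have hlX₀ := Real.log_pos hX₀1
  refine ⟨min (5 / (64 * C)) (1 / (3 * Real.log X₀ ^ 2)), by positivity, ?_⟩
  intro a g hrec A X hX
  have hX1 : (1 : ℝ) < X := by exact_mod_cast (by omega : 1 < X)
  have hXp : (0 : ℝ) < X := by linarith
  have hl := Real.log_pos hX1
  set I := (Ioc A (A + X)).filter (fun N => 3 ≤ N) with hI
  have hterm : ∀ N ∈ I, (1 : ℝ) ≤ (N : ℝ) - g N := by
    intro N hN
    have h1 := hrec.lt (mem_filter.mp hN).2
    have h2 : ((g N + 1 : ℕ) : ℝ) ≤ N := by exact_mod_cast h1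
    push_cast at h2
    linarith
  have hIcard : (X : ℝ) - 2 ≤ I.card := by
    have h1 : (Ioc (A + 2) (A + X)) ⊆ I := by
      intro N hN
      rw [mem_Ioc] at hN
      rw [hI, mem_filter, mem_Ioc]
      omega
    have h2 := card_le_card h1
    rw [Nat.card_Ioc] at h2
    have h3 : (X : ℝ) ≤ (I.card : ℝ) + 2 := by exact_mod_cast (by omega : X ≤ I.card + 2)
    linarith
  rcases Nat.lt_or_ge X X₀ with hlt | hge
  · have h1 : ∑ N ∈ I, (1 : ℝ) ≤ ∑ N ∈ I, ((N : ℝ) - g N) := sum_le_sum hterm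
    rw [sum_const, nsmul_eq_mul, mul_one] at h1
    have h2 : (X : ℝ) / 3 ≤ I.card := by
      have : (3 : ℝ) ≤ X := by exact_mod_cast hX
      linarith
    have h3 : Real.log X ≤ Real.log X₀ := Real.log_le_log hXp (by exact_mod_cast hlt.le)
    have h4 : Real.log X ^ 2 ≤ Real.log X₀ ^ 2 := by gcongr
    calc min (5 / (64 * C)) (1 / (3 * Real.log X₀ ^ 2)) * ((X : ℝ) * Real.log X ^ 2)
        ≤ 1 / (3 * Real.log X₀ ^ 2) * ((X : ℝ) * Real.log X₀ ^ 2) := by
          apply mul_le_mul (min_le_right _ _) _ (by positivity) (by positivity)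
          gcongr
      _ = (X : ℝ) / 3 := by field_simp
      _ ≤ _ := h2.trans h1
  · have hXx : x₀ ≤ X := by
      have h1 := Nat.le_ceil x₀
      have h2 : (⌈x₀⌉₊ : ℝ) ≤ X := by exact_mod_cast (by omega : ⌈x₀⌉₊ ≤ X)
      linarith
    have hlog := hx₀ X hXx
    set L := Real.log X with hL
    set K : ℕ := ⌊L ^ 2 / (8 * C)⌋₊ with hK
    have hC0 : 0 < C := by linarith
    have hK1 : (K : ℝ) ≤ L ^ 2 / (8 * C) := Nat.floor_le (by positivity)
    have hK2 : L ^ 2 / (8 * C) < K + 1 := Nat.lt_floor_add_one _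
    have hcnt := hcount a g hrec A X (by omega) K
    rw [← filter_filter] at hcnt
    set S := I.filter (fun N => N ≤ g N + K) with hS
    have h1 : (S.card : ℝ) ≤ X / 8 + X / 8 := by
      refine hcnt.trans ?_
      rw [mul_add]
      apply add_le_add
      · rw [← mul_div_assoc, div_le_div_iff₀ hl (by norm_num)]
        nlinarith
      · calc C * ((K : ℝ) * ((X : ℝ) / L ^ 2)) ≤ C * (L ^ 2 / (8 * C) * ((X : ℝ) / L ^ 2)) := by gcongr
          _ = (X : ℝ) / 8 := by field_simp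
    set B := I.filter (fun N => ¬ N ≤ g N + K) with hB
    have hAB : S.card + B.card = I.card := by
      rw [hS, hB, card_filter_add_card_filter_not]
    have h2 : (5 / 8 : ℝ) * X ≤ B.card := by
      have e1 : (S.card : ℝ) + B.card = I.card := by exact_mod_cast hAB
      have e2 : (16 : ℝ) ≤ X := by exact_mod_cast (by omega : 16 ≤ X)
      linarith
    have h3 : (B.card : ℝ) * (K + 1) ≤ ∑ N ∈ I, ((N : ℝ) - g N) := by
      calc (B.card : ℝ) * (K + 1) = ∑ N ∈ B, ((K : ℝ) + 1) := by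
            rw [sum_const, nsmul_eq_mul]
        _ ≤ ∑ N ∈ B, ((N : ℝ) - g N) := by
            apply sum_le_sum
            intro N hN
            rw [hB, mem_filter] at hN
            have e1 : g N + K + 1 ≤ N := by omega
            have e2 : ((g N + K + 1 : ℕ) : ℝ) ≤ N := by exact_mod_cast e1
            push_cast at e2
            linarith
        _ ≤ _ := by
            apply sum_le_sum_of_subset_of_nonneg (filter_subset _ _)
            intro N hN _
            linarith [hterm N hN]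
    calc min (5 / (64 * C)) (1 / (3 * Real.log X₀ ^ 2)) * ((X : ℝ) * L ^ 2)
        ≤ 5 / (64 * C) * ((X : ℝ) * L ^ 2) := by
          apply mul_le_mul_of_nonneg_right (min_le_left _ _) (by positivity)
      _ ≤ 5 / 8 * X * (L ^ 2 / (8 * C)) := by
          apply le_of_eq
          field_simp
          ring
      _ ≤ B.card * (K + 1) := by gcongr
      _ ≤ _ := h3

end Pool.Agent.Q205.GC
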