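import Pool.Agent.Q205.GC.Gold2
import Pool.Agent.Helper923.PNT

/-!
# The loss `N - g_N` is at least the least prime factor of a composite `N`
-/

set_option autoImplicit false

namespace Pool.Agent.Q205.GC

open Finset

/-- before the time `p = minFac N` all gcds are trivial -/
lemma gold_first {a : ℕ → ℕ → ℤ} {g : ℕ → ℕ} (h : Rec a g) {N : ℕ} (hN : 3 ≤ N) (hc : ¬ N.Prime) :
    g N + N.minFac ≤ N := by
  have hN1 : N ≠ 1 := by omega
  have hp := Nat.minFac_prime hN1
  set p := N.minFac with hpdef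
  have hpN : p * p ≤ N := by
    have := Nat.minFac_sq_le_self (by omega : 0 < N) hc
    rw [← hpdef] at this
    nlinarith
  have hp2 := hp.two_le
  -- the second argument of the gcd
  have key : ∀ n : ℕ, 2 ≤ n → a N (n - 1) = (N : ℤ) - n →
      (Int.gcd (a N (n - 1)) ((N : ℤ) - (-1) ^ n * ((N : ℤ) - n)) : ℕ) = Nat.gcd N n := by
    intro n hn hx
    rw [hx]
    rcases Nat.even_or_odd n with he | ho
    · rw [he.neg_one_pow, one_mul]
      have e : (N : ℤ) - ((N : ℤ) - n) = n := by ring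
      rw [e, Int.gcd_sub_self_left]
      exact Int.gcd_natCast_natCast N n
    · rw [ho.neg_one_pow]
      have e : (N : ℤ) - -1 * ((N : ℤ) - n) = (N : ℤ) + ((N : ℤ) - n) := by ring
      rw [e, Int.gcd_add_self_right, Int.gcd_comm]
      have e2 : Int.gcd (N : ℤ) ((N : ℤ) - n) = Int.gcd (N : ℤ) (n : ℤ) := by
        rw [Int.gcd_self_sub_right]
      rw [e2]
      exact Int.gcd_natCast_natCast N n
  have hrun : ∀ n : ℕ, 1 ≤ n → n < p → a N n = (N : ℤ) - 1 - n := by
    intro n hn
    induction n, hn using Nat.le_induction with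
    | base => intro _; rw [h.one N hN]; push_cast; ring
    | succ n hn ih =>
      intro hlt
      have h1 := ih (by omega)
      have h2 := key (n + 1) (by omega) (by rw [Nat.add_sub_cancel, h1]; push_cast; ring)
      rw [h.step N hN (n + 1) (by omega), h2, Nat.add_sub_cancel, h1]
      have h3 : Nat.gcd N (n + 1) = 1 := by
        by_contra hcon
        have h4 := Nat.minFac_prime hcon
        have h5 : Nat.minFac (Nat.gcd N (n + 1)) ∣ N :=
          (Nat.minFac_dvd _).trans (Nat.gcd_dvd_left _ _)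
        have h6 : Nat.minFac (Nat.gcd N (n + 1)) ∣ n + 1 :=
          (Nat.minFac_dvd _).trans (Nat.gcd_dvd_right _ _)
        have h7 := Nat.minFac_le_of_dvd h4.two_le h5
        have h8 := Nat.le_of_dvd (by omega) h6
        omega
      rw [h3]
      push_cast
      ring
  have hp1 : a N (p - 1) = (N : ℤ) - p := by
    rw [hrun (p - 1) (by omega) (by omega), Nat.cast_sub (by omega)]
    push_cast
    ring
  have hap : a N p = (N : ℤ) - 2 * p := by
    have h2 := key p hp2 hp1
    rw [h.step N hN p hp2, h2, hp1, Nat.gcd_eq_right (Nat.minFac_dvd N)]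
    ring
  obtain ⟨⟨hg2, hag⟩, hmin⟩ := h.zero N hN
  have hgp : p ≤ g N := by
    by_contra hcon
    push Not at hcon
    have h1 := hrun (g N) (by omega) hcon
    rw [hag] at h1
    have h2 : ((g N + 1 : ℕ) : ℤ) = N := by push_cast; linarith
    have h3 : g N + 1 = N := by exact_mod_cast h2
    nlinarith
  have hk : ∀ k, p ≤ k → k ≤ g N → 0 ≤ a N k ∧ a N k + (k : ℤ) ≤ (N : ℤ) - p := by
    intro k hk
    induction k, hk using Nat.le_induction with
    | base =>
      intro _
      rw [hap]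
      have : ((2 * p : ℕ) : ℤ) ≤ N := by exact_mod_cast (by nlinarith : 2 * p ≤ N)
      push_cast at this
      constructor <;> linarith
    | succ k hk ih =>
      intro hkg
      obtain ⟨h1, h2⟩ := ih (by omega)
      have hne : a N k ≠ 0 := by
        intro h3
        have := hmin ⟨by omega, h3⟩
        omega
      have hpos : 0 < a N k := lt_of_le_of_ne h1 (Ne.symm hne)
      rw [h.step N hN (k + 1) (by omega), Nat.add_sub_cancel]
      have hle := Int.le_of_dvd hpos (Int.gcd_dvd_left (a := a N k)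
        (b := ((N : ℤ) - (-1) ^ (k + 1) * ((N : ℤ) - ((k + 1 : ℕ) : ℤ)))))
      have hge : 1 ≤ Int.gcd (a N k) ((N : ℤ) - (-1) ^ (k + 1) * ((N : ℤ) - ((k + 1 : ℕ) : ℤ))) := by
        apply Nat.pos_of_ne_zero
        intro h6
        rw [Int.gcd_eq_zero_iff] at h6
        exact hne h6.1
      constructor
      · linarith
      · push_cast at hge ⊢
        omega
  have h1 := (hk (g N) hgp le_rfl).2
  rw [hag] at h1
  omega

/-- many primes in `(y, 2y]` -/
lemma primes_dyadic : ∃ y₀ : ℕ, 1 ≤ y₀ ∧ ∀ y : ℕ, y₀ ≤ y →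
    (y : ℝ) / (2 * Real.log y) ≤ (((Ioc y (2 * y)).filter Nat.Prime).card : ℝ) := by
  have h1 := Pool.Agent.Helper923.PNT.pi_tendsto
  have h2 : ∀ᶠ x : ℝ in Filter.atTop, (Nat.primeCounting ⌊x⌋₊ : ℝ) * Real.log x / x < 9 / 8 :=
    h1.eventually (gt_mem_nhds (by norm_num))
  have h3 : ∀ᶠ x : ℝ in Filter.atTop, 7 / 8 < (Nat.primeCounting ⌊x⌋₊ : ℝ) * Real.log x / x :=
    h1.eventually (lt_mem_nhds (by norm_num))
  have h4 : ∀ᶠ x : ℝ in Filter.atTop, 100 ≤ Real.log x :=
    Real.tendsto_log_atTop.eventually_ge_atTop _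
  obtain ⟨x₀, hx₀⟩ := Filter.eventually_atTop.mp ((h2.and h3).and h4)
  refine ⟨⌈x₀⌉₊ + 2, by omega, fun y hy => ?_⟩
  have hy0 : x₀ ≤ y := (Nat.le_ceil x₀).trans (by exact_mod_cast (by omega : ⌈x₀⌉₊ ≤ y))
  have hy1 : (1 : ℝ) < y := by exact_mod_cast (by omega : 1 < y)
  obtain ⟨⟨a1, -⟩, a3⟩ := hx₀ y hy0
  obtain ⟨⟨-, b2⟩, b3⟩ := hx₀ (2 * y) (by linarith)
  have e : (2 * (y : ℝ)) = ((2 * y : ℕ) : ℝ) := by push_cast; ring
  rw [e, Nat.floor_natCast, ← e] at b2
  rw [Nat.floor_natCast] at a1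
  have hl := Real.log_pos hy1
  have hl2 : Real.log (2 * y) = Real.log 2 + Real.log y := Real.log_mul (by norm_num) (by linarith)
  have hlog2 : Real.log 2 ≤ 1 := by
    have := Real.log_le_sub_one_of_pos (by norm_num : (0 : ℝ) < 2)
    linarith
  have hlog2' : 0 < Real.log 2 := Real.log_pos (by norm_num)
  rw [div_lt_iff₀ (by linarith)] at a1
  rw [lt_div_iff₀ (by linarith)] at b2
  have hcard : Nat.primeCounting (2 * y) = Nat.primeCounting y + ((Ioc y (2 * y)).filter Nat.Prime).card := by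
    rw [← Nat.primesLE_card_eq_primeCounting, ← Nat.primesLE_card_eq_primeCounting]
    rw [← card_union_of_disjoint]
    · congr 1
      ext p
      rw [mem_union, Nat.mem_primesLE, Nat.mem_primesLE, mem_filter, mem_Ioc]
      constructor
      · rintro ⟨h5, h6⟩
        by_cases h7 : p ≤ y
        · exact Or.inl ⟨h7, h6⟩
        · exact Or.inr ⟨⟨by omega, h5⟩, h6⟩
      · rintro (⟨h5, h6⟩ | ⟨⟨h5, h6⟩, h7⟩)
        · exact ⟨by omega, h6⟩
        · exact ⟨h6, h7⟩
    · rw [disjoint_left]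
      intro p hp hq
      rw [Nat.mem_primesLE] at hp
      rw [mem_filter, mem_Ioc] at hq
      omega
  have hcard' : (Nat.primeCounting (2 * y) : ℝ) =
      Nat.primeCounting y + (((Ioc y (2 * y)).filter Nat.Prime).card : ℝ) := by exact_mod_cast hcard
  set P1 : ℝ := (Nat.primeCounting y : ℝ)
  set P2 : ℝ := (Nat.primeCounting (2 * y) : ℝ)
  set Q : ℝ := (((Ioc y (2 * y)).filter Nat.Prime).card : ℝ)
  set L := Real.log y
  have hQ : Q = P2 - P1 := by linarith
  have hP1 : 0 ≤ P1 := Nat.cast_nonneg _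
  have hP2 : 0 ≤ P2 := Nat.cast_nonneg _
  rw [hl2] at b2
  rw [div_le_iff₀ (by positivity), hQ]
  have h5 : P2 * (Real.log 2 + L) ≤ P2 * (101 / 100 * L) := by
    apply mul_le_mul_of_nonneg_left _ hP2
    linarith
  nlinarith

/-- the mean of the loss is at least of the order `√X / log² X` -/
lemma gold_mean_sqrt : ∃ c : ℝ, 0 < c ∧ ∀ (a : ℕ → ℕ → ℤ) (g : ℕ → ℕ), Rec a g →
    ∀ X : ℕ, 3 ≤ X → c * (X * √X / Real.log X ^ 2) ≤ ∑ N ∈ Icc 3 X, ((N : ℝ) - g N) := by
  obtain ⟨y₀, hy₀, hpr⟩ := primes_dyadic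
  set X₀ : ℕ := (3 * y₀ + 20) ^ 2 with hX₀
  have hX₀pos : (0 : ℝ) < X₀ := by
    rw [hX₀]
    positivity
  refine ⟨min (1 / 128) (1 / (3 * √(X₀ : ℝ))), by positivity, ?_⟩
  intro a g hrec X hX
  have hX1 : (1 : ℝ) < X := by exact_mod_cast (by omega : 1 < X)
  have hXp : (0 : ℝ) < X := by linarith
  have hl := Real.log_pos hX1
  have hl1 : 1 ≤ Real.log X := by
    rw [Real.le_log_iff_exp_le hXp]
    have h1 := Real.exp_one_lt_d9
    have h2 : (3 : ℝ) ≤ X := by exact_mod_cast hX
    linarith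
  have hterm : ∀ N ∈ Icc 3 X, (1 : ℝ) ≤ (N : ℝ) - g N := by
    intro N hN
    have h1 := hrec.lt (mem_Icc.mp hN).1
    have h2 : ((g N + 1 : ℕ) : ℝ) ≤ N := by exact_mod_cast h1
    push_cast at h2
    linarith
  rcases Nat.lt_or_ge X X₀ with hlt | hge
  · have h1 : ∑ N ∈ Icc 3 X, (1 : ℝ) ≤ ∑ N ∈ Icc 3 X, ((N : ℝ) - g N) := sum_le_sum hterm
    rw [sum_const, Nat.card_Icc, nsmul_eq_mul, mul_one] at h1
    have h2 : (X : ℝ) / 3 ≤ ((X + 1 - 3 : ℕ) : ℝ) := by
      rw [Nat.cast_sub (by omega)]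
      push_cast
      have : (3 : ℝ) ≤ X := by exact_mod_cast hX
      linarith
    have h3 : √(X : ℝ) ≤ √(X₀ : ℝ) := Real.sqrt_le_sqrt (by exact_mod_cast hlt.le)
    have h4 : (X : ℝ) * √X / Real.log X ^ 2 ≤ X * √X₀ := by
      calc (X : ℝ) * √X / Real.log X ^ 2 ≤ X * √X / 1 ^ 2 := by gcongr
        _ = X * √X := by ring
        _ ≤ X * √X₀ := by gcongr
    calc min (1 / 128) (1 / (3 * √(X₀ : ℝ))) * ((X : ℝ) * √X / Real.log X ^ 2)
        ≤ 1 / (3 * √(X₀ : ℝ)) * ((X : ℝ) * √X₀) := by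
          apply mul_le_mul (min_le_right _ _) h4 (by positivity) (by positivity)
      _ = (X : ℝ) / 3 := by
          have : √(X₀ : ℝ) ≠ 0 := (Real.sqrt_pos.mpr hX₀pos).ne'
          field_simp
      _ ≤ _ := h2.trans h1
  · set s := Nat.sqrt X with hs
    have hs1 : s * s ≤ X := Nat.sqrt_le X
    have hs2 : X < (s + 1) * (s + 1) := Nat.lt_succ_sqrt X
    have hs3 : 3 * y₀ + 20 ≤ s := by
      rw [hs, Nat.le_sqrt, ← sq]
      exact hge
    set y := s / 3 with hy
    have hyy : y₀ ≤ y := by omega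
    have hy1 : 3 * y ≤ s := by omega
    have hy2 : s ≤ 3 * y + 2 := by omega
    have hy3 : 6 ≤ y := by omega
    -- √X ≤ 4 y
    have hsq : √(X : ℝ) ≤ 4 * y := by
      rw [Real.sqrt_le_left (by positivity)]
      have h1 : X ≤ (4 * y) ^ 2 := by nlinarith
      exact_mod_cast h1
    have hyX : (4 * y : ℝ) ≤ X := by
      have : 4 * y ≤ X := by nlinarith
      exact_mod_cast this
    set P := (Ioc y (2 * y)).filter Nat.Prime with hP
    set Q := (Ioc (2 * y) (2 * (2 * y))).filter Nat.Prime with hQ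
    have hyr : (6 : ℝ) ≤ y := by exact_mod_cast hy3
    have hly : 0 < Real.log y := Real.log_pos (by linarith)
    have hly2 : 0 < Real.log (2 * y) := Real.log_pos (by linarith)
    have hPc : (y : ℝ) / (2 * Real.log X) ≤ P.card := by
      refine le_trans ?_ (hpr y hyy)
      have h9 : Real.log y ≤ Real.log X := Real.log_le_log (by linarith) (by linarith)
      gcongr
    have hQc : (y : ℝ) / Real.log X ≤ Q.card := by
      have h1 := hpr (2 * y) (by omega)
      refine le_trans ?_ h1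
      push_cast
      rw [mul_div_mul_left _ _ (by norm_num : (2 : ℝ) ≠ 0)]
      have h9 : Real.log (2 * y) ≤ Real.log X := Real.log_le_log (by linarith) (by linarith)
      gcongr
    have hmin : ∀ x ∈ P ×ˢ Q, (x.1 * x.2).minFac = x.1 := by
      intro x hx
      rw [mem_product, hP, hQ, mem_filter, mem_filter, mem_Ioc, mem_Ioc] at hx
      obtain ⟨⟨h1, h2⟩, h3, h4⟩ := hx
      have h5 : (x.1 * x.2).minFac ≤ x.1 := Nat.minFac_le_of_dvd h2.two_le (dvd_mul_right _ _)
      have h6 : (x.1 * x.2).minFac.Prime := Nat.minFac_prime (by nlinarith [h2.two_le, h4.two_le])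
      rcases (Nat.Prime.dvd_mul h6).mp (Nat.minFac_dvd _) with h7 | h7
      · exact (Nat.prime_dvd_prime_iff_eq h6 h2).mp h7
      · have := (Nat.prime_dvd_prime_iff_eq h6 h4).mp h7
        omega
    have hinj : Set.InjOn (fun x : ℕ × ℕ => x.1 * x.2) (P ×ˢ Q : Finset (ℕ × ℕ)) := by
      intro x hx z hz hxz
      simp only at hxz
      have h1 := hmin x hx
      have h2 := hmin z hz
      rw [hxz, h2] at h1
      have hz1 : 0 < z.1 := by
        rw [mem_coe, mem_product, hP, mem_filter] at hz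
        exact hz.1.2.pos
      rw [← h1] at hxz
      exact Prod.ext h1.symm (Nat.eq_of_mul_eq_mul_left hz1 hxz)
    have hsub : (P ×ˢ Q).image (fun x : ℕ × ℕ => x.1 * x.2) ⊆ Icc 3 X := by
      intro N hN
      rw [mem_image] at hN
      obtain ⟨x, hx, rfl⟩ := hN
      rw [mem_product, hP, hQ, mem_filter, mem_filter, mem_Ioc, mem_Ioc] at hx
      obtain ⟨⟨h1, h2⟩, h3, h4⟩ := hx
      rw [mem_Icc]
      constructor
      · nlinarith
      · calc x.1 * x.2 ≤ (2 * y) * (2 * (2 * y)) := Nat.mul_le_mul h1.2 h3.2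
          _ ≤ (3 * y) * (3 * y) := by nlinarith
          _ ≤ s * s := Nat.mul_le_mul hy1 hy1
          _ ≤ X := hs1
    calc min (1 / 128) (1 / (3 * √(X₀ : ℝ))) * ((X : ℝ) * √X / Real.log X ^ 2)
        ≤ 1 / 128 * ((X : ℝ) * √X / Real.log X ^ 2) := by
          apply mul_le_mul_of_nonneg_right (min_le_left _ _) (by positivity)
      _ ≤ (y : ℝ) / (2 * Real.log X) * (y / Real.log X) * y := by
          have h1 : (X : ℝ) = √X * √X := (Real.mul_self_sqrt hXp.le).symm
          have h2 : (X : ℝ) * √X ≤ (4 * y) * (4 * y) * (4 * y) := by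
            rw [h1]
            have h3 := Real.sqrt_nonneg (X : ℝ)
            have h4 : √(√(X : ℝ) * √X) = √X := by rw [← h1]
            rw [h4]
            gcongr
          have e : (y : ℝ) / (2 * Real.log X) * (y / Real.log X) * y =
              1 / 128 * ((4 * y) * (4 * y) * (4 * y) / Real.log X ^ 2) := by
            field_simp
            ring
          rw [e]
          gcongr
      _ ≤ (P.card : ℝ) * Q.card * y := by gcongr
      _ = ∑ x ∈ P ×ˢ Q, (y : ℝ) := by
          rw [sum_const, card_product, nsmul_eq_mul]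
          push_cast
          ring
      _ ≤ ∑ x ∈ P ×ˢ Q, (((x.1 * x.2 : ℕ) : ℝ) - g (x.1 * x.2)) := by
          apply sum_le_sum
          intro x hx
          have h0 := hmin x hx
          rw [mem_product, hP, hQ, mem_filter, mem_filter, mem_Ioc, mem_Ioc] at hx
          obtain ⟨⟨h1, h2⟩, h3, h4⟩ := hx
          have h5 := gold_first hrec (N := x.1 * x.2) (by nlinarith)
            (Nat.not_prime_mul (by omega) (by omega))
          rw [h0] at h5
          have h6 : ((g (x.1 * x.2) + x.1 : ℕ) : ℝ) ≤ ((x.1 * x.2 : ℕ) : ℝ) := by exact_mod_cast h5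
          have h7 : (y : ℝ) ≤ x.1 := by exact_mod_cast h1.1.le
          push_cast at h6 ⊢
          linarith
      _ = ∑ N ∈ (P ×ˢ Q).image (fun x : ℕ × ℕ => x.1 * x.2), ((N : ℝ) - g N) := by
          rw [sum_image hinj]
      _ ≤ _ := by
          apply sum_le_sum_of_subset_of_nonneg hsub
          intro N hN _
          linarith [hterm N hN]

end Pool.Agent.Q205.GC
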