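import Pool.Agent.Q205.GC.GoldW

/-!
# Few composite `N` have a small loss `N - g_N`
-/

set_option autoImplicit false

namespace Pool.Agent.Q205.GC

open Finset

/-- small terms against `X / log² X` -/
lemma small_terms {X : ℝ} (hX : 2 ≤ X) : Real.log X ^ 4 ≤ 4096 * √X ∧ Real.log X ^ 2 * √X ≤ 64 * X ∧
    Real.log X ^ 2 ≤ 64 * X := by
  have hX0 : 0 < X := by linarith
  have hX1 : 1 ≤ X := by linarith
  set w := X ^ (1 / 8 : ℝ) with hw
  have hw1 : 1 ≤ w := Real.one_le_rpow hX1 (by norm_num)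
  have h8 : w ^ 8 = X := by
    rw [hw, ← Real.rpow_natCast, ← Real.rpow_mul hX0.le]
    norm_num
  have h4 : w ^ 4 = √X := by
    have e : X = (w ^ 4) ^ 2 := by rw [← h8]; ring
    rw [e, Real.sqrt_sq (by positivity)]
  have hl0 : 0 ≤ Real.log X := Real.log_nonneg hX1
  have hl : Real.log X ≤ 8 * w := by
    have := Real.log_le_rpow_div hX0.le (by norm_num : (0 : ℝ) < 1 / 8)
    rw [← hw] at this
    linarith
  have h2 : Real.log X ^ 2 ≤ 64 * w ^ 2 := by
    calc Real.log X ^ 2 ≤ (8 * w) ^ 2 := by gcongr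
      _ = _ := by ring
  have hw28 : w ^ 2 ≤ w ^ 8 := pow_le_pow_right₀ hw1 (by norm_num)
  have hw68 : w ^ 6 ≤ w ^ 8 := pow_le_pow_right₀ hw1 (by norm_num)
  refine ⟨?_, ?_, ?_⟩
  · rw [← h4]
    calc Real.log X ^ 4 ≤ (8 * w) ^ 4 := by gcongr
      _ = _ := by ring
  · rw [← h4]
    calc Real.log X ^ 2 * w ^ 4 ≤ 64 * w ^ 2 * w ^ 4 := by gcongr
      _ = 64 * w ^ 6 := by ring
      _ ≤ 64 * w ^ 8 := by linarith
      _ = 64 * X := by rw [h8]
  · calc Real.log X ^ 2 ≤ 64 * w ^ 2 := h2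
      _ ≤ 64 * w ^ 8 := by linarith
      _ = 64 * X := by rw [h8]

/-- the logarithm of `6 K` -/
lemma log_six {K : ℕ} (hK : 2 ≤ K) : Real.log ((6 * K : ℕ) : ℝ) ≤ 4 * Real.log K := by
  have h1 : 6 * K ≤ K ^ 4 := by
    have h2 : 2 ^ 3 ≤ K ^ 3 := Nat.pow_le_pow_left hK 3
    calc 6 * K ≤ K ^ 3 * K := by nlinarith
      _ = K ^ 4 := by ring
  have h3 : ((6 * K : ℕ) : ℝ) ≤ (K : ℝ) ^ 4 := by exact_mod_cast h1
  have h4 := Real.log_le_log (by exact_mod_cast (by omega : 0 < 6 * K)) h3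
  rw [Real.log_pow] at h4
  exact_mod_cast h4

/-- **Few composite `N` have a small loss** -/
theorem gold_small : ∃ c C : ℝ, 0 < c ∧ 0 < C ∧ ∀ (a : ℕ → ℕ → ℤ) (g : ℕ → ℕ), Rec a g →
    ∀ A X K : ℕ, 2 ≤ X → 2 ≤ K → (K : ℝ) * Real.log K ≤ c * Real.log X ^ 2 →
      (((Ioc A (A + X)).filter (fun N => 3 ≤ N ∧ ¬ N.Prime ∧ N ≤ g N + K)).card : ℝ) ≤
      C * (X * (Real.log K / Real.log X) ^ 2) := by
  obtain ⟨c, C, X0, hc, hC, hmain⟩ := walk_final 2 4 (by norm_num)
  obtain ⟨N₀, hN₀⟩ := Pool.Agent.Results.MP_b5e119_nt.TwoThirds.result.2 (1 / 12) (by norm_num)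
  have hl2 : (1 / 2 : ℝ) < Real.log 2 := by
    have := Real.log_two_gt_d9
    linarith
  refine ⟨c / 24, (Real.log X0 / Real.log 2) ^ 2 + 16 * C + 4 * (64 * N₀ + 20480 * c + 64),
    by positivity, by positivity, ?_⟩
  intro a g hrec A X K hX hK hKc
  have hX2 : (2 : ℝ) ≤ X := by exact_mod_cast hX
  have hK2 : (2 : ℝ) ≤ K := by exact_mod_cast hK
  have hX0' : (0 : ℝ) < X := by linarith
  set x := Real.log X with hx
  have hx0 : 0 < x := Real.log_pos (by linarith)
  have hlK : Real.log 2 ≤ Real.log K := Real.log_le_log (by norm_num) hK2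
  have hlK0 : 0 < Real.log K := by linarith
  set q : ℝ := X * (Real.log K / x) ^ 2 with hq
  have hq0 : 0 < q := by positivity
  set S := (Ioc A (A + X)).filter (fun N => 3 ≤ N ∧ ¬ N.Prime ∧ N ≤ g N + K) with hS
  rcases Nat.lt_or_ge X X0 with hlt | hge
  · have h1 : (S.card : ℝ) ≤ X := by
      have : S.card ≤ X := by
        refine (card_filter_le _ _).trans ?_
        rw [Nat.card_Ioc]
        omega
      exact_mod_cast this
    have h2 : x ≤ Real.log X0 := Real.log_le_log hX0' (by exact_mod_cast hlt.le)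
    have h3 : 1 ≤ (Real.log X0 / Real.log 2) * (Real.log K / x) := by
      rw [div_mul_div_comm, le_div_iff₀ (by positivity), one_mul, mul_comm]
      apply mul_le_mul h2 hlK (by linarith) (by linarith)
    have h4 : (X : ℝ) ≤ (Real.log X0 / Real.log 2) ^ 2 * q := by
      calc (X : ℝ) = X * 1 := by ring
        _ ≤ X * ((Real.log X0 / Real.log 2) * (Real.log K / x)) ^ 2 := by
            apply mul_le_mul_of_nonneg_left _ hX0'.le
            exact one_le_pow₀ h3
        _ = _ := by rw [hq]; ring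
    have h5 : 0 ≤ (16 * C + 4 * (64 * N₀ + 20480 * c + 64)) * q := by positivity
    linarith
  · set W : ℕ := N₀ + 5 * K + Nat.sqrt X with hW
    set B := S.filter (fun N => W < N) with hB
    have hBN : ∀ N ∈ B, A < N ∧ N ≤ A + X ∧ 3 ≤ N ∧ ¬ N.Prime ∧ N ≤ g N + K ∧ W < N := by
      intro N hN
      rw [hB, mem_filter, hS, mem_filter, mem_Ioc] at hN
      obtain ⟨⟨⟨h1, h2⟩, h3, h4, h5⟩, h6⟩ := hN
      exact ⟨h1, h2, h3, h4, h5, h6⟩
    have hend : ∀ N ∈ B, walk gm gr N (4 * K) = N - 1 - g N ∧ g N + 1 ≤ N ∧ (g N + 1).Prime ∧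
        (2 * N - g N - 1).Prime := by
      intro N hN
      obtain ⟨h1, h2, h3, h4, h5, h6⟩ := hBN N hN
      have hlt := hrec.lt h3
      refine ⟨gold_end hrec h3 (4 * K) (by omega) (by omega), hlt, ?_⟩
      have h7 : (2 / 3 + 1 / 12 : ℝ) * N ≤ g N := by
        have e1 : (N : ℝ) ≤ g N + K := by exact_mod_cast h5
        have e2 : (4 * K : ℝ) ≤ N := by exact_mod_cast (by omega : 4 * K ≤ N)
        linarith
      exact hN₀ N (by omega) (a N) (hrec.one N h3) (hrec.step N h3) (g N) (hrec.zero N h3) h7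
    have hlL := log_six hK
    have hmainB := hmain gm gr gs (4 * K) (6 * K) K A X hge (by omega) (by omega) (by omega)
      (by
        have h1 : ((6 * K : ℕ) : ℝ) * Real.log ((6 * K : ℕ) : ℝ) ≤ (6 * K) * (4 * Real.log K) := by
          push_cast at hlL ⊢
          gcongr
        have h2 : (6 * (K : ℝ)) * (4 * Real.log K) = 24 * (K * Real.log K) := by ring
        linarith) B
      (fun N hN => ⟨(hBN N hN).1, (hBN N hN).2.1⟩)
      (fun N hN n hn => by
        obtain ⟨h1, h2, h3, h4, h5, h6⟩ := hBN N hN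
        obtain ⟨e1, e2, e3, e4⟩ := hend N hN
        refine ⟨gm_pos _ _, ?_⟩
        have := gold_args N (4 * K) (K - 1) n hn (by rw [e1]; omega)
        omega)
      (fun N hN => by
        obtain ⟨h1, h2, h3, h4, h5, h6⟩ := hBN N hN
        obtain ⟨e1, e2, e3, e4⟩ := hend N hN
        rw [e1]
        omega)
      (fun N hN p hp hpX i => by
        obtain ⟨h1, h2, h3, h4, h5, h6⟩ := hBN N hN
        obtain ⟨e1, e2, e3, e4⟩ := hend N hN
        have hps : p ≤ Nat.sqrt X := by
          rw [Nat.le_sqrt]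
          rwa [pow_two] at hpX
        rw [e1]
        unfold gs
        intro hdvd
        split_ifs at hdvd with hi
        · have e5 : (N : ℤ) - ((N - 1 - g N : ℕ) : ℤ) = ((g N + 1 : ℕ) : ℤ) := by omega
          rw [e5, Int.natCast_dvd_natCast, Nat.prime_dvd_prime_iff_eq hp e3] at hdvd
          omega
        · have e5 : (N : ℤ) - -((N - 1 - g N : ℕ) : ℤ) = ((2 * N - g N - 1 : ℕ) : ℤ) := by omega
          rw [e5, Int.natCast_dvd_natCast, Nat.prime_dvd_prime_iff_eq hp e4] at hdvd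
          omega)
      (fun N hN p hp hLp i j hij => by
        obtain ⟨h1, h2, h3, h4, h5, h6⟩ := hBN N hN
        obtain ⟨e1, e2, e3, e4⟩ := hend N hN
        have hpos : 1 ≤ N - 1 - g N := by
          by_contra hcon
          have : g N + 1 = N := by omega
          rw [this] at e3
          exact h4 e3
        rw [e1]
        have hkey : ¬ (p : ℤ) ∣ 2 * ((N - 1 - g N : ℕ) : ℤ) := by
          intro hd
          have := Int.le_of_dvd (by omega) hd
          omega
        unfold gs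
        intro hdvd
        split_ifs at hdvd with hi hj hj
        · exact hij (by rw [hi, hj])
        · apply hkey
          have e5 : ((N - 1 - g N : ℕ) : ℤ) - -((N - 1 - g N : ℕ) : ℤ) = 2 * ((N - 1 - g N : ℕ) : ℤ) := by
            ring
          rwa [e5] at hdvd
        · apply hkey
          have e5 : -((N - 1 - g N : ℕ) : ℤ) - ((N - 1 - g N : ℕ) : ℤ) = -(2 * ((N - 1 - g N : ℕ) : ℤ)) := by
            ring
          rwa [e5, dvd_neg] at hdvd
        · exact hij (by omega))
      (fun N hN p hp hpL => by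
        obtain ⟨h1, h2, h3, h4, h5, h6⟩ := hBN N hN
        obtain ⟨e1, e2, e3, e4⟩ := hend N hN
        have h7 := gold_queries N (4 * K) (K - 1) p hp.pos (by rw [e1]; omega)
        have h8 : (4 * K + 1 + 2 * (K - 1)) / p ≤ (6 * K) / p := Nat.div_le_div_right (by omega)
        have hp0 : (0 : ℝ) < p := by exact_mod_cast hp.pos
        have h9 : (((6 * K) / p : ℕ) : ℝ) ≤ ((6 * K : ℕ) : ℝ) / p := Nat.cast_div_le
        have h10 : (1 : ℝ) ≤ ((6 * K : ℕ) : ℝ) / p := by
          rw [le_div_iff₀ hp0, one_mul]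
          exact_mod_cast hpL
        have h11 : ((((range (4 * K)).filter (fun n => p ∣ gm n (walk gm gr N n))).card + 2 : ℕ) : ℝ) ≤
            2 * (((6 * K) / p : ℕ) : ℝ) + 2 := by
          exact_mod_cast (by omega : ((range (4 * K)).filter (fun n => p ∣ gm n (walk gm gr N n))).card + 2 ≤
            2 * ((6 * K) / p) + 2)
        rw [mul_div_assoc]
        linarith)
    have hBcard : (B.card : ℝ) ≤ 16 * C * q := by
      refine hmainB.trans ?_
      have h1 : (Real.log ((6 * K : ℕ) : ℝ) / x) ^ 2 ≤ (4 * Real.log K / x) ^ 2 := by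
        have h0 : 0 ≤ Real.log ((6 * K : ℕ) : ℝ) := Real.log_natCast_nonneg _
        gcongr
      calc C * (X * (Real.log ((6 * K : ℕ) : ℝ) / x) ^ 2) ≤ C * (X * (4 * Real.log K / x) ^ 2) := by gcongr
        _ = 16 * C * q := by rw [hq]; ring
    have hsub : S ⊆ B ∪ Icc 1 W := by
      intro N hN
      rw [mem_union]
      rcases Nat.lt_or_ge W N with h | h
      · left
        rw [hB, mem_filter]
        exact ⟨hN, h⟩
      · right
        rw [hS, mem_filter] at hN
        rw [mem_Icc]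
        omega
    have hcard : (S.card : ℝ) ≤ B.card + W := by
      have h1 := (card_le_card hsub).trans (card_union_le _ _)
      rw [Nat.card_Icc, Nat.add_sub_cancel] at h1
      exact_mod_cast h1
    -- the small integers
    obtain ⟨hs1, hs2, hs3⟩ := small_terms hX2
    rw [← hx] at hs1 hs2 hs3
    have hqx : (X : ℝ) / x ^ 2 ≤ 4 * q := by
      have h1 : (1 / 4 : ℝ) ≤ Real.log K ^ 2 := by nlinarith
      have e : 4 * q = (X / x ^ 2) * (4 * Real.log K ^ 2) := by
        rw [hq]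
        field_simp
      rw [e]
      have h2 : 0 < (X : ℝ) / x ^ 2 := by positivity
      nlinarith
    have hsqrt : (Nat.sqrt X : ℝ) ≤ √X := Real.nat_sqrt_le_real_sqrt
    have hsX : √(X : ℝ) ≤ X := by
      have h1 := Real.mul_self_sqrt hX0'.le
      have h2 : 1 ≤ √(X : ℝ) := by
        rw [Real.one_le_sqrt]
        linarith
      nlinarith
    have hKx : (K : ℝ) ≤ c * x ^ 2 := by
      have h1 : (K : ℝ) * (1 / 2) ≤ K * Real.log K := by
        apply mul_le_mul_of_nonneg_left _ (by linarith)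
        linarith
      have h2 : 0 ≤ c * x ^ 2 := by positivity
      linarith
    have hWr : (W : ℝ) ≤ (64 * N₀ + 20480 * c + 64) * (X / x ^ 2) := by
      have hN0 : (0 : ℝ) ≤ N₀ := Nat.cast_nonneg _
      have h1 : (W : ℝ) = N₀ + 5 * K + Nat.sqrt X := by rw [hW]; push_cast; ring
      rw [h1, mul_div_assoc', le_div_iff₀ (by positivity)]
      have h2 : (N₀ : ℝ) * x ^ 2 ≤ N₀ * (64 * X) := by gcongr
      have h3 : (K : ℝ) * x ^ 2 ≤ 4096 * c * X := by
        calc (K : ℝ) * x ^ 2 ≤ (c * x ^ 2) * x ^ 2 := by gcongr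
          _ = c * x ^ 4 := by ring
          _ ≤ c * (4096 * √X) := by gcongr
          _ ≤ c * (4096 * X) := by gcongr
          _ = _ := by ring
      have h4 : (Nat.sqrt X : ℝ) * x ^ 2 ≤ 64 * X := by
        calc (Nat.sqrt X : ℝ) * x ^ 2 ≤ √X * x ^ 2 := by gcongr
          _ = x ^ 2 * √X := by ring
          _ ≤ 64 * X := hs2
      nlinarith
    have hWq : (W : ℝ) ≤ 4 * (64 * N₀ + 20480 * c + 64) * q := by
      refine hWr.trans ?_
      calc (64 * (N₀ : ℝ) + 20480 * c + 64) * (X / x ^ 2) ≤ (64 * N₀ + 20480 * c + 64) * (4 * q) := by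
            gcongr
        _ = _ := by ring
    have h5 : 0 ≤ (Real.log X0 / Real.log 2) ^ 2 * q := by positivity
    linarith

end Pool.Agent.Q205.GC
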