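import Pool.Agent.Q205.GC.Walk

/-!
# Walks given by gcds: waiting times and the number of arguments divisible by a prime
-/

set_option autoImplicit false

namespace Pool.Agent.Q205.GC

open Finset

section

variable (m : ℕ → ℕ → ℕ) (r : ℕ → ℕ → ℤ)

lemma walk_mono (N : ℤ) : Monotone (walk m r N) := by
  apply monotone_nat_of_le_succ
  intro n
  rw [walk_succ]
  exact Nat.le_add_right _ _

/-- the waiting time for the next change is bounded by its size -/
lemma walk_jump (P : ℕ) (hP : 0 < P) (hm : ∀ j t c, m (j + P * t) c = m j c + P * t)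
    (hr : ∀ j t c, r (j + P * t) c = r j c) (hpos : ∀ j c, 0 < m j c) (N : ℤ) (j : ℕ) :
    walk m r N (j + 1) ≠ walk m r N j → j + 1 ≤ 2 * P * walk m r N (j + 1) := by
  induction j using Nat.strong_induction_on with
  | _ j ih =>
  intro hne
  set c := walk m r N j with hc
  have hex : ∃ i, walk m r N i = c := ⟨j, rfl⟩
  set i := Nat.find hex with hi
  have hi1 : walk m r N i = c := Nat.find_spec hex
  have hij : i ≤ j := Nat.find_min' hex rfl
  have hic : i ≤ 2 * P * c := by
    rcases Nat.eq_zero_or_pos i with h0 | h0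
    · omega
    · obtain ⟨i', hi'⟩ := Nat.exists_eq_succ_of_ne_zero h0.ne'
      have h1 : walk m r N i' ≠ c := Nat.find_min hex (by omega)
      have h2 := ih i' (by omega)
      rw [Nat.succ_eq_add_one] at hi'
      rw [← hi', hi1] at h2
      exact h2 (Ne.symm h1)
  set G := Int.gcd (N - r j c) (m j c) with hG
  have hw : walk m r N (j + 1) = c + (G - 1) := walk_succ m r N j
  have hG2 : 2 ≤ G := by
    by_contra hcon
    apply hne
    rw [hw]
    omega
  obtain ⟨p, hp, hpG⟩ := Nat.exists_prime_and_dvd (by omega : G ≠ 1)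
  have hpG' : p ≤ G := Nat.le_of_dvd (by omega) hpG
  have hPp : 0 < P * p := Nat.mul_pos hP hp.pos
  have hlt : j < i + P * p := by
    by_contra hcon
    push Not at hcon
    set j' := j - P * p with hj'
    have hjj : j = j' + P * p := by omega
    have hwj' : walk m r N j' = c := by
      apply le_antisymm
      · exact walk_mono m r N (by omega : j' ≤ j)
      · rw [← hi1]
        exact walk_mono m r N (by omega : i ≤ j')
    have hmj : m j c = m j' c + P * p := by
      rw [hjj]
      exact hm j' p c
    have hrj : r j c = r j' c := by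
      rw [hjj]
      exact hr j' p c
    have h1 : (p : ℤ) ∣ N - r j' c := by
      rw [← hrj]
      exact (Int.natCast_dvd_natCast.mpr hpG).trans (Int.gcd_dvd_left _ _)
    have h2 : p ∣ m j' c := by
      have h3 : p ∣ m j c := by
        have h4 : (p : ℤ) ∣ (m j c : ℤ) :=
          (Int.natCast_dvd_natCast.mpr hpG).trans (Int.gcd_dvd_right _ _)
        exact_mod_cast h4
      rw [hmj] at h3
      exact (Nat.dvd_add_left (Dvd.intro_left P rfl)).mp h3
    have h3 : p ∣ Int.gcd (N - r j' c) (m j' c) :=
      Int.dvd_gcd h1 (by exact_mod_cast h2)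
    have h4 : 0 < Int.gcd (N - r j' c) (m j' c) :=
      Int.gcd_pos_of_ne_zero_right _ (by have := hpos j' c; omega)
    have h5 := Nat.le_of_dvd h4 h3
    have h6 : walk m r N (j' + 1) = c + (Int.gcd (N - r j' c) (m j' c) - 1) := by
      rw [walk_succ, hwj']
    have h7 : walk m r N (j' + 1) ≤ c := walk_mono m r N (by omega : j' + 1 ≤ j)
    have := hp.two_le
    omega
  rw [hw]
  have h1 : P * p ≤ P * G := Nat.mul_le_mul_left P hpG'
  have h2 : P * G ≤ P * (2 * (G - 1)) := Nat.mul_le_mul_left P (by omega)
  calc j + 1 ≤ i + P * p := hlt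
    _ ≤ 2 * P * c + P * (2 * (G - 1)) := by omega
    _ = 2 * P * (c + (G - 1)) := by ring

/-- the walk stops before `2 P c`, if `c` is its end -/
lemma walk_stable (P : ℕ) (hP : 0 < P) (hm : ∀ j t c, m (j + P * t) c = m j c + P * t)
    (hr : ∀ j t c, r (j + P * t) c = r j c) (hpos : ∀ j c, 0 < m j c) (N : ℤ) (T T' : ℕ)
    (hT : T ≤ T') : 2 * P * walk m r N T' ≤ T → walk m r N T = walk m r N T' := by
  induction T', hT using Nat.le_induction with
  | base => intro _; rfl
  | succ T' hT ih =>
    intro h
    by_cases he : walk m r N (T' + 1) = walk m r N T'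
    · rw [he]
      apply ih
      rw [← he]
      exact h
    · exfalso
      have h1 := walk_jump m r P hP hm hr hpos N T' he
      omega

end

/-- the number of values of an increasing function divisible by `p` -/
lemma count_strict (f : ℕ → ℕ) (hf : StrictMono f) (hf0 : ∀ n, 0 < f n) (S : Finset ℕ) (L p : ℕ)
    (hp : 0 < p) (hL : ∀ n ∈ S, f n ≤ L) : (S.filter (fun n => p ∣ f n)).card ≤ L / p := by
  calc (S.filter (fun n => p ∣ f n)).card ≤ (Icc 1 (L / p)).card := by
        apply card_le_card_of_injOn (fun n => f n / p)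
        · intro n hn
          rw [mem_coe, mem_filter] at hn
          rw [mem_coe, mem_Icc]
          refine ⟨?_, Nat.div_le_div_right (hL n hn.1)⟩
          exact Nat.div_pos (Nat.le_of_dvd (hf0 n) hn.2) hp
        · intro a ha b hb hab
          rw [mem_coe, mem_filter] at ha hb
          simp only at hab
          apply hf.injective
          rw [← Nat.div_mul_cancel ha.2, ← Nat.div_mul_cancel hb.2, hab]
    _ = L / p := by simp

end Pool.Agent.Q205.GC
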