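import Pool.Agent.Q205.GC.Par3
import Pool.Agent.Q205.GC.Jump
import Pool.Agent.Q205.GC.Gold2

/-!
# The recursion for Goldbach pairs as a walk
-/

set_option autoImplicit false

namespace Pool.Agent.Q205.GC

open Finset

/-- the moduli -/
def gm (j c : ℕ) : ℕ := if Even j then j + 2 else j + 2 + 2 * c

/-- the residues -/
def gr (j c : ℕ) : ℤ := if Even j then (c : ℤ) else -(c : ℤ)

/-- the two end numbers are `N - c` and `N + c` -/
def gs (i : Fin 2) (c : ℕ) : ℤ := if i = 0 then (c : ℤ) else -(c : ℤ)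

lemma gm_add (j t c : ℕ) : gm (j + 2 * t) c = gm j c + 2 * t := by
  unfold gm
  have h : Even (j + 2 * t) ↔ Even j := by
    rw [Nat.even_add]
    simp
  simp only [h]
  split_ifs <;> omega

lemma gr_add (j t c : ℕ) : gr (j + 2 * t) c = gr j c := by
  unfold gr
  have h : Even (j + 2 * t) ↔ Even j := by
    rw [Nat.even_add]
    simp
  simp only [h]

lemma gm_pos (j c : ℕ) : 0 < gm j c := by
  unfold gm
  split_ifs <;> omega

lemma gold_walk {a : ℕ → ℕ → ℤ} {g : ℕ → ℕ} (h : Rec a g) {N : ℕ} (hN : 3 ≤ N) (j : ℕ) :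
    j + 1 ≤ g N → a N (j + 1) = (N : ℤ) - 2 - j - walk gm gr N j := by
  induction j with
  | zero =>
    intro _
    rw [zero_add, h.one N hN]
    simp [walk]
  | succ j ih =>
    intro hj
    have h1 := ih (by omega)
    rw [h.step N hN (j + 1 + 1) (by omega), Nat.add_sub_cancel, h1, walk_succ]
    set c := walk gm gr N j with hc
    set G := Int.gcd ((N : ℤ) - gr j c) (gm j c) with hG
    have hG0 : 0 < G := Int.gcd_pos_of_ne_zero_right _ (by have := gm_pos j c; omega)
    have e : Int.gcd ((N : ℤ) - 2 - j - c) ((N : ℤ) - (-1) ^ (j + 1 + 1) * ((N : ℤ) - ((j + 1 + 1 : ℕ) : ℤ)))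
        = G := by
      rw [hG]
      unfold gr gm
      rcases Nat.even_or_odd j with he | ho
      · rw [if_pos he, if_pos he]
        have h2 : ((-1 : ℤ)) ^ (j + 1 + 1) = 1 := by
          apply Even.neg_one_pow
          rw [Nat.even_add_one, Nat.even_add_one]
          simpa using he
        rw [h2]
        have e1 : (N : ℤ) - 1 * ((N : ℤ) - ((j + 1 + 1 : ℕ) : ℤ)) = ((j + 2 : ℕ) : ℤ) := by
          push_cast
          ring
        have e2 : (N : ℤ) - 2 - j - c = ((N : ℤ) - c) + (-1) * ((j + 2 : ℕ) : ℤ) := by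
          push_cast
          ring
        rw [e1, e2, Int.gcd_add_mul_right_left]
      · have hne : ¬ Even j := Nat.not_even_iff_odd.mpr ho
        rw [if_neg hne, if_neg hne]
        have h2 : ((-1 : ℤ)) ^ (j + 1 + 1) = -1 := by
          apply Odd.neg_one_pow
          exact (ho.add_one).add_one
        rw [h2]
        have e1 : (N : ℤ) - -1 * ((N : ℤ) - ((j + 1 + 1 : ℕ) : ℤ)) =
            ((j + 2 + 2 * c : ℕ) : ℤ) + 2 * ((N : ℤ) - 2 - j - c) := by
          push_cast
          ring
        have e2 : (N : ℤ) - 2 - j - c = ((N : ℤ) - -(c : ℤ)) + (-1) * ((j + 2 + 2 * c : ℕ) : ℤ) := by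
          push_cast
          ring
        rw [e1, Int.gcd_add_mul_right_right]
        rw [e2, Int.gcd_add_mul_right_left]
    rw [e]
    push_cast [Nat.cast_sub (by omega : 1 ≤ G)]
    ring

/-- the end of the walk -/
lemma gold_end {a : ℕ → ℕ → ℤ} {g : ℕ → ℕ} (h : Rec a g) {N : ℕ} (hN : 3 ≤ N) (T : ℕ)
    (hT : 4 * (N - 1 - g N) ≤ T) (hTg : T + 1 ≤ g N) : walk gm gr N T = N - 1 - g N := by
  have hz := (h.zero N hN).1
  have hlt := h.lt hN
  have h1 := gold_walk h hN (g N - 1) (by omega)
  have e : g N - 1 + 1 = g N := by omega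
  rw [e, hz.2] at h1
  have h2 : walk gm gr N (g N - 1) = N - 1 - g N := by
    have h3 : ((g N - 1 : ℕ) : ℤ) = (g N : ℤ) - 1 := by omega
    rw [h3] at h1
    omega
  rw [walk_stable gm gr 2 (by norm_num) gm_add gr_add gm_pos N T (g N - 1) (by omega), h2]
  rw [h2]
  omega

lemma gold_args (N T K n : ℕ) (hn : n < T) (hw : walk gm gr N T ≤ K) :
    gm n (walk gm gr N n) ≤ T + 1 + 2 * K := by
  have h1 : walk gm gr N n ≤ walk gm gr N T := walk_mono gm gr N hn.le
  generalize walk gm gr N n = w at h1 ⊢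
  unfold gm
  split_ifs <;> omega

lemma gold_queries (N T K p : ℕ) (hp : 0 < p) (hw : walk gm gr N T ≤ K) :
    ((range T).filter (fun n => p ∣ gm n (walk gm gr N n))).card ≤ 2 * ((T + 1 + 2 * K) / p) := by
  have h1 : (range T).filter (fun n => p ∣ gm n (walk gm gr N n)) ⊆
      (range T).filter (fun n => p ∣ n + 2) ∪
      (range T).filter (fun n => p ∣ n + 2 + 2 * walk gm gr N n) := by
    intro n hn
    rw [mem_filter] at hn
    rw [mem_union, mem_filter, mem_filter]
    unfold gm at hn
    by_cases he : Even n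
    · rw [if_pos he] at hn
      exact Or.inl hn
    · rw [if_neg he] at hn
      exact Or.inr hn
  refine (card_le_card h1).trans ((card_union_le _ _).trans ?_)
  rw [two_mul]
  apply Nat.add_le_add
  · apply count_strict (fun n => n + 2) (fun a b hab => by simpa using hab) (fun n => by omega) _ _ _ hp
    intro n hn
    rw [mem_range] at hn
    omega
  · apply count_strict (fun n => n + 2 + 2 * walk gm gr N n) _ (fun n => by omega) _ _ _ hp
    · intro n hn
      rw [mem_range] at hn
      have h1 : walk gm gr N n ≤ walk gm gr N T := walk_mono gm gr N hn.le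
      omega
    · intro a b hab
      have h1 : walk gm gr N a ≤ walk gm gr N b := walk_mono gm gr N hab.le
      simp only
      omega

end Pool.Agent.Q205.GC
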