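import Pool.Agent.Q205.GC.Walk4
import Pool.Agent.Q205.GC.Gold
import Pool.Agent.Helper112.Lp.MertensLog
import Pool.Agent.Y843.HG.VGold

/-!
# Walks given by gcds: the choice of the parameters
-/

set_option autoImplicit false

namespace Pool.Agent.Q205.GC

open Finset

/-- the modulus: all prime powers up to `L` of the primes up to `y` -/
def modu (L y : ℕ) : ℕ := ∏ p ∈ (Ioc 0 y).filter Nat.Prime, p ^ Nat.log p L

lemma modu_pos (L y : ℕ) : 0 < modu L y := by
  apply prod_pos
  intro p hp
  exact pow_pos (mem_filter.mp hp).2.pos _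

lemma modu_dvd (L y q k : ℕ) (hq : q.Prime) (hqy : q ≤ y) (hk : q ^ k ≤ L) : q ^ k ∣ modu L y := by
  have hL : L ≠ 0 := by
    have := pow_pos hq.pos k
    omega
  have h1 : k ≤ Nat.log q L := Nat.le_log_of_pow_le hq.one_lt hk
  refine (pow_dvd_pow q h1).trans ?_
  unfold modu
  exact dvd_prod_of_mem (fun p => p ^ Nat.log p L) (mem_filter.mpr ⟨mem_Ioc.mpr ⟨hq.pos, hqy⟩, hq⟩)

lemma modu_coprime (L y q : ℕ) (hq : q.Prime) (hqy : y < q) : Nat.Coprime q (modu L y) := by
  unfold modu
  apply Nat.Coprime.prod_right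
  intro p hp
  rw [mem_filter, mem_Ioc] at hp
  apply Nat.Coprime.pow_right
  rw [Nat.coprime_primes hq hp.2]
  omega

/-- the modulus is small -/
lemma modu_le : ∃ C : ℝ, 1 ≤ C ∧ ∀ L y : ℕ, 4 ≤ L → L < (y + 1) ^ 2 →
    Real.log (modu L y) ≤ C * y := by
  obtain ⟨C0, hC0, hpr⟩ := primes_count
  refine ⟨4 * C0 + 2, by linarith, ?_⟩
  intro L y hL hy
  set s := Nat.sqrt L with hs
  have hs2 : 2 ≤ s := by
    rw [hs, Nat.le_sqrt]
    omega
  have hsy : s ≤ y := by
    have h1 : s * s ≤ L := Nat.sqrt_le L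
    by_contra hcon
    push Not at hcon
    have h2 : (y + 1) * (y + 1) ≤ s * s := Nat.mul_le_mul hcon hcon
    nlinarith
  have hLs : L < (s + 1) ^ 2 := Nat.lt_succ_sqrt' L
  have hs2r : (2 : ℝ) ≤ s := by exact_mod_cast hs2
  have hL0 : (0 : ℝ) < L := by exact_mod_cast (by omega : 0 < L)
  have hls : 0 < Real.log s := Real.log_pos (by linarith)
  have hlogL0 : 0 ≤ Real.log L := Real.log_nonneg (by exact_mod_cast (by omega : 1 ≤ L))
  have hlogL : Real.log L ≤ 4 * Real.log s := by
    have h1 : L ≤ s ^ 4 := by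
      have h2 : (s + 1) ≤ s ^ 2 := by nlinarith
      calc L ≤ (s + 1) ^ 2 := hLs.le
        _ ≤ (s ^ 2) ^ 2 := Nat.pow_le_pow_left h2 2
        _ = s ^ 4 := by ring
    have h3 : (L : ℝ) ≤ (s : ℝ) ^ 4 := by exact_mod_cast h1
    have h4 := Real.log_le_log hL0 h3
    rw [Real.log_pow] at h4
    exact_mod_cast h4
  have hlog : Real.log (modu L y) = ∑ p ∈ (Ioc 0 y).filter Nat.Prime, (Nat.log p L : ℝ) * Real.log p := by
    unfold modu
    push_cast
    rw [Real.log_prod]
    · apply sum_congr rfl
      intro p _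
      rw [Real.log_pow]
    · intro p hp
      have := (mem_filter.mp hp).2.pos
      positivity
  have hterm : ∀ p ∈ (Ioc 0 y).filter Nat.Prime, (Nat.log p L : ℝ) * Real.log p ≤
      (if p ≤ s then Real.log L else 0) + Real.log p := by
    intro p hp
    rw [mem_filter, mem_Ioc] at hp
    have hp1 : (1 : ℝ) < p := by exact_mod_cast hp.2.one_lt
    have hlp := Real.log_pos hp1
    by_cases h : p ≤ s
    · rw [if_pos h]
      have h1 : p ^ Nat.log p L ≤ L := Nat.pow_log_le_self p (by omega)
      have h2 : ((p : ℝ)) ^ Nat.log p L ≤ L := by exact_mod_cast h1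
      have h3 := Real.log_le_log (by positivity) h2
      rw [Real.log_pow] at h3
      linarith
    · rw [if_neg h]
      push Not at h
      have h1 : Nat.log p L < 2 := by
        apply Nat.log_lt_of_lt_pow (by omega)
        exact lt_of_lt_of_le hLs (Nat.pow_le_pow_left h 2)
      have h2 : (Nat.log p L : ℝ) ≤ 1 := by exact_mod_cast (by omega : Nat.log p L ≤ 1)
      nlinarith
  have hprim : ∑ p ∈ (Ioc 0 y).filter Nat.Prime, Real.log p ≤ 2 * y := by
    have h1 : ∑ p ∈ (Ioc 0 y).filter Nat.Prime, Real.log p = Real.log (primorial y) := by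
      unfold primorial
      push_cast
      rw [Real.log_prod]
      · apply sum_congr _ fun _ _ => rfl
        ext p
        rw [mem_filter, mem_filter, mem_Ioc, mem_range]
        constructor
        · rintro ⟨h1, h2⟩
          exact ⟨by omega, h2⟩
        · rintro ⟨h1, h2⟩
          exact ⟨⟨h2.pos, by omega⟩, h2⟩
      · intro p hp
        have := (mem_filter.mp hp).2.pos
        positivity
    have h2 : (primorial y : ℝ) ≤ 4 ^ y := by exact_mod_cast primorial_le_four_pow y
    have h3 := Real.log_le_log (by exact_mod_cast primorial_pos y) h2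
    rw [Real.log_pow] at h3
    have h4 : Real.log 4 ≤ 2 := by
      have e : (4 : ℝ) = 2 ^ 2 := by norm_num
      rw [e, Real.log_pow]
      have := Real.log_two_lt_d9
      push_cast
      linarith
    rw [h1]
    have : (0 : ℝ) ≤ y := Nat.cast_nonneg _
    nlinarith
  have hcnt : ((((Ioc 0 y).filter Nat.Prime).filter (fun p => p ≤ s)).card : ℝ) ≤ C0 * (s / Real.log s) := by
    refine le_trans ?_ (hpr 0 s hs2)
    have : (((Ioc 0 y).filter Nat.Prime).filter (fun p => p ≤ s)).card ≤
        ((Ioc 0 (0 + s)).filter Nat.Prime).card := by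
      apply card_le_card
      intro p hp
      rw [mem_filter, mem_filter, mem_Ioc] at hp
      rw [mem_filter, mem_Ioc]
      exact ⟨⟨hp.1.1.1, by omega⟩, hp.1.2⟩
    exact_mod_cast this
  calc Real.log (modu L y) ≤ ∑ p ∈ (Ioc 0 y).filter Nat.Prime, ((if p ≤ s then Real.log L else 0) + Real.log p) := by
        rw [hlog]
        exact sum_le_sum hterm
    _ = (((Ioc 0 y).filter Nat.Prime).filter (fun p => p ≤ s)).card * Real.log L +
        ∑ p ∈ (Ioc 0 y).filter Nat.Prime, Real.log p := by
        rw [sum_add_distrib, ← sum_filter, sum_const, nsmul_eq_mul]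
    _ ≤ C0 * (s / Real.log s) * (4 * Real.log s) + 2 * y := by
        apply add_le_add _ hprim
        apply mul_le_mul hcnt hlogL hlogL0 (by positivity)
    _ = 4 * C0 * s + 2 * y := by field_simp
    _ ≤ (4 * C0 + 2) * y := by
        have h1 : (s : ℝ) ≤ y := by exact_mod_cast hsy
        nlinarith

end Pool.Agent.Q205.GC
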