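import Pool.Agent.Q205.GC.Par

/-!
# Walks given by gcds: the sums over primes
-/

set_option autoImplicit false

namespace Pool.Agent.Q205.GC

open Finset

/-- `x ^ ε - 1 ≤ 2 ε log x` -/
lemma rpow_sub_one_le {ε x : ℝ} (hε : 0 < ε) (hx : 1 ≤ x) (h : ε * Real.log x ≤ 1) :
    x ^ ε - 1 ≤ 2 * ε * Real.log x := by
  have hl := Real.log_nonneg hx
  have h0 : 0 ≤ ε * Real.log x := by positivity
  rw [Real.rpow_def_of_pos (by linarith), mul_comm]
  have h1 := Real.abs_exp_sub_one_le (x := ε * Real.log x) (by rw [abs_of_nonneg h0]; exact h)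
  rw [abs_of_nonneg h0] at h1
  linarith [le_abs_self (Real.exp (ε * Real.log x) - 1)]

lemma rpow_sub_one_nonneg {ε x : ℝ} (hε : 0 < ε) (hx : 1 ≤ x) : 0 ≤ x ^ ε - 1 := by
  have := Real.one_le_rpow hx hε.le
  linarith

/-- the sum over the primes `p > y` of `log p / p²` -/
lemma sum_mid {y L : ℕ} (hy : 1 ≤ y) (hyL : y ≤ L) :
    ∑ p ∈ PR y L, Real.log p / (p : ℝ) ^ 2 ≤ Real.log L / y := by
  have hL0 : 0 ≤ Real.log L := Real.log_natCast_nonneg L
  calc ∑ p ∈ PR y L, Real.log p / (p : ℝ) ^ 2 ≤ ∑ p ∈ PR y L, Real.log L * ((p : ℝ) ^ 2)⁻¹ := by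
        apply sum_le_sum
        intro p hp
        obtain ⟨h1, h2, h3⟩ := mem_PR.mp hp
        have hp0 : (0 : ℝ) < p := by exact_mod_cast h1.pos
        rw [div_eq_mul_inv]
        apply mul_le_mul_of_nonneg_right _ (by positivity)
        exact Real.log_le_log hp0 (by exact_mod_cast h3)
    _ = Real.log L * ∑ p ∈ PR y L, ((p : ℝ) ^ 2)⁻¹ := by rw [mul_sum]
    _ ≤ Real.log L * ∑ p ∈ Ioc y L, ((p : ℝ) ^ 2)⁻¹ := by
        apply mul_le_mul_of_nonneg_left _ hL0
        apply sum_le_sum_of_subset_of_nonneg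
        · unfold PR
          exact filter_subset _ _
        · intro p _ _
          positivity
    _ ≤ Real.log L * ((y : ℝ)⁻¹ - (L : ℝ)⁻¹) := by
        apply mul_le_mul_of_nonneg_left _ hL0
        exact sum_Ioc_inv_sq_le_sub (by omega) hyL
    _ ≤ Real.log L / y := by
        rw [div_eq_mul_inv]
        apply mul_le_mul_of_nonneg_left _ hL0
        have : (0 : ℝ) ≤ (L : ℝ)⁻¹ := by positivity
        linarith

/-- the sum over the primes of `log p / p` -/
lemma sum_top : ∃ C : ℝ, 0 ≤ C ∧ ∀ a b : ℕ, 1 ≤ b →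
    ∑ p ∈ PR a b, Real.log p / (p : ℝ) ≤ Real.log b + C := by
  obtain ⟨C, hC⟩ := Pool.Agent.Helper112.LP.KML.mertens_log
  refine ⟨|C|, abs_nonneg _, fun a b hb => ?_⟩
  have h1 := hC b hb
  have h2 := (abs_le.mp h1).2
  have h3 : ∑ p ∈ PR a b, Real.log p / (p : ℝ) ≤
      ∑ p ∈ (Finset.Icc 1 b).filter Nat.Prime, Real.log p / p := by
    apply sum_le_sum_of_subset_of_nonneg
    · intro p hp
      obtain ⟨h1, h2, h3⟩ := mem_PR.mp hp
      rw [mem_filter, mem_Icc]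
      exact ⟨⟨h1.one_lt.le, h3⟩, h1⟩
    · intro p hp _
      have := Real.log_natCast_nonneg p
      positivity
  linarith [le_abs_self C]

/-- the product over the primes of `(L, Z]` -/
lemma prod_top (κ : ℕ) : ∃ C : ℝ, 0 < C ∧ ∀ L Z : ℕ, 2 ≤ L → L ≤ Z → κ ≤ L →
    ∏ p ∈ PR L Z, (1 - (κ : ℝ) / p) ≤ C * (Real.log L / Real.log Z) ^ κ := by
  obtain ⟨c, C, hc, hC, h⟩ := Pool.Agent.Y843.HG.V1_bounds
  refine ⟨(C / c) ^ κ, by positivity, fun L Z hL hLZ hκ => ?_⟩
  obtain ⟨h1, -⟩ := h L hL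
  obtain ⟨-, h2⟩ := h Z (hL.trans hLZ)
  have hlL : 0 < Real.log L := Real.log_pos (by exact_mod_cast (by omega : 1 < L))
  have hlZ : 0 < Real.log Z := Real.log_pos (by exact_mod_cast (by omega : 1 < Z))
  have hsplit : Pool.Agent.Y843.HG.V1 Z = Pool.Agent.Y843.HG.V1 L * ∏ p ∈ PR L Z, (1 - 1 / (p : ℝ)) := by
    unfold Pool.Agent.Y843.HG.V1 PR Pool.Agent.Y843.HS.Pr
    rw [← prod_union]
    · apply prod_congr _ fun _ _ => rfl
      ext p
      simp only [mem_union, mem_filter, mem_Ioc]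
      constructor
      · rintro ⟨⟨h1, h2⟩, h3⟩
        rcases Nat.lt_or_ge L p with h4 | h4
        · exact Or.inr ⟨⟨h4, h2⟩, h3⟩
        · exact Or.inl ⟨⟨h1, h4⟩, h3⟩
      · rintro (⟨⟨h1, h2⟩, h3⟩ | ⟨⟨h1, h2⟩, h3⟩)
        · exact ⟨⟨h1, by omega⟩, h3⟩
        · exact ⟨⟨by omega, h2⟩, h3⟩
    · rw [disjoint_left]
      intro p hp hp'
      rw [mem_filter, mem_Ioc] at hp hp'
      omega
  have hV := Pool.Agent.Y843.HG.V1_pos L
  have hprod : ∏ p ∈ PR L Z, (1 - 1 / (p : ℝ)) ≤ C / c * (Real.log L / Real.log Z) := by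
    have h3 : Pool.Agent.Y843.HG.V1 L * ∏ p ∈ PR L Z, (1 - 1 / (p : ℝ)) ≤ C / Real.log Z := by
      rw [← hsplit]; exact h2
    have h0 : 0 ≤ ∏ p ∈ PR L Z, (1 - 1 / (p : ℝ)) := by
      apply prod_nonneg
      intro p hp
      have := (Pool.Agent.Y843.HG.fac1 (mem_PR.mp hp).1).1
      linarith
    have h4 : c / Real.log L * ∏ p ∈ PR L Z, (1 - 1 / (p : ℝ)) ≤ C / Real.log Z :=
      (mul_le_mul_of_nonneg_right h1 h0).trans h3
    have h5 : C / c * (Real.log L / Real.log Z) = (C / Real.log Z) / (c / Real.log L) := by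
      field_simp
    rw [h5, le_div_iff₀ (by positivity), mul_comm]
    exact h4
  calc ∏ p ∈ PR L Z, (1 - (κ : ℝ) / p) ≤ ∏ p ∈ PR L Z, (1 - 1 / (p : ℝ)) ^ κ := by
        apply prod_le_prod
        · intro p hp
          obtain ⟨h1, h2, h3⟩ := mem_PR.mp hp
          have hp0 : (0 : ℝ) < p := by exact_mod_cast h1.pos
          have : (κ : ℝ) / p ≤ 1 := by
            rw [div_le_one hp0]
            exact_mod_cast hκ.trans h2.le
          linarith
        · intro p hp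
          obtain ⟨h1, h2, h3⟩ := mem_PR.mp hp
          have hp0 : (0 : ℝ) < p := by exact_mod_cast h1.pos
          have hp1 : (1 : ℝ) / p ≤ 1 := by
            rw [div_le_one hp0]
            exact_mod_cast h1.one_lt.le
          have h4 := one_add_mul_le_pow (a := -(1 / (p : ℝ))) (by linarith) κ
          have e1 : 1 + (κ : ℝ) * -(1 / (p : ℝ)) = 1 - κ / p := by ring
          have e2 : 1 + -(1 / (p : ℝ)) = 1 - 1 / (p : ℝ) := by ring
          rw [e1, e2] at h4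
          exact h4
    _ = (∏ p ∈ PR L Z, (1 - 1 / (p : ℝ))) ^ κ := by rw [prod_pow]
    _ ≤ (C / c * (Real.log L / Real.log Z)) ^ κ := by
        apply pow_le_pow_left₀ _ hprod
        apply prod_nonneg
        intro p hp
        have := (Pool.Agent.Y843.HG.fac1 (mem_PR.mp hp).1).1
        linarith
    _ = _ := by rw [mul_pow]

end Pool.Agent.Q205.GC
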