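import Pool.Agent.Q205.GC.Par2

/-!
# Walks given by gcds: the number of integers whose walk ends with primes
-/

set_option autoImplicit false

namespace Pool.Agent.Q205.GC

open Finset

lemma large_facts (δ : ℝ) (hδ : 0 < δ) : ∃ X0 : ℕ, ∀ X : ℕ, X0 ≤ X →
    8 ≤ Real.log X ∧ 1 / δ ≤ Real.log X ∧ (4 / δ) ^ 2 + 2 ≤ (X : ℝ) ^ (δ / 2) := by
  have h1 : ∀ᶠ x : ℝ in Filter.atTop, max 8 (1 / δ) ≤ Real.log x :=
    Real.tendsto_log_atTop.eventually_ge_atTop _
  have h2 : ∀ᶠ x : ℝ in Filter.atTop, (4 / δ) ^ 2 + 2 ≤ x ^ (δ / 2) :=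
    (tendsto_rpow_atTop (by positivity)).eventually_ge_atTop _
  obtain ⟨x0, hx0⟩ := Filter.eventually_atTop.mp (h1.and h2)
  refine ⟨⌈x0⌉₊, fun X hX => ?_⟩
  obtain ⟨h3, h4⟩ := hx0 X ((Nat.le_ceil x0).trans (by exact_mod_cast hX))
  exact ⟨(le_max_left _ _).trans h3, (le_max_right _ _).trans h3, h4⟩

open Classical in
/-- **The number of integers whose walk ends with integers without small prime factors.** -/
theorem walk_final (κ : ℕ) (a : ℝ) (ha : 0 ≤ a) : ∃ c C : ℝ, ∃ X0 : ℕ, 0 < c ∧ 0 < C ∧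
    ∀ (m : ℕ → ℕ → ℕ) (r : ℕ → ℕ → ℤ) (σ : Fin κ → ℕ → ℤ) (T L K A X : ℕ), X0 ≤ X → 4 ≤ L →
    κ ≤ L → K ≤ L → (L : ℝ) * Real.log L ≤ c * Real.log X ^ 2 → ∀ B : Finset ℕ,
    (∀ N ∈ B, A < N ∧ N ≤ A + X) →
    (∀ N ∈ B, ∀ n < T, 0 < m n (walk m r N n) ∧ m n (walk m r N n) ≤ L) →
    (∀ N ∈ B, walk m r N T ≤ K) →
    (∀ N ∈ B, ∀ p : ℕ, p.Prime → p ^ 2 ≤ X → ∀ i, ¬ (p : ℤ) ∣ (N : ℤ) - σ i (walk m r N T)) →
    (∀ N ∈ B, ∀ p : ℕ, p.Prime → L < p → ∀ i j, i ≠ j →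
      ¬ (p : ℤ) ∣ σ i (walk m r N T) - σ j (walk m r N T)) →
    (∀ N ∈ B, ∀ p : ℕ, p.Prime → p ≤ L →
      ((((range T).filter (fun n => p ∣ m n (walk m r N n))).card + κ : ℕ) : ℝ) ≤ a * L / p) →
    (B.card : ℝ) ≤ C * (X * (Real.log L / Real.log X) ^ κ) := by
  obtain ⟨C2, hC2, htop⟩ := sum_top
  obtain ⟨C3, hC3, hmod⟩ := modu_le
  obtain ⟨C4, hC4, hprod⟩ := prod_top κ
  set D : ℝ := 2 * κ * (1 + C2) + 1 with hD
  have hD1 : 1 ≤ D := by
    have : 0 ≤ 2 * (κ : ℝ) * (1 + C2) := by positivity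
    linarith
  set δ : ℝ := 1 / (8 * D) with hδ
  have hδ0 : 0 < δ := by positivity
  have hδD : 1 / (8 * δ) = D := by rw [hδ]; field_simp
  have hδ8 : δ ≤ 1 / 8 := by
    rw [hδ]
    apply one_div_le_one_div_of_le (by norm_num)
    linarith
  set s : ℝ := min (1 / (16 * (1 + a))) (1 / (8 * C3)) with hs
  have hs0 : 0 < s := by positivity
  have hs1 : 2 * (1 + a) * s ≤ 1 / 8 := by
    have h1 : s ≤ 1 / (16 * (1 + a)) := min_le_left _ _
    have h2 : 2 * (1 + a) * s ≤ 2 * (1 + a) * (1 / (16 * (1 + a))) := by gcongr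
    have h3 : 2 * (1 + a) * (1 / (16 * (1 + a))) = 1 / 8 := by field_simp; norm_num
    linarith
  have hs2 : 2 * C3 * s ≤ 1 / 4 := by
    have h1 : s ≤ 1 / (8 * C3) := min_le_right _ _
    have h2 : 2 * C3 * s ≤ 2 * C3 * (1 / (8 * C3)) := by gcongr
    have h3 : 2 * C3 * (1 / (8 * C3)) = 1 / 4 := by field_simp; norm_num
    linarith
  have hs3 : s ≤ 1 := by nlinarith
  obtain ⟨X0, hX0⟩ := large_facts δ hδ0
  refine ⟨s ^ 2, 72 * (C4 * (2 / δ) ^ κ), X0, by positivity, by positivity, ?_⟩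
  intro m r σ T L K A X hX hL4 hκL hKL hLc B hB harg hfin hσ hdist hqc
  obtain ⟨hx8, hxδ, hW⟩ := hX0 X hX
  set x := Real.log X with hx
  have hx0 : 0 < x := by linarith
  have hXpos : 0 < X := by
    rcases Nat.eq_zero_or_pos X with h | h
    · exfalso
      rw [hx, h] at hx0
      simp at hx0
    · exact h
  have hXr : (0 : ℝ) < X := by exact_mod_cast hXpos
  have hXe : (X : ℝ) = Real.exp x := (Real.exp_log hXr).symm
  set W : ℝ := (X : ℝ) ^ (δ / 2) with hWd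
  have hW2 : 2 ≤ W := by nlinarith [sq_nonneg (4 / δ)]
  have hXδ : (X : ℝ) ^ δ = W * W := by
    rw [hWd, ← Real.rpow_add hXr]
    congr 1
    ring
  have hlogsq : x ^ 2 + 1 ≤ (X : ℝ) ^ δ := by
    have h1 : x ≤ (X : ℝ) ^ (δ / 4) / (δ / 4) := Real.log_le_rpow_div hXr.le (by positivity)
    have h2 : x ^ 2 ≤ ((X : ℝ) ^ (δ / 4) / (δ / 4)) ^ 2 := by gcongr
    have h3 : ((X : ℝ) ^ (δ / 4) / (δ / 4)) ^ 2 = (4 / δ) ^ 2 * W := by
      have e : (X : ℝ) ^ (δ / 4) * (X : ℝ) ^ (δ / 4) = W := by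
        rw [hWd, ← Real.rpow_add hXr]
        congr 1
        ring
      rw [← e]
      field_simp
    rw [h3] at h2
    rw [hXδ]
    nlinarith
  set Z0 : ℕ := ⌊(X : ℝ) ^ δ⌋₊ with hZ0
  have hZle : (Z0 : ℝ) ≤ (X : ℝ) ^ δ := Nat.floor_le (by positivity)
  have hZge : W ≤ Z0 := by
    have h1 : (X : ℝ) ^ δ < Z0 + 1 := Nat.lt_floor_add_one _
    rw [hXδ] at h1
    nlinarith
  have hZ0pos : (0 : ℝ) < Z0 := by linarith
  have hlogZ : Real.log Z0 ≤ δ * x := by
    have h1 := Real.log_le_log hZ0pos hZle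
    rwa [Real.log_rpow hXr] at h1
  have hlogZ2 : δ / 2 * x ≤ Real.log Z0 := by
    have h1 := Real.log_le_log (by linarith) hZge
    rwa [hWd, Real.log_rpow hXr] at h1
  set ε : ℝ := 1 / (δ * x) with hε
  have hε0 : 0 < ε := by positivity
  have hεδ : ε * (δ * x) = 1 := by rw [hε]; field_simp
  have hε1 : ε ≤ 1 := by
    have h1 : 1 ≤ δ * x := by
      rw [div_le_iff₀ hδ0] at hxδ
      linarith
    rw [hε]
    rw [div_le_one (by positivity)]
    exact h1
  have hεx : ε * x = 1 / δ := by rw [hε]; field_simp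
  -- the logarithm of `L`
  have hLr : (4 : ℝ) ≤ L := by exact_mod_cast hL4
  set ll := Real.log L with hll
  have hll1 : 1 ≤ ll := by
    have h1 : Real.log 4 ≤ ll := Real.log_le_log (by norm_num) hLr
    have e : (4 : ℝ) = 2 ^ 2 := by norm_num
    rw [e, Real.log_pow] at h1
    have := Real.log_two_gt_d9
    push_cast at h1
    linarith
  have hllL : ll ≤ L := (Real.log_le_sub_one_of_pos (by linarith)).trans (by linarith)
  set R := √(L * ll) with hR
  have hR2 : R ^ 2 = L * ll := Real.sq_sqrt (by positivity)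
  have hR0 : 0 ≤ R := Real.sqrt_nonneg _
  have hR1 : 1 ≤ R := by nlinarith
  have hRs : R ≤ s * x := by
    apply le_of_sq_le_sq _ (by positivity)
    rw [hR2, mul_pow]
    exact hLc
  set y : ℕ := ⌈R⌉₊ with hy
  have hyR : R ≤ y := Nat.le_ceil R
  have hyR2 : (y : ℝ) < R + 1 := Nat.ceil_lt_add_one hR0
  have hy0r : (0 : ℝ) < y := by linarith
  have hy1 : 1 ≤ y := by exact_mod_cast hy0r
  have hyL : y ≤ L := by
    rw [hy, Nat.ceil_le]
    apply le_of_sq_le_sq _ (by linarith)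
    rw [hR2]
    nlinarith
  have hyLt : L < (y + 1) ^ 2 := by
    have h1 : (L : ℝ) < ((y : ℝ) + 1) ^ 2 := by nlinarith
    exact_mod_cast h1
  have hLZ : L ≤ Z0 := by
    rw [hZ0]
    apply Nat.le_floor
    have h1 : (L : ℝ) ≤ L * ll := by nlinarith
    have h2 : s ^ 2 * x ^ 2 ≤ x ^ 2 := by
      have : s ^ 2 ≤ 1 := by nlinarith
      nlinarith [sq_nonneg x]
    linarith
  have hLZr : (L : ℝ) ≤ Z0 := by exact_mod_cast hLZ
  -- the modulus
  set M := modu L y with hM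
  have hMpos : 0 < M := modu_pos L y
  have hMr : (0 : ℝ) < M := by exact_mod_cast hMpos
  have hlogM : Real.log M ≤ x / 4 := by
    have h1 := hmod L y hL4 hyLt
    have h2 : C3 * (y : ℝ) ≤ C3 * (2 * R) := by
      apply mul_le_mul_of_nonneg_left _ (by linarith)
      linarith
    have h3 : C3 * (2 * R) ≤ 2 * C3 * (s * x) := by nlinarith
    have h4 : 2 * C3 * (s * x) ≤ 1 / 4 * x := by nlinarith
    linarith
  have hMe : (M : ℝ) ≤ Real.exp (x / 4) := by
    rw [← Real.exp_log hMr]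
    exact Real.exp_le_exp.mpr hlogM
  have hMX : M ≤ X := by
    have : (M : ℝ) ≤ X := by
      rw [hXe]
      exact hMe.trans (Real.exp_le_exp.mpr (by linarith))
    exact_mod_cast this
  set Q := Nat.sqrt (X / M) with hQ
  have hXM : 1 ≤ X / M := Nat.div_pos hMX hMpos
  have hQ1 : 1 ≤ Q := by
    rw [hQ, Nat.le_sqrt]
    omega
  have hQX : Q ^ 2 ≤ X / M + 2 := by
    have h1 : Q ^ 2 ≤ X / M := Nat.sqrt_le' (X / M)
    exact h1.trans (Nat.le_add_right _ _)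
  have hQr : (1 : ℝ) ≤ Q := by exact_mod_cast hQ1
  have hlogQ : x / 4 ≤ Real.log Q := by
    have h1 : X / M < (Q + 1) ^ 2 := Nat.lt_succ_sqrt' _
    have h2 : X < (Q + 1) ^ 2 * M := by
      rwa [Nat.div_lt_iff_lt_mul hMpos] at h1
    have h3 : (X : ℝ) < ((Q : ℝ) + 1) ^ 2 * M := by exact_mod_cast h2
    have h4 : Real.exp x ≤ (2 * (Q : ℝ)) ^ 2 * Real.exp (x / 4) := by
      rw [← hXe]
      refine h3.le.trans ?_
      apply mul_le_mul _ hMe hMr.le (by positivity)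
      apply pow_le_pow_left₀ (by linarith)
      linarith
    have h5 := Real.log_le_log (Real.exp_pos x) h4
    rw [Real.log_exp, Real.log_mul (by positivity) (Real.exp_pos _).ne', Real.log_exp, Real.log_pow,
      Real.log_mul (by norm_num) (by positivity)] at h5
    have h6 := Real.log_two_lt_d9
    push_cast at h5
    linarith
  -- the small powers
  have hpow : ∀ p : ℕ, 1 ≤ p → p ≤ Z0 → 0 ≤ (p : ℝ) ^ ε - 1 ∧ (p : ℝ) ^ ε - 1 ≤ 2 * ε * Real.log p := by
    intro p hp1 hpZ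
    have h1 : (1 : ℝ) ≤ p := by exact_mod_cast hp1
    refine ⟨rpow_sub_one_nonneg hε0 h1, rpow_sub_one_le hε0 h1 ?_⟩
    have h2 : Real.log p ≤ δ * x :=
      (Real.log_le_log (by linarith) (by exact_mod_cast hpZ)).trans hlogZ
    calc ε * Real.log p ≤ ε * (δ * x) := by gcongr
      _ = 1 := hεδ
  have hRy : R ^ 2 / y ≤ s * x := by
    rw [div_le_iff₀ hy0r]
    nlinarith
  have hc1 : ((K : ℝ) / y) * ((L : ℝ) ^ ε - 1) ≤ 2 * (s / δ) := by
    obtain ⟨h1, h2⟩ := hpow L (by omega) hLZ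
    have h3 : (K : ℝ) / y ≤ L / y := by
      have : (K : ℝ) ≤ L := by exact_mod_cast hKL
      gcongr
    calc ((K : ℝ) / y) * ((L : ℝ) ^ ε - 1) ≤ (L / y) * (2 * ε * ll) := by
          apply mul_le_mul h3 h2 h1 (by positivity)
      _ = 2 * ε * (R ^ 2 / y) := by rw [hR2]; ring
      _ ≤ 2 * ε * (s * x) := by gcongr
      _ = 2 * s * (ε * x) := by ring
      _ = 2 * (s / δ) := by rw [hεx]; ring
  have hc2 : ∑ p ∈ PR y L, ((p : ℝ) ^ ε - 1) * (a * L / p / p) ≤ 2 * a * (s / δ) := by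
    calc ∑ p ∈ PR y L, ((p : ℝ) ^ ε - 1) * (a * L / p / p)
        ≤ ∑ p ∈ PR y L, 2 * ε * a * L * (Real.log p / (p : ℝ) ^ 2) := by
          apply sum_le_sum
          intro p hp
          obtain ⟨h1, h2, h3⟩ := mem_PR.mp hp
          obtain ⟨h4, h5⟩ := hpow p h1.one_lt.le (h3.trans hLZ)
          have hp0 : (0 : ℝ) < p := by exact_mod_cast h1.pos
          calc ((p : ℝ) ^ ε - 1) * (a * L / p / p) ≤ (2 * ε * Real.log p) * (a * L / p / p) := by
                apply mul_le_mul_of_nonneg_right h5 (by positivity)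
            _ = _ := by field_simp
      _ = 2 * ε * a * L * ∑ p ∈ PR y L, Real.log p / (p : ℝ) ^ 2 := by rw [mul_sum]
      _ ≤ 2 * ε * a * L * (ll / y) := by
          apply mul_le_mul_of_nonneg_left (sum_mid hy1 hyL) (by positivity)
      _ = 2 * ε * a * (R ^ 2 / y) := by rw [hR2]; ring
      _ ≤ 2 * ε * a * (s * x) := by gcongr
      _ = 2 * a * s * (ε * x) := by ring
      _ = 2 * a * (s / δ) := by rw [hεx]; ring
  have hc3 : ∑ p ∈ PR L Z0, ((p : ℝ) ^ ε - 1) * (κ / p) ≤ 2 * κ * (1 + C2) := by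
    calc ∑ p ∈ PR L Z0, ((p : ℝ) ^ ε - 1) * (κ / p)
        ≤ ∑ p ∈ PR L Z0, 2 * ε * κ * (Real.log p / (p : ℝ)) := by
          apply sum_le_sum
          intro p hp
          obtain ⟨h1, h2, h3⟩ := mem_PR.mp hp
          obtain ⟨h4, h5⟩ := hpow p h1.one_lt.le h3
          have hp0 : (0 : ℝ) < p := by exact_mod_cast h1.pos
          calc ((p : ℝ) ^ ε - 1) * (κ / p) ≤ (2 * ε * Real.log p) * (κ / p) := by
                apply mul_le_mul_of_nonneg_right h5 (by positivity)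
            _ = _ := by ring
      _ = 2 * ε * κ * ∑ p ∈ PR L Z0, Real.log p / (p : ℝ) := by rw [mul_sum]
      _ ≤ 2 * ε * κ * (Real.log Z0 + C2) := by
          apply mul_le_mul_of_nonneg_left (htop L Z0 (by omega)) (by positivity)
      _ ≤ 2 * ε * κ * (δ * x + C2) := by gcongr
      _ = 2 * κ * (ε * (δ * x) + ε * C2) := by ring
      _ ≤ 2 * κ * (1 + C2) := by
          rw [hεδ]
          apply mul_le_mul_of_nonneg_left _ (by positivity)
          nlinarith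
  have hc : ((K : ℝ) / y) * ((L : ℝ) ^ ε - 1) + ∑ p ∈ PR y L, ((p : ℝ) ^ ε - 1) * (a * L / p / p) +
      ∑ p ∈ PR L Z0, ((p : ℝ) ^ ε - 1) * (κ / p) ≤ ε * Real.log Q - Real.log 2 := by
    have h1 : 2 * (s / δ) + 2 * a * (s / δ) ≤ D := by
      have e : 2 * (s / δ) + 2 * a * (s / δ) = 2 * (1 + a) * s / δ := by ring
      rw [e, ← hδD]
      have e2 : 1 / (8 * δ) = (1 / 8) / δ := by field_simp
      rw [e2]
      gcongr
    have h2 : ε * (x / 4) ≤ ε * Real.log Q := by gcongr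
    have h3 : ε * (x / 4) = 2 * D := by
      have e : ε * (x / 4) = ε * x / 4 := by ring
      rw [e, hεx, ← hδD]
      field_simp
      norm_num
    have h4 := Real.log_two_lt_d9
    have h5 : D = 2 * κ * (1 + C2) + 1 := hD
    linarith
  have hmain := walk_count m r σ T L y M K A X Q Z0 ε hε0 (fun p => a * L / p) hy1 hyL hyLt hMpos
    (fun q k hq hqy hk => modu_dvd L y q k hq hqy hk) (fun q hq hqy => modu_coprime L y q hq hqy) B hB
    harg hfin
    (fun N hN p hp _ hpZ i => hσ N hN p hp (by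
      have h1 : (p : ℝ) ≤ (X : ℝ) ^ δ := (by exact_mod_cast hpZ : (p : ℝ) ≤ Z0).trans hZle
      have hX1 : (1 : ℝ) ≤ X := by exact_mod_cast hXpos
      have h2 : ((p : ℝ)) ^ 2 ≤ X := by
        calc ((p : ℝ)) ^ 2 ≤ ((X : ℝ) ^ δ) ^ 2 := by gcongr
          _ = (X : ℝ) ^ (δ * 2) := by
              rw [Real.rpow_mul hXr.le]
              norm_cast
          _ ≤ (X : ℝ) ^ (1 : ℝ) := Real.rpow_le_rpow_of_exponent_le hX1 (by linarith)
          _ = X := Real.rpow_one _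
      exact_mod_cast h2) i)
    (fun N hN p hp hLp _ => hdist N hN p hp hLp)
    (fun N hN p hp _ hpL => hqc N hN p hp hpL) hLZ hκL hQ1 hQX hc
  have hV := hprod L Z0 (by omega) hLZ hκL
  have hV0 : 0 ≤ ∏ p ∈ PR L Z0, (1 - (κ : ℝ) / p) := by
    apply prod_nonneg
    intro p hp
    obtain ⟨h1, h2, h3⟩ := mem_PR.mp hp
    have hp0 : (0 : ℝ) < p := by exact_mod_cast h1.pos
    have : (κ : ℝ) / p ≤ 1 := by
      rw [div_le_one hp0]
      exact_mod_cast hκL.trans h2.le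
    linarith
  have hXM3 : ((X / M + 2 : ℕ) : ℝ) * M ≤ 3 * X := by
    have h1 : (X / M + 2) * M ≤ 3 * X := by
      have := Nat.div_mul_le_self X M
      nlinarith
    exact_mod_cast h1
  have hfrac : (ll / Real.log Z0) ^ κ ≤ (2 / δ) ^ κ * (ll / x) ^ κ := by
    rw [← mul_pow]
    apply pow_le_pow_left₀
    · apply div_nonneg (by linarith)
      have : 0 < δ / 2 * x := by positivity
      linarith
    · have e : 2 / δ * (ll / x) = ll / (δ / 2 * x) := by field_simp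
      rw [e]
      apply div_le_div_of_nonneg_left (by linarith) (by positivity) hlogZ2
  calc (B.card : ℝ) ≤ 24 * ((X / M + 2 : ℕ) : ℝ) * (M * ∏ p ∈ PR L Z0, (1 - (κ : ℝ) / p)) := hmain
    _ = 24 * (((X / M + 2 : ℕ) : ℝ) * M) * ∏ p ∈ PR L Z0, (1 - (κ : ℝ) / p) := by ring
    _ ≤ 24 * (3 * X) * (C4 * ((2 / δ) ^ κ * (ll / x) ^ κ)) := by
        apply mul_le_mul _ _ hV0 (by positivity)
        · linarith
        · refine hV.trans ?_
          gcongr
    _ = _ := by ring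

end Pool.Agent.Q205.GC
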