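import Pool.Agent.Q253.Thin.Int
import Pool.Agent.Q205.GC.Gold

/-!
# Upper bound for the number of prime triples `(p, p+2, p+6)` in intervals
-/

set_option autoImplicit false

namespace Pool.Agent.Q205.GC

open Finset
open Pool.Agent.Q253.Thin (SysZ IS int_upper)
open Pool.Agent.Y843.HS (Pr VV Pr_mem Pr_prime)
open Pool.Agent.Y843.HG (V1 V1_bounds)

/-- the classes of `c` with `p ∣ c (c + 2) (c + 6)` -/
def ZT (q : ℕ) : Finset ℕ := (range q).filter (fun c => q ∣ c ∨ q ∣ c + 2 ∨ q ∣ c + 6)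

lemma one_class (q k : ℕ) : ((range q).filter (fun c => q ∣ c + k)).card ≤ 1 := by
  rw [card_le_one]
  intro a ha b hb
  rw [mem_filter, mem_range] at ha hb
  have h1 : a + k ≡ b + k [MOD q] :=
    ((Nat.modEq_zero_iff_dvd).mpr ha.2).trans ((Nat.modEq_zero_iff_dvd).mpr hb.2).symm
  have h2 : a ≡ b [MOD q] := Nat.ModEq.add_right_cancel' k h1
  have h3 : a % q = b % q := h2
  rwa [Nat.mod_eq_of_lt ha.1, Nat.mod_eq_of_lt hb.1] at h3

lemma ZT_card_le (q : ℕ) : (ZT q).card ≤ 3 := by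
  unfold ZT
  rw [filter_or, filter_or]
  have h0 := one_class q 0
  have h1 := one_class q 2
  have h2 := one_class q 6
  simp only [add_zero] at h0
  calc _ ≤ _ + _ := card_union_le _ _
    _ ≤ 1 + (1 + 1) := by
      apply Nat.add_le_add h0
      exact (card_union_le _ _).trans (Nat.add_le_add h1 h2)

lemma ZT_sys : SysZ 3 ZT where
  card := fun p _ => ZT_card_le p
  loc := by
    intro p hp
    rcases Nat.lt_or_ge p 5 with h | h
    · have h2 := hp.two_le
      have h4 : p ≠ 4 := by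
        intro h4
        rw [h4] at hp
        revert hp
        decide
      have : p = 2 ∨ p = 3 := by omega
      rcases this with rfl | rfl <;> decide
    · have := ZT_card_le p
      omega
  lt := by
    intro p _ c hc
    unfold ZT at hc
    rw [mem_filter, mem_range] at hc
    exact hc.1

lemma ZT_card_ge {p : ℕ} (hp : 7 ≤ p) : 3 ≤ (ZT p).card := by
  have h : ({0, p - 2, p - 6} : Finset ℕ) ⊆ ZT p := by
    intro c hc
    rw [mem_insert, mem_insert, mem_singleton] at hc
    unfold ZT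
    rw [mem_filter, mem_range]
    rcases hc with rfl | rfl | rfl
    · exact ⟨by omega, Or.inl (dvd_zero p)⟩
    · refine ⟨by omega, Or.inr (Or.inl ?_)⟩
      have : p - 2 + 2 = p := by omega
      rw [this]
    · refine ⟨by omega, Or.inr (Or.inr ?_)⟩
      have : p - 6 + 6 = p := by omega
      rw [this]
  refine le_trans (le_of_eq ?_) (card_le_card h)
  symm
  rw [card_eq_three]
  exact ⟨0, p - 2, p - 6, by omega, by omega, by omega, rfl⟩

lemma VV_ZT (X : ℕ) : VV ZT 0 X ≤ 8 ^ 7 * V1 X ^ 3 := by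
  have h1 : VV ZT 0 X ≤ ∏ p ∈ Pr 0 X, ((if p < 7 then (8 : ℝ) else 1) * (1 - 1 / (p : ℝ)) ^ 3) := by
    unfold VV
    apply prod_le_prod
    · intro p hp
      have hpp := Pr_prime hp
      have hp0 : (0 : ℝ) < p := by exact_mod_cast hpp.pos
      rw [sub_nonneg, div_le_one hp0]
      exact_mod_cast (ZT_sys.loc p hpp).le
    · intro p hp
      have hpp := Pr_prime hp
      have hp2 : (2 : ℝ) ≤ p := by exact_mod_cast hpp.two_le
      have hx1 : 1 / (p : ℝ) ≤ 1 / 2 := one_div_le_one_div_of_le (by norm_num) hp2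
      have hx0 : 0 < 1 / (p : ℝ) := by positivity
      split_ifs with h
      · have h2 : (1 : ℝ) / 2 ≤ 1 - 1 / (p : ℝ) := by linarith
        have h3 : ((1 : ℝ) / 2) ^ 3 ≤ (1 - 1 / (p : ℝ)) ^ 3 := by gcongr
        have h4 : 0 ≤ ((ZT p).card : ℝ) / p := by positivity
        linarith
      · have h2 : (3 : ℝ) ≤ (ZT p).card := by exact_mod_cast ZT_card_ge (by omega : 7 ≤ p)
        have h3 : (3 : ℝ) / p ≤ ((ZT p).card : ℝ) / p := by gcongr
        have h4 : (3 : ℝ) / p = 3 * (1 / p) := by ring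
        have h5 : (1 - 1 / (p : ℝ)) ^ 3 = 1 - 3 * (1 / p) + (1 / (p : ℝ)) ^ 2 * (3 - 1 / p) := by ring
        have h6 : 0 ≤ (1 / (p : ℝ)) ^ 2 * (3 - 1 / p) := by
          apply mul_nonneg (by positivity)
          linarith
        rw [one_mul, h5]
        linarith
  refine h1.trans ?_
  rw [prod_mul_distrib, prod_pow]
  have hV : 0 ≤ (∏ p ∈ Pr 0 X, (1 - 1 / (p : ℝ))) ^ 3 := by
    apply pow_nonneg
    apply prod_nonneg
    intro p hp
    have h2 : (1 : ℝ) ≤ p := by exact_mod_cast (Pr_prime hp).one_lt.le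
    rw [sub_nonneg, div_le_one (by linarith)]
    exact h2
  have h2 : ∏ p ∈ Pr 0 X, (if p < 7 then (8 : ℝ) else 1) ≤ 8 ^ 7 := by
    rw [prod_ite, prod_const_one, mul_one, prod_const]
    apply pow_le_pow_right₀ (by norm_num)
    have : (Pr 0 X).filter (fun p => p < 7) ⊆ range 7 := by
      intro p hp
      rw [mem_filter] at hp
      exact mem_range.mpr hp.2
    refine (card_le_card this).trans (le_of_eq (card_range 7))
  unfold V1
  exact mul_le_mul_of_nonneg_right h2 hV

/-- the primes `p` with `a < p ≤ a + X` and `p + 2`, `p + 6` prime -/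
def TT (a X : ℕ) : Finset ℕ :=
  (Ioc a (a + X)).filter (fun n => n.Prime ∧ (n + 2).Prime ∧ (n + 6).Prime)

lemma log_cube_le {x : ℝ} (hx : 1 < x) : Real.log x ^ 3 ≤ 216 * √x := by
  have h1 := Real.log_le_rpow_div (by linarith : (0 : ℝ) ≤ x) (by norm_num : (0 : ℝ) < 1 / 6)
  have hl := Real.log_pos hx
  have h2 : Real.log x ≤ 6 * x ^ (1 / 6 : ℝ) := by
    refine h1.trans (le_of_eq ?_)
    ring
  have h3 : (x ^ (1 / 6 : ℝ)) ^ 3 = √x := by
    rw [Real.sqrt_eq_rpow, ← Real.rpow_natCast, ← Real.rpow_mul (by linarith)]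
    norm_num
  calc Real.log x ^ 3 ≤ (6 * x ^ (1 / 6 : ℝ)) ^ 3 := by gcongr
    _ = 216 * (x ^ (1 / 6 : ℝ)) ^ 3 := by ring
    _ = 216 * √x := by rw [h3]

lemma sqrt_le_cube {x : ℝ} (hx : 1 < x) : √x ≤ 216 * (x / Real.log x ^ 3) := by
  have hl := Real.log_pos hx
  have h1 := log_cube_le hx
  have h2 := Real.mul_self_sqrt (by linarith : (0 : ℝ) ≤ x)
  have h3 := Real.sqrt_nonneg x
  rw [mul_div_assoc', le_div_iff₀ (by positivity)]
  nlinarith

lemma one_le_cube {x : ℝ} (hx : 1 < x) : 1 ≤ 216 * (x / Real.log x ^ 3) := by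
  refine le_trans ?_ (sqrt_le_cube hx)
  rw [Real.one_le_sqrt]
  exact hx.le

lemma triples : ∃ C : ℝ, 1 ≤ C ∧ ∀ a X : ℕ, 2 ≤ X →
    ((TT a X).card : ℝ) ≤ C * (X / Real.log X ^ 3) := by
  obtain ⟨C1, hC1, hI⟩ := int_upper 3 2 (by norm_num) (by norm_num)
  obtain ⟨X₀, hX₀⟩ := hI 1 one_pos
  obtain ⟨c, C2, hc, hC2, hV⟩ := V1_bounds
  refine ⟨216 + C1 * 8 ^ 7 * C2 ^ 3 + Real.log X₀ ^ 3, ?_, ?_⟩
  · have h1 : 0 ≤ Real.log X₀ ^ 3 := pow_nonneg (Real.log_natCast_nonneg _) 3
    have h2 : 0 < C1 * 8 ^ 7 * C2 ^ 3 := by positivity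
    linarith
  intro a X hX
  have hX1 : (1 : ℝ) < X := by exact_mod_cast (by omega : 1 < X)
  have hl := Real.log_pos hX1
  have hq : 0 < (X : ℝ) / Real.log X ^ 3 := by positivity
  have hL0 : 0 ≤ Real.log X₀ ^ 3 := pow_nonneg (Real.log_natCast_nonneg _) 3
  rcases Nat.lt_or_ge X X₀ with hlt | hge
  · have h1 : ((TT a X).card : ℝ) ≤ X := by
      have : (TT a X).card ≤ X := by
        refine (card_filter_le _ _).trans ?_
        rw [Nat.card_Ioc]
        omega
      exact_mod_cast this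
    have h2 : (X : ℝ) = Real.log X ^ 3 * (X / Real.log X ^ 3) := by field_simp
    have h3 : Real.log X ^ 3 ≤ Real.log X₀ ^ 3 := by
      have : Real.log X ≤ Real.log X₀ := Real.log_le_log (by linarith) (by exact_mod_cast hlt.le)
      gcongr
    have h4 := mul_le_mul_of_nonneg_right h3 hq.le
    have h5 : 0 ≤ (216 + C1 * 8 ^ 7 * C2 ^ 3) * ((X : ℝ) / Real.log X ^ 3) := by positivity
    nlinarith
  · have h1 := hX₀ X hge ZT ZT_sys a (a + X) (by push_cast; linarith)
    have hsub : TT a X ⊆ IS 2 X a (a + X) ZT ∪ Icc 1 ⌊√(X : ℝ)⌋₊ := by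
      intro n hn
      unfold TT at hn
      rw [mem_filter] at hn
      obtain ⟨h2, h3, h4, h5⟩ := hn
      rw [mem_union]
      by_cases hs : (n : ℝ) ≤ √(X : ℝ)
      · right
        rw [mem_Icc]
        exact ⟨h3.one_lt.le, Nat.le_floor hs⟩
      · left
        push Not at hs
        unfold IS
        classical
        rw [mem_filter]
        refine ⟨h2, ?_⟩
        intro q hqp hqX hmem
        rw [Nat.cast_ofNat, ← Real.sqrt_eq_rpow] at hqX
        have hqn : q < n := by exact_mod_cast (hqX.trans_lt hs)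
        unfold ZT at hmem
        rw [mem_filter] at hmem
        have key : ∀ k : ℕ, (n + k).Prime → ¬ q ∣ n % q + k := by
          intro k hk hd
          have hd' : q ∣ n + k := by
            have e : n + k = q * (n / q) + (n % q + k) := by
              have := Nat.div_add_mod n q
              omega
            rw [e]
            exact dvd_add (dvd_mul_right _ _) hd
          have := (Nat.prime_dvd_prime_iff_eq hqp hk).mp hd'
          omega
        rcases hmem.2 with h | h | h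
        · exact key 0 (by simpa using h3) (by simpa using h)
        · exact key 2 h4 h
        · exact key 6 h5 h
    have h2 : ((TT a X).card : ℝ) ≤ (IS 2 X a (a + X) ZT).card + √(X : ℝ) := by
      have h3 := (card_le_card hsub).trans (card_union_le _ _)
      rw [Nat.card_Icc, Nat.add_sub_cancel] at h3
      have h4 : (⌊√(X : ℝ)⌋₊ : ℝ) ≤ √(X : ℝ) := Nat.floor_le (Real.sqrt_nonneg _)
      have h5 : ((TT a X).card : ℝ) ≤ (IS 2 X a (a + X) ZT).card + (⌊√(X : ℝ)⌋₊ : ℝ) := by
        exact_mod_cast h3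
      linarith
    have h3 := sqrt_le_cube hX1
    have h4 := VV_ZT X
    have h5 := (hV X hX).2
    have hV0 : 0 ≤ V1 X := by
      have := (hV X hX).1
      have h6 : 0 < c / Real.log X := by positivity
      linarith
    have h6 : V1 X ^ 3 ≤ (C2 / Real.log X) ^ 3 := by gcongr
    have h7 : C1 * (((a + X : ℕ) : ℝ) - a) * VV ZT 0 X ≤
        C1 * 8 ^ 7 * C2 ^ 3 * (X / Real.log X ^ 3) := by
      have e : ((a + X : ℕ) : ℝ) - a = X := by push_cast; ring
      rw [e]
      calc C1 * (X : ℝ) * VV ZT 0 X ≤ C1 * X * (8 ^ 7 * (C2 / Real.log X) ^ 3) := by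
            apply mul_le_mul_of_nonneg_left _ (by positivity)
            exact h4.trans (by gcongr)
        _ = _ := by rw [div_pow]; ring
    have h8 : 0 ≤ Real.log X₀ ^ 3 * ((X : ℝ) / Real.log X ^ 3) := by positivity
    have h9 : C1 * ((((a + X : ℕ) : ℝ) - a) * VV ZT 0 X) =
      C1 * (((a + X : ℕ) : ℝ) - a) * VV ZT 0 X := by ring
    rw [h9] at h1
    linarith

end Pool.Agent.Q205.GC
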