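import Pool.Agent.Q205.GC.Tri
import Pool.Agent.Results.MP_3f8e47_nt.ThreeQuarters

/-!
# The loss `N - f(N)` of the recursion for prime triples: counting and mean value
-/

set_option autoImplicit false

namespace Pool.Agent.Q205.GC

open Finset
open Pool.Agent.Results.MP_3f8e47_nt.LongLife (b)

/-- the recursion of the problem for all `N`, and its zeros -/
structure RecT (a : ℕ → ℕ → ℤ) (f : ℕ → ℕ) : Prop where
  one : ∀ N : ℕ, 6 ≤ N → a N 1 = (N : ℤ) - 6
  step : ∀ N : ℕ, 6 ≤ N → ∀ n : ℕ, 2 ≤ n →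
    a N n = a N (n - 1) - ((Int.gcd (a N (n - 1)) ((n + b n : ℕ) : ℤ) : ℕ) : ℤ)
  zero : ∀ N : ℕ, 6 ≤ N → IsLeast {n : ℕ | 1 ≤ n ∧ a N n = 0} (f N)

lemma RecT.lt {a : ℕ → ℕ → ℤ} {f : ℕ → ℕ} (h : RecT a f) {N : ℕ} (hN : 6 ≤ N) : f N + 5 ≤ N := by
  obtain ⟨⟨hf1, haf⟩, hmin⟩ := h.zero N hN
  have hk : ∀ k, 1 ≤ k → k ≤ f N → 0 ≤ a N k ∧ a N k + (k : ℤ) ≤ (N : ℤ) - 5 := by
    intro k hk
    induction k, hk using Nat.le_induction with
    | base => intro _; rw [h.one N hN]; push_cast; constructor <;> omega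
    | succ k hk ih =>
      intro hkg
      obtain ⟨h1, h2⟩ := ih (by omega)
      have hne : a N k ≠ 0 := by
        intro h3
        have := hmin ⟨hk, h3⟩
        omega
      have hpos : 0 < a N k := lt_of_le_of_ne h1 (Ne.symm hne)
      rw [h.step N hN (k + 1) (by omega), Nat.add_sub_cancel]
      have hle := Int.le_of_dvd hpos (Int.gcd_dvd_left (a := a N k)
        (b := ((k + 1 + b (k + 1) : ℕ) : ℤ)))
      have hge : 1 ≤ Int.gcd (a N k) ((k + 1 + b (k + 1) : ℕ) : ℤ) := by
        apply Nat.pos_of_ne_zero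
        intro h6
        rw [Int.gcd_eq_zero_iff] at h6
        exact hne h6.1
      constructor
      · linarith
      · push_cast at hge ⊢
        omega
  have h1 := (hk (f N) hf1 le_rfl).2
  rw [haf] at h1
  omega

/-- the `N` of an interval for which the loss `N - f(N)` is at most `K` -/
lemma tri_count : ∃ C : ℝ, 1 ≤ C ∧ ∀ (a : ℕ → ℕ → ℤ) (f : ℕ → ℕ), RecT a f →
    ∀ A X : ℕ, 2 ≤ X → ∀ K : ℕ,
      (((Ioc A (A + X)).filter (fun N => 6 ≤ N ∧ N ≤ f N + K)).card : ℝ) ≤
      C * (K * (X / Real.log X ^ 3)) := by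
  obtain ⟨N₀, hN₀⟩ := Pool.Agent.Results.MP_3f8e47_nt.ThreeQuarters.result.2 (1 / 8) (by norm_num)
  obtain ⟨C, hC, htri⟩ := triples
  refine ⟨2 * C + 216 * N₀ + 2000, by have : (0 : ℝ) ≤ N₀ := Nat.cast_nonneg _; linarith, ?_⟩
  intro a f hrec A X hX K
  have hX1 : (1 : ℝ) < X := by exact_mod_cast (by omega : 1 < X)
  have hl := Real.log_pos hX1
  have hq2 := one_le_cube hX1
  have hK0 : (0 : ℝ) ≤ K := Nat.cast_nonneg _
  have hN0 : (0 : ℝ) ≤ N₀ := Nat.cast_nonneg _
  have hq2' : 0 < (X : ℝ) / Real.log X ^ 3 := by positivity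
  have h4 : 0 ≤ (K : ℝ) * (X / Real.log X ^ 3) := by positivity
  have h5 : 0 ≤ (N₀ : ℝ) * (K * (X / Real.log X ^ 3)) := by positivity
  have h5' : 0 ≤ C * (K * ((X : ℝ) / Real.log X ^ 3)) := by positivity
  rcases Nat.eq_zero_or_pos K with hK | hK
  · subst hK
    have h1 : (Ioc A (A + X)).filter (fun N => 6 ≤ N ∧ N ≤ f N + 0) = ∅ := by
      rw [filter_eq_empty_iff]
      intro N _ h
      have := hrec.lt h.1
      omega
    rw [h1]
    simp
  rcases Nat.lt_or_ge K X with hKX | hKX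
  · have hsub : (Ioc A (A + X)).filter (fun N => 6 ≤ N ∧ N ≤ f N + K) ⊆
        Icc 1 (N₀ + 8 * K) ∪
          (range K).biUnion (fun h => (TT (A - X) (2 * X)).image (fun p => p + h)) := by
      intro N hN
      rw [mem_filter, mem_Ioc] at hN
      obtain ⟨⟨hAN, hNX⟩, h3, hNg⟩ := hN
      rw [mem_union]
      rcases Nat.lt_or_ge (N₀ + 8 * K) N with hbig | hsmall
      · right
        have hlt := hrec.lt h3
        have h1 : (3 / 4 + 1 / 8 : ℝ) * N ≤ f N := by
          have e1 : (N : ℝ) ≤ f N + K := by exact_mod_cast hNg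
          have e2 : (8 * K : ℝ) ≤ N := by exact_mod_cast (by omega : 8 * K ≤ N)
          linarith
        have h2 := hN₀ N (by omega) (a N) (hrec.one N h3) (hrec.step N h3) (f N) (hrec.zero N h3) h1
        rw [mem_biUnion]
        refine ⟨N - f N - 1, by rw [mem_range]; omega, ?_⟩
        rw [mem_image]
        refine ⟨f N + 1, ?_, by omega⟩
        unfold TT
        rw [mem_filter, mem_Ioc]
        exact ⟨by omega, h2⟩
      · left
        rw [mem_Icc]
        omega
    have hcard : ((Ioc A (A + X)).filter (fun N => 6 ≤ N ∧ N ≤ f N + K)).card ≤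
        (N₀ + 8 * K) + K * (TT (A - X) (2 * X)).card := by
      refine (card_le_card hsub).trans ((card_union_le _ _).trans ?_)
      apply Nat.add_le_add
      · rw [Nat.card_Icc]
        omega
      · refine card_biUnion_le.trans ((sum_le_sum fun h _ => card_image_le).trans ?_)
        rw [sum_const, card_range, smul_eq_mul]
    have hcard' : (((Ioc A (A + X)).filter (fun N => 6 ≤ N ∧ N ≤ f N + K)).card : ℝ) ≤
        (N₀ + 8 * K) + K * ((TT (A - X) (2 * X)).card : ℝ) := by exact_mod_cast hcard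
    have h1 := htri (A - X) (2 * X) (by omega)
    push_cast at h1
    have hl2 : Real.log X ≤ Real.log (2 * X) := Real.log_le_log (by linarith) (by linarith)
    have h3 : (2 * X : ℝ) / Real.log (2 * X) ^ 3 ≤ 2 * (X / Real.log X ^ 3) := by
      rw [mul_div_assoc]
      gcongr
    have h6 : (K : ℝ) * ((TT (A - X) (2 * X)).card : ℝ) ≤ K * (C * (2 * (X / Real.log X ^ 3))) := by
      apply mul_le_mul_of_nonneg_left _ hK0
      exact h1.trans (by gcongr)
    have hK1 : (1 : ℝ) ≤ K := by exact_mod_cast hK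
    have h7 : (N₀ : ℝ) ≤ 216 * (N₀ * (K * (X / Real.log X ^ 3))) := by
      have e1 : (1 : ℝ) ≤ 216 * (K * (X / Real.log X ^ 3)) := by nlinarith
      nlinarith
    have h8 : (8 * K : ℝ) ≤ 1728 * (K * (X / Real.log X ^ 3)) := by nlinarith
    nlinarith
  · have h1 : ((Ioc A (A + X)).filter (fun N => 6 ≤ N ∧ N ≤ f N + K)).card ≤ X := by
      refine (card_filter_le _ _).trans ?_
      rw [Nat.card_Ioc]
      omega
    have h2 : (((Ioc A (A + X)).filter (fun N => 6 ≤ N ∧ N ≤ f N + K)).card : ℝ) ≤ K := by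
      exact_mod_cast h1.trans hKX
    have h3 : (K : ℝ) ≤ 216 * (K * (X / Real.log X ^ 3)) := by nlinarith
    nlinarith

/-- the mean of the loss over an interval of length `X` is at least of the order `log³ X` -/
lemma tri_mean : ∃ c : ℝ, 0 < c ∧ ∀ (a : ℕ → ℕ → ℤ) (f : ℕ → ℕ), RecT a f →
    ∀ A X : ℕ, 6 ≤ X → c * (X * Real.log X ^ 3) ≤
      ∑ N ∈ (Ioc A (A + X)).filter (fun N => 6 ≤ N), ((N : ℝ) - f N) := by
  obtain ⟨C, hC, hcount⟩ := tri_count
  have hl40 : 0 < Real.log 40 := Real.log_pos (by norm_num)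
  refine ⟨min (5 / (64 * C)) (1 / (6 * Real.log 40 ^ 3)), by positivity, ?_⟩
  intro a f hrec A X hX
  have hX1 : (1 : ℝ) < X := by exact_mod_cast (by omega : 1 < X)
  have hXp : (0 : ℝ) < X := by linarith
  have hl := Real.log_pos hX1
  set I := (Ioc A (A + X)).filter (fun N => 6 ≤ N) with hI
  have hterm : ∀ N ∈ I, (1 : ℝ) ≤ (N : ℝ) - f N := by
    intro N hN
    have h1 := hrec.lt (mem_filter.mp hN).2
    have h2 : ((f N + 5 : ℕ) : ℝ) ≤ N := by exact_mod_cast h1
    push_cast at h2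
    linarith
  have hIcard : (X : ℝ) - 5 ≤ I.card := by
    have h1 : (Ioc (A + 5) (A + X)) ⊆ I := by
      intro N hN
      rw [mem_Ioc] at hN
      rw [hI, mem_filter, mem_Ioc]
      omega
    have h2 := card_le_card h1
    rw [Nat.card_Ioc] at h2
    have h3 : (X : ℝ) ≤ (I.card : ℝ) + 5 := by exact_mod_cast (by omega : X ≤ I.card + 5)
    linarith
  rcases Nat.lt_or_ge X 40 with hlt | hge
  · have h1 : ∑ N ∈ I, (1 : ℝ) ≤ ∑ N ∈ I, ((N : ℝ) - f N) := sum_le_sum hterm
    rw [sum_const, nsmul_eq_mul, mul_one] at h1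
    have h2 : (X : ℝ) / 6 ≤ I.card := by
      have : (6 : ℝ) ≤ X := by exact_mod_cast hX
      linarith
    have h3 : Real.log X ≤ Real.log 40 := Real.log_le_log hXp (by exact_mod_cast hlt.le)
    have h4 : Real.log X ^ 3 ≤ Real.log 40 ^ 3 := by gcongr
    calc min (5 / (64 * C)) (1 / (6 * Real.log 40 ^ 3)) * ((X : ℝ) * Real.log X ^ 3)
        ≤ 1 / (6 * Real.log 40 ^ 3) * ((X : ℝ) * Real.log 40 ^ 3) := by
          apply mul_le_mul (min_le_right _ _) _ (by positivity) (by positivity)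
          gcongr
      _ = (X : ℝ) / 6 := by field_simp
      _ ≤ _ := h2.trans h1
  · set L := Real.log X with hL
    set K : ℕ := ⌊L ^ 3 / (8 * C)⌋₊ with hK
    have hC0 : 0 < C := by linarith
    have hK1 : (K : ℝ) ≤ L ^ 3 / (8 * C) := Nat.floor_le (by positivity)
    have hK2 : L ^ 3 / (8 * C) < K + 1 := Nat.lt_floor_add_one _
    have hcnt := hcount a f hrec A X (by omega) K
    rw [← filter_filter] at hcnt
    set S := I.filter (fun N => N ≤ f N + K) with hS
    have h1 : (S.card : ℝ) ≤ X / 8 := by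
      refine hcnt.trans ?_
      calc C * ((K : ℝ) * ((X : ℝ) / L ^ 3)) ≤ C * (L ^ 3 / (8 * C) * ((X : ℝ) / L ^ 3)) := by gcongr
          _ = (X : ℝ) / 8 := by field_simp
    set B := I.filter (fun N => ¬ N ≤ f N + K) with hB
    have hAB : S.card + B.card = I.card := by
      rw [hS, hB, card_filter_add_card_filter_not]
    have h2 : (5 / 8 : ℝ) * X ≤ B.card := by
      have e1 : (S.card : ℝ) + B.card = I.card := by exact_mod_cast hAB
      have e2 : (40 : ℝ) ≤ X := by exact_mod_cast hge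
      linarith
    have h3 : (B.card : ℝ) * (K + 1) ≤ ∑ N ∈ I, ((N : ℝ) - f N) := by
      calc (B.card : ℝ) * (K + 1) = ∑ N ∈ B, ((K : ℝ) + 1) := by
            rw [sum_const, nsmul_eq_mul]
        _ ≤ ∑ N ∈ B, ((N : ℝ) - f N) := by
            apply sum_le_sum
            intro N hN
            rw [hB, mem_filter] at hN
            have e1 : f N + K + 1 ≤ N := by omega
            have e2 : ((f N + K + 1 : ℕ) : ℝ) ≤ N := by exact_mod_cast e1
            push_cast at e2
            linarith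
        _ ≤ _ := by
            apply sum_le_sum_of_subset_of_nonneg (filter_subset _ _)
            intro N hN _
            linarith [hterm N hN]
    calc min (5 / (64 * C)) (1 / (6 * Real.log 40 ^ 3)) * ((X : ℝ) * L ^ 3)
        ≤ 5 / (64 * C) * ((X : ℝ) * L ^ 3) := by
          apply mul_le_mul_of_nonneg_right (min_le_left _ _) (by positivity)
      _ ≤ 5 / 8 * X * (L ^ 3 / (8 * C)) := by
          apply le_of_eq
          field_simp
          ring
      _ ≤ B.card * (K + 1) := by gcongr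
      _ ≤ _ := h3

end Pool.Agent.Q205.GC
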