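import Pool.Agent.Q205.GC.Tri2
import Pool.Agent.Q205.GC.Gold3

/-!
# The loss `N - f(N)` of the recursion for prime triples has a mean larger than a power
-/

set_option autoImplicit false

namespace Pool.Agent.Q205.GC

open Finset
open Pool.Agent.Q253.Thin (SysZ IS int_lower VZ_low)
open Pool.Agent.Y843.HS (VV)
open Pool.Agent.Results.MP_3f8e47_nt.LongLife (b)

lemma b_le (n : ℕ) : b n ≤ 6 := by
  unfold b
  split_ifs <;> omega

lemma b_cases (n : ℕ) : b n = 2 ∨ b n = 6 ∨ b n = 0 := by
  unfold b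
  split_ifs <;> simp

/-- the loss at the first nontrivial gcd -/
lemma tri_first {a : ℕ → ℕ → ℤ} {f : ℕ → ℕ} (h : RecT a f) {N r z : ℕ} (hN : 6 ≤ N)
    (hr : r.Prime) (hrN : r ∣ N - 4) (hrs : 3 * r + 6 ≤ N)
    (hq : ∀ q : ℕ, q.Prime → (q ∣ N - 4 ∨ q ∣ N - 2 ∨ q ∣ N + 2) → z < q) :
    f N + z + 1 ≤ N := by
  classical
  -- the first nontrivial gcd
  have hex : ∃ n, 2 ≤ n ∧ Nat.gcd (N - 4 - n) (n + b n) ≠ 1 := by
    refine ⟨3 * r, by have := hr.two_le; omega, ?_⟩
    have hb : b (3 * r) = 0 := by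
      unfold b
      rw [if_neg (by omega), if_neg (by omega)]
    rw [hb, add_zero]
    intro hcon
    have h1 : r ∣ N - 4 - 3 * r := Nat.dvd_sub hrN (dvd_mul_left r 3)
    have h2 : r ∣ Nat.gcd (N - 4 - 3 * r) (3 * r) := Nat.dvd_gcd h1 (dvd_mul_left r 3)
    rw [hcon] at h2
    exact hr.one_lt.ne' (Nat.dvd_one.mp h2)
  set m := Nat.find hex with hm
  have hm1 := Nat.find_spec hex
  rw [← hm] at hm1
  have hmr : m ≤ 3 * r := by
    apply Nat.find_le
    refine ⟨by have := hr.two_le; omega, ?_⟩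
    have hb : b (3 * r) = 0 := by
      unfold b
      rw [if_neg (by omega), if_neg (by omega)]
    rw [hb, add_zero]
    intro hcon
    have h1 : r ∣ N - 4 - 3 * r := Nat.dvd_sub hrN (dvd_mul_left r 3)
    have h2 : r ∣ Nat.gcd (N - 4 - 3 * r) (3 * r) := Nat.dvd_gcd h1 (dvd_mul_left r 3)
    rw [hcon] at h2
    exact hr.one_lt.ne' (Nat.dvd_one.mp h2)
  have hbefore : ∀ n, 2 ≤ n → n < m → Nat.gcd (N - 4 - n) (n + b n) = 1 := by
    intro n hn hnm
    by_contra hcon
    exact Nat.find_min hex hnm ⟨hn, hcon⟩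
  have key : ∀ n : ℕ, 2 ≤ n → n ≤ 3 * r → a N (n - 1) = (N : ℤ) - 4 - n →
      (Int.gcd (a N (n - 1)) ((n + b n : ℕ) : ℤ) : ℕ) = Nat.gcd (N - 4 - n) (n + b n) := by
    intro n _ hn hx
    have e : (N : ℤ) - 4 - n = ((N - 4 - n : ℕ) : ℤ) := by omega
    rw [hx, e]
    exact Int.gcd_natCast_natCast _ _
  have hrun : ∀ n : ℕ, 1 ≤ n → n < m → a N n = (N : ℤ) - 5 - n := by
    intro n hn
    induction n, hn using Nat.le_induction with
    | base => intro _; rw [h.one N hN]; push_cast; ring
    | succ n hn ih =>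
      intro hlt
      have h1 := ih (by omega)
      have h2 := key (n + 1) (by omega) (by omega) (by rw [Nat.add_sub_cancel, h1]; push_cast; ring)
      rw [hbefore (n + 1) (by omega) hlt] at h2
      rw [h.step N hN (n + 1) (by omega), h2, Nat.add_sub_cancel, h1]
      push_cast
      ring
  have hp1 : a N (m - 1) = (N : ℤ) - 4 - m := by
    rw [hrun (m - 1) (by omega) (by omega), Nat.cast_sub (by omega)]
    push_cast
    ring
  set G := Nat.gcd (N - 4 - m) (m + b m) with hG
  have hGpos : 0 < G := Nat.gcd_pos_of_pos_left _ (by omega)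
  have hGz : z < G := by
    have h1 : G ≠ 1 := hm1.2
    have h2 := Nat.minFac_prime h1
    have h3 : G.minFac ∣ N - 4 - m := (Nat.minFac_dvd G).trans (Nat.gcd_dvd_left _ _)
    have h4 : G.minFac ∣ m + b m := (Nat.minFac_dvd G).trans (Nat.gcd_dvd_right _ _)
    have h5 : G.minFac ∣ (N - 4 - m) + (m + b m) := dvd_add h3 h4
    have h6 : G.minFac ≤ G := Nat.minFac_le hGpos
    have h7 : z < G.minFac := by
      apply hq _ h2
      have e : (N - 4 - m) + (m + b m) = N - 4 + b m := by omega
      rw [e] at h5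
      rcases b_cases m with hb | hb | hb
      · right; left
        rw [hb] at h5
        have e2 : N - 4 + 2 = N - 2 := by omega
        rwa [e2] at h5
      · right; right
        rw [hb] at h5
        have e2 : N - 4 + 6 = N + 2 := by omega
        rwa [e2] at h5
      · left
        rw [hb, add_zero] at h5
        exact h5
    omega
  have hGle : G ≤ N - 4 - m := Nat.gcd_le_left _ (by omega)
  have ham : a N m = (N : ℤ) - 4 - m - G := by
    have h2 := key m hm1.1 hmr hp1
    rw [h.step N hN m hm1.1, h2, hp1]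
  obtain ⟨⟨hg2, hag⟩, hmin⟩ := h.zero N hN
  have hgp : m ≤ f N := by
    by_contra hcon
    push Not at hcon
    have h1 := hrun (f N) (by omega) hcon
    rw [hag] at h1
    omega
  have hk : ∀ k, m ≤ k → k ≤ f N → 0 ≤ a N k ∧ a N k + (k : ℤ) ≤ (N : ℤ) - 4 - G := by
    intro k hk
    induction k, hk using Nat.le_induction with
    | base =>
      intro _
      rw [ham]
      constructor <;> omega
    | succ k hk ih =>
      intro hkg
      obtain ⟨h1, h2⟩ := ih (by omega)
      have hne : a N k ≠ 0 := by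
        intro h3
        have := hmin ⟨by omega, h3⟩
        omega
      have hpos : 0 < a N k := lt_of_le_of_ne h1 (Ne.symm hne)
      rw [h.step N hN (k + 1) (by omega), Nat.add_sub_cancel]
      have hle := Int.le_of_dvd hpos (Int.gcd_dvd_left (a := a N k)
        (b := ((k + 1 + b (k + 1) : ℕ) : ℤ)))
      have hge : 1 ≤ Int.gcd (a N k) ((k + 1 + b (k + 1) : ℕ) : ℤ) := by
        apply Nat.pos_of_ne_zero
        intro h6
        rw [Int.gcd_eq_zero_iff] at h6
        exact hne h6.1
      constructor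
      · linarith
      · push_cast at hge ⊢
        omega
  have h1 := (hk (f N) hgp le_rfl).2
  rw [hag] at h1
  omega

/-- the classes of `c` with `q ∣ c (r c + 2) (r c + 6)` -/
def ZR (r q : ℕ) : Finset ℕ := (range q).filter (fun c => q ∣ c ∨ q ∣ r * c + 2 ∨ q ∣ r * c + 6)

lemma one_class_mul {r q : ℕ} (hq : q.Prime) (hrq : ¬ q ∣ r) (k : ℕ) :
    ((range q).filter (fun c => q ∣ r * c + k)).card ≤ 1 := by
  rw [card_le_one]
  intro x hx y hy
  rw [mem_filter, mem_range] at hx hy
  have h1 : r * x + k ≡ r * y + k [MOD q] :=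
    ((Nat.modEq_zero_iff_dvd).mpr hx.2).trans ((Nat.modEq_zero_iff_dvd).mpr hy.2).symm
  have h2 : r * x ≡ r * y [MOD q] := Nat.ModEq.add_right_cancel' k h1
  have h3 : x ≡ y [MOD q] :=
    Nat.ModEq.cancel_left_of_coprime ((Nat.Prime.coprime_iff_not_dvd hq).mpr hrq) h2
  have h4 : x % q = y % q := h3
  rwa [Nat.mod_eq_of_lt hx.1, Nat.mod_eq_of_lt hy.1] at h4

lemma ZR_self {r : ℕ} (h7 : 7 ≤ r) : (ZR r r).card ≤ 1 := by
  rw [card_le_one]
  have key : ∀ x ∈ ZR r r, x = 0 := by
    intro x hx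
    unfold ZR at hx
    rw [mem_filter, mem_range] at hx
    rcases hx.2 with h | h | h
    · rcases Nat.eq_zero_or_pos x with h0 | h0
      · exact h0
      · have := Nat.le_of_dvd h0 h
        omega
    · have h1 := (Nat.dvd_add_right (dvd_mul_right r x)).mp h
      have := Nat.le_of_dvd (by norm_num) h1
      omega
    · have h1 := (Nat.dvd_add_right (dvd_mul_right r x)).mp h
      have := Nat.le_of_dvd (by norm_num) h1
      omega
  intro x hx y hy
  rw [key x hx, key y hy]

lemma ZR_card {r q : ℕ} (hr : r.Prime) (h7 : 7 ≤ r) (hq : q.Prime) : (ZR r q).card ≤ 3 := by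
  by_cases hqr : q ∣ r
  · have : q = r := (Nat.prime_dvd_prime_iff_eq hq hr).mp hqr
    rw [this]
    have := ZR_self h7
    omega
  · unfold ZR
    rw [filter_or, filter_or]
    have h0 := one_class q 0
    have h1 := one_class_mul hq hqr 2
    have h2 := one_class_mul hq hqr 6
    simp only [add_zero] at h0
    calc _ ≤ _ + _ := card_union_le _ _
      _ ≤ 1 + (1 + 1) := by
        apply Nat.add_le_add h0
        exact (card_union_le _ _).trans (Nat.add_le_add h1 h2)

lemma ZR_sys {r : ℕ} (hr : r.Prime) (h7 : 7 ≤ r) : SysZ 3 (ZR r) where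
  card := fun q hq => ZR_card hr h7 hq
  loc := by
    intro q hq
    rcases Nat.lt_or_ge q 5 with h | h
    · have h2 := hq.two_le
      have h4 : q ≠ 4 := by
        intro h4
        rw [h4] at hq
        revert hq
        decide
      have : q = 2 ∨ q = 3 := by omega
      rcases this with rfl | rfl
      · have hodd : r % 2 = 1 := by
          rcases hr.eq_two_or_odd with h5 | h5
          · omega
          · exact h5
        have hs : ZR r 2 ⊆ {0} := by
          intro c hc
          unfold ZR at hc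
          rw [mem_filter, mem_range] at hc
          rw [mem_singleton]
          obtain ⟨h5, h6⟩ := hc
          by_contra hne
          have : c = 1 := by omega
          subst this
          omega
        have := card_le_card hs
        rw [card_singleton] at this
        omega
      · have h3 : r % 3 ≠ 0 := by
          intro h5
          have : 3 ∣ r := Nat.dvd_of_mod_eq_zero h5
          have := (Nat.prime_dvd_prime_iff_eq Nat.prime_three hr).mp this
          omega
        have hs : ZR r 3 ⊆ (range 3).erase ((2 * r) % 3) := by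
          intro c hc
          unfold ZR at hc
          rw [mem_filter, mem_range] at hc
          obtain ⟨h5, h6⟩ := hc
          rw [mem_erase, mem_range]
          refine ⟨?_, h5⟩
          intro hcr
          have h8 : c = 0 ∨ c = 1 ∨ c = 2 := by omega
          rcases h8 with rfl | rfl | rfl
          · omega
          · omega
          · omega
        have h8 := card_le_card hs
        rw [card_erase_of_mem (by rw [mem_range]; omega), card_range] at h8
        omega
    · have := ZR_card hr h7 hq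
      omega
  lt := by
    intro q _ c hc
    unfold ZR at hc
    rw [mem_filter, mem_range] at hc
    exact hc.1

lemma card_primeFactors_le (n : ℕ) (hn : n ≠ 0) : (n.primeFactors.card : ℝ) * Real.log 2 ≤ Real.log n := by
  have h1 : 2 ^ n.primeFactors.card ≤ n := by
    calc 2 ^ n.primeFactors.card = ∏ _p ∈ n.primeFactors, 2 := by rw [prod_const]
      _ ≤ ∏ p ∈ n.primeFactors, p := prod_le_prod' fun p hp => (Nat.prime_of_mem_primeFactors hp).two_le
      _ ≤ n := Nat.le_of_dvd (Nat.pos_of_ne_zero hn) (Nat.prod_primeFactors_dvd n)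
  have h2 : ((2 : ℝ) ^ n.primeFactors.card) ≤ n := by exact_mod_cast h1
  rw [← Real.log_pow]
  exact Real.log_le_log (by positivity) h2

/-- one scale: many `N` with a first nontrivial gcd `≥ w` -/
lemma tri_scale : ∃ t : ℕ, 1 ≤ t ∧ ∃ c : ℝ, 0 < c ∧ ∃ Y₀ : ℕ, ∀ (a : ℕ → ℕ → ℤ) (f : ℕ → ℕ), RecT a f →
    ∀ Y z : ℕ, Y₀ ≤ Y → Y₀ ≤ z → (Y : ℝ) ^ (1 / (t : ℝ)) ≤ z → ∀ X : ℕ, 4 + 4 * (z * Y) ≤ X →
      c * (z * Y * (Y : ℝ) ^ (1 / (t : ℝ)) / Real.log X ^ 5) ≤ ∑ N ∈ Icc 6 X, ((N : ℝ) - f N) := by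
  classical
  obtain ⟨t, ht, c0, hc0, hI⟩ := int_lower 3 (by norm_num)
  obtain ⟨X₁, hX₁⟩ := hI 1 one_pos
  obtain ⟨c1, hc1, hV⟩ := VZ_low 3 (by norm_num)
  obtain ⟨y₀, hy₀, hpr⟩ := primes_dyadic
  have hlog2 : 0 < Real.log 2 := Real.log_pos (by norm_num)
  refine ⟨t, ht, c0 * c1 * Real.log 2 / 2, by positivity, X₁ + y₀ + 7, ?_⟩
  intro a f hrec Y z hY hz hYz X hX
  have hYr : (1 : ℝ) < Y := by exact_mod_cast (by omega : 1 < Y)
  have hzr : (7 : ℝ) ≤ z := by exact_mod_cast (by omega : 7 ≤ z)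
  have hY7 : 7 ≤ Y := by omega
  have hz7 : 7 ≤ z := by omega
  have hYX : Y ≤ X := by nlinarith
  have hzX : z ≤ X := by nlinarith
  have hXr : (1 : ℝ) < X := by exact_mod_cast (by omega : 1 < X)
  have hlX := Real.log_pos hXr
  have hlY := Real.log_pos hYr
  have hlz : 0 < Real.log z := Real.log_pos (by linarith)
  have hlYX : Real.log Y ≤ Real.log X := Real.log_le_log (by linarith) (by exact_mod_cast hYX)
  have hlzX : Real.log z ≤ Real.log X := Real.log_le_log (by linarith) (by exact_mod_cast hzX)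
  set w : ℝ := (Y : ℝ) ^ (1 / (t : ℝ)) with hw
  have hw0 : 0 < w := by positivity
  set R := (Ioc z (2 * z)).filter Nat.Prime with hR
  have hRc : (z : ℝ) / (2 * Real.log X) ≤ R.card := by
    refine le_trans ?_ (hpr z (by omega))
    gcongr
  set T : Finset (Σ _ : ℕ, ℕ) := R.sigma (fun r => IS t Y Y (2 * Y) (ZR r)) with hT
  have hTc : (z : ℝ) / (2 * Real.log X) * (c0 * (Y * (c1 / Real.log X ^ 3))) ≤ T.card := by
    rw [hT, card_sigma]
    push_cast
    calc (z : ℝ) / (2 * Real.log X) * (c0 * (Y * (c1 / Real.log X ^ 3)))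
        ≤ R.card * (c0 * (Y * (c1 / Real.log X ^ 3))) := by gcongr
      _ = ∑ r ∈ R, c0 * (Y * (c1 / Real.log X ^ 3)) := by rw [sum_const, nsmul_eq_mul]
      _ ≤ ∑ r ∈ R, ((IS t Y Y (2 * Y) (ZR r)).card : ℝ) := by
          apply sum_le_sum
          intro r hr
          rw [hR, mem_filter, mem_Ioc] at hr
          have hsys := ZR_sys hr.2 (by omega : 7 ≤ r)
          have h1 := hX₁ Y (by omega) (ZR r) hsys Y (2 * Y) (by push_cast; linarith)
          have h2 := hV Y (by omega) (ZR r) hsys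
          refine le_trans ?_ h1
          have e : ((2 * Y : ℕ) : ℝ) - Y = Y := by push_cast; ring
          rw [e]
          have h3 : c1 / Real.log X ^ 3 ≤ c1 / Real.log Y ^ 3 := by gcongr
          have h4 : c1 / Real.log X ^ 3 ≤ VV (ZR r) 0 Y := h3.trans h2
          gcongr
  -- properties of the members
  have hmem : ∀ x ∈ T, 4 + x.1 * x.2 ∈ Icc 6 X ∧ x.1.Prime ∧
      w ≤ ((4 + x.1 * x.2 : ℕ) : ℝ) - f (4 + x.1 * x.2) := by
    intro x hx
    rw [hT, mem_sigma] at hx
    obtain ⟨hr, hm⟩ := hx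
    rw [hR, mem_filter, mem_Ioc] at hr
    obtain ⟨⟨hr1, hr2⟩, hrp⟩ := hr
    unfold IS at hm
    rw [mem_filter, mem_Ioc] at hm
    obtain ⟨⟨hm1, hm2⟩, hm3⟩ := hm
    set r := x.1
    set m := x.2
    have hrm : r * m ≤ 2 * z * (2 * Y) := Nat.mul_le_mul hr2 hm2
    have hrm2 : 7 * r ≤ r * m := by nlinarith
    have hN6 : 6 ≤ 4 + r * m := by omega
    have hNX : 4 + r * m ≤ X := by nlinarith
    refine ⟨by rw [mem_Icc]; exact ⟨hN6, hNX⟩, hrp, ?_⟩
    have hbig : ∀ q : ℕ, q.Prime → (q ∣ r * m ∨ q ∣ r * m + 2 ∨ q ∣ r * m + 6) → ⌊w⌋₊ < q := by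
      intro q hq hdiv
      by_contra hcon
      push Not at hcon
      have hqw : (q : ℝ) ≤ w := by
        have h1 : (q : ℝ) ≤ ⌊w⌋₊ := by exact_mod_cast hcon
        exact h1.trans (Nat.floor_le hw0.le)
      have hnot := hm3 q hq hqw
      apply hnot
      unfold ZR
      rw [mem_filter, mem_range]
      refine ⟨Nat.mod_lt _ hq.pos, ?_⟩
      have hcong : ∀ k : ℕ, q ∣ r * m + k → q ∣ r * (m % q) + k := by
        intro k hk
        have h1 : r * (m % q) + k ≡ r * m + k [MOD q] :=
          Nat.ModEq.add_right _ (Nat.ModEq.mul_left _ (Nat.mod_modEq m q))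
        exact (Nat.ModEq.dvd_iff h1 dvd_rfl).mpr hk
      rcases hdiv with h | h | h
      · left
        rcases (Nat.Prime.dvd_mul hq).mp h with h1 | h1
        · have h2 := (Nat.prime_dvd_prime_iff_eq hq hrp).mp h1
          have h3 : (r : ℝ) ≤ z := by
            rw [← h2]
            exact hqw.trans hYz
          have h4 : r ≤ z := by exact_mod_cast h3
          omega
        · rw [Nat.mod_eq_zero_of_dvd h1]
          exact dvd_zero q
      · right; left; exact hcong 2 h
      · right; right; exact hcong 6 h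
    have e1 : 4 + r * m - 4 = r * m := by omega
    have e2 : 4 + r * m - 2 = r * m + 2 := by omega
    have e3 : 4 + r * m + 2 = r * m + 6 := by omega
    have hfirst := tri_first hrec (N := 4 + r * m) (r := r) (z := ⌊w⌋₊) hN6 hrp
      (by rw [e1]; exact dvd_mul_right r m) (by omega) (by rw [e1, e2, e3]; exact hbig)
    have h1 : w ≤ ⌊w⌋₊ + 1 := (Nat.lt_floor_add_one w).le
    have h2 : ((f (4 + r * m) + ⌊w⌋₊ + 1 : ℕ) : ℝ) ≤ ((4 + r * m : ℕ) : ℝ) := by exact_mod_cast hfirst
    push_cast at h2 ⊢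
    linarith
  -- nonnegative terms
  have hterm : ∀ N ∈ Icc 6 X, (0 : ℝ) ≤ (N : ℝ) - f N := by
    intro N hN
    have h1 := hrec.lt (mem_Icc.mp hN).1
    have h2 : ((f N + 5 : ℕ) : ℝ) ≤ N := by exact_mod_cast h1
    push_cast at h2
    linarith
  have hfib : ∀ N ∈ Icc 6 X, ((T.filter (fun x => 4 + x.1 * x.2 = N)).card : ℝ) ≤
      Real.log X / Real.log 2 := by
    intro N hN
    rw [mem_Icc] at hN
    have h1 : (T.filter (fun x => 4 + x.1 * x.2 = N)).card ≤ (N - 4).primeFactors.card := by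
      apply card_le_card_of_injOn (fun x => x.1)
      · intro x hx
        rw [mem_coe, mem_filter] at hx
        rw [mem_coe, Nat.mem_primeFactors]
        have hx2 := hx.2
        refine ⟨(hmem x hx.1).2.1, ⟨x.2, ?_⟩, by omega⟩
        show N - 4 = x.1 * x.2
        omega
      · intro x hx y hy hxy
        rw [mem_coe, mem_filter] at hx hy
        simp only at hxy
        have h2 : x.1 * x.2 = x.1 * y.2 := by
          have e1 := hx.2
          have e2 := hy.2
          rw [← hxy] at e2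
          omega
        have h3 := Nat.eq_of_mul_eq_mul_left (hmem x hx.1).2.1.pos h2
        rcases x with ⟨x1, x2⟩
        rcases y with ⟨y1, y2⟩
        simp only at hxy h3
        rw [hxy, h3]
    have h2 := card_primeFactors_le (N - 4) (by omega)
    have h3 : Real.log ((N - 4 : ℕ) : ℝ) ≤ Real.log X := by
      apply Real.log_le_log
      · exact_mod_cast (by omega : 0 < N - 4)
      · exact_mod_cast (by omega : N - 4 ≤ X)
    rw [le_div_iff₀ hlog2]
    have h4 : ((T.filter (fun x => 4 + x.1 * x.2 = N)).card : ℝ) ≤ (N - 4).primeFactors.card := by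
      exact_mod_cast h1
    nlinarith
  -- double counting
  have hsum : (T.card : ℝ) * w ≤ Real.log X / Real.log 2 * ∑ N ∈ Icc 6 X, ((N : ℝ) - f N) := by
    calc (T.card : ℝ) * w = ∑ x ∈ T, w := by rw [sum_const, nsmul_eq_mul]
      _ ≤ ∑ x ∈ T, (((4 + x.1 * x.2 : ℕ) : ℝ) - f (4 + x.1 * x.2)) :=
          sum_le_sum fun x hx => (hmem x hx).2.2
      _ = ∑ N ∈ Icc 6 X, ∑ x ∈ T.filter (fun x => 4 + x.1 * x.2 = N),
            (((4 + x.1 * x.2 : ℕ) : ℝ) - f (4 + x.1 * x.2)) :=
          (sum_fiberwise_of_maps_to (fun x hx => (hmem x hx).1) _).symm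
      _ ≤ ∑ N ∈ Icc 6 X, Real.log X / Real.log 2 * ((N : ℝ) - f N) := by
          apply sum_le_sum
          intro N hN
          have h1 : ∑ x ∈ T.filter (fun x => 4 + x.1 * x.2 = N),
              (((4 + x.1 * x.2 : ℕ) : ℝ) - f (4 + x.1 * x.2)) =
              ((T.filter (fun x => 4 + x.1 * x.2 = N)).card : ℝ) * ((N : ℝ) - f N) := by
            rw [sum_congr rfl (g := fun _ => (N : ℝ) - f N), sum_const, nsmul_eq_mul]
            intro x hx
            rw [(mem_filter.mp hx).2]
          rw [h1]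
          exact mul_le_mul_of_nonneg_right (hfib N hN) (hterm N hN)
      _ = _ := by rw [mul_sum]
  have h1 : (z : ℝ) / (2 * Real.log X) * (c0 * (Y * (c1 / Real.log X ^ 3))) * w ≤
      Real.log X / Real.log 2 * ∑ N ∈ Icc 6 X, ((N : ℝ) - f N) :=
    (mul_le_mul_of_nonneg_right hTc hw0.le).trans hsum
  have h2 := mul_le_mul_of_nonneg_left h1 (by positivity : 0 ≤ Real.log 2 / Real.log X)
  calc c0 * c1 * Real.log 2 / 2 * (z * Y * w / Real.log X ^ 5)
      = Real.log 2 / Real.log X * ((z : ℝ) / (2 * Real.log X) * (c0 * (Y * (c1 / Real.log X ^ 3))) * w) := by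
        field_simp
    _ ≤ _ := h2
    _ = _ := by field_simp

end Pool.Agent.Q205.GC
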