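import Pool.Agent.Q205.GC.Tri3

/-!
# The mean loss of the recursion for prime triples is larger than a power
-/

set_option autoImplicit false

namespace Pool.Agent.Q205.GC

open Finset

lemma tri_mean_pow : ∃ δ c : ℝ, 0 < δ ∧ 0 < c ∧ ∀ (a : ℕ → ℕ → ℤ) (f : ℕ → ℕ), RecT a f →
    ∀ X : ℕ, 6 ≤ X → c * (X : ℝ) ^ (1 + δ) ≤ ∑ N ∈ Icc 6 X, ((N : ℝ) - f N) := by
  obtain ⟨t, ht, c0, hc0, Y₀, hsc⟩ := tri_scale
  have htr : (1 : ℝ) ≤ t := by exact_mod_cast ht
  set e : ℝ := 1 / ((t : ℝ) + 1) with he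
  have he0 : 0 < e := by positivity
  have he1 : e ≤ 1 := by
    rw [he, div_le_one (by positivity)]
    linarith
  set ε : ℝ := e / 20 with hε
  have hε0 : 0 < ε := by positivity
  set U : ℝ := 2 * Y₀ + 8 with hU
  have hU0 : 8 ≤ U := by
    have : (0 : ℝ) ≤ Y₀ := Nat.cast_nonneg _
    linarith
  set X₀ : ℝ := 20 * U ^ (t + 1) with hX₀
  have hX₀0 : 0 < X₀ := by positivity
  refine ⟨e / 2, min (c0 / 3200 * ε ^ 5) (1 / (6 * X₀ ^ (e / 2))), by positivity, by positivity, ?_⟩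
  intro a f hrec X hX
  have hX6 : (6 : ℝ) ≤ X := by exact_mod_cast hX
  have hXp : (0 : ℝ) < X := by linarith
  rcases lt_or_ge (X : ℝ) X₀ with hlt | hge
  · have hterm : ∀ N ∈ Icc 6 X, (1 : ℝ) ≤ (N : ℝ) - f N := by
      intro N hN
      have h1 := hrec.lt (mem_Icc.mp hN).1
      have h2 : ((f N + 5 : ℕ) : ℝ) ≤ N := by exact_mod_cast h1
      push_cast at h2
      linarith
    have h1 : ∑ N ∈ Icc 6 X, (1 : ℝ) ≤ ∑ N ∈ Icc 6 X, ((N : ℝ) - f N) := sum_le_sum hterm
    rw [sum_const, Nat.card_Icc, nsmul_eq_mul, mul_one] at h1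
    have h2 : (X : ℝ) / 6 ≤ ((X + 1 - 6 : ℕ) : ℝ) := by
      rw [Nat.cast_sub (by omega)]
      push_cast
      linarith
    have h3 : (X : ℝ) ^ (e / 2) ≤ X₀ ^ (e / 2) := Real.rpow_le_rpow hXp.le hlt.le (by positivity)
    have h4 : (X : ℝ) ^ (1 + e / 2) = X * (X : ℝ) ^ (e / 2) := by
      rw [Real.rpow_add hXp, Real.rpow_one]
    have h5 : 0 < X₀ ^ (e / 2) := by positivity
    calc min (c0 / 3200 * ε ^ 5) (1 / (6 * X₀ ^ (e / 2))) * (X : ℝ) ^ (1 + e / 2)
        ≤ 1 / (6 * X₀ ^ (e / 2)) * (X * X₀ ^ (e / 2)) := by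
          rw [h4]
          apply mul_le_mul (min_le_right _ _) _ (by positivity) (by positivity)
          gcongr
      _ = (X : ℝ) / 6 := by field_simp
      _ ≤ _ := h2.trans h1
  · -- large X
    set u : ℝ := ((X : ℝ) / 20) ^ e with hu
    have hXd : 0 < (X : ℝ) / 20 := by positivity
    have hupow : u ^ (t + 1) = X / 20 := by
      rw [hu, ← Real.rpow_natCast, ← Real.rpow_mul hXd.le]
      have : e * ((t + 1 : ℕ) : ℝ) = 1 := by
        rw [he]
        push_cast
        field_simp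
      rw [this, Real.rpow_one]
    have hu0 : 0 < u := by positivity
    have huU : U ≤ u := by
      have h1 : U ^ (t + 1) ≤ u ^ (t + 1) := by
        rw [hupow, le_div_iff₀ (by norm_num)]
        linarith
      exact le_of_pow_le_pow_left₀ (by omega) hu0.le h1
    have hu8 : 8 ≤ u := hU0.trans huU
    have hut : u ≤ u ^ t := by
      calc u = u ^ 1 := (pow_one u).symm
        _ ≤ u ^ t := pow_le_pow_right₀ (by linarith) ht
    set Y : ℕ := ⌊u ^ t⌋₊ with hY
    have hY1 : (Y : ℝ) ≤ u ^ t := Nat.floor_le (by positivity)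
    have hY2 : u ^ t < Y + 1 := Nat.lt_floor_add_one _
    have hY3 : u ^ t / 2 ≤ Y := by linarith
    have hYpos : (0 : ℝ) < Y := by linarith
    have hY₀Y : Y₀ ≤ Y := by
      have : (Y₀ : ℝ) ≤ Y := by linarith
      exact_mod_cast this
    set w : ℝ := (Y : ℝ) ^ (1 / (t : ℝ)) with hw
    have hw1 : w ≤ u := by
      calc w ≤ (u ^ t) ^ (1 / (t : ℝ)) := Real.rpow_le_rpow hYpos.le hY1 (by positivity)
        _ = u := by
          rw [← Real.rpow_natCast, ← Real.rpow_mul hu0.le]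
          have : (t : ℝ) * (1 / (t : ℝ)) = 1 := by field_simp
          rw [this, Real.rpow_one]
    have hw2 : u / 2 ≤ w := by
      have h1 : (u / 2) ^ t ≤ Y := by
        refine le_trans ?_ hY3
        rw [div_pow]
        have h2 : (2 : ℝ) ≤ 2 ^ t := by
          calc (2 : ℝ) = 2 ^ 1 := (pow_one 2).symm
            _ ≤ 2 ^ t := pow_le_pow_right₀ (by norm_num) ht
        gcongr
      calc u / 2 = ((u / 2) ^ t) ^ (1 / (t : ℝ)) := by
            rw [← Real.rpow_natCast, ← Real.rpow_mul (by positivity)]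
            have : (t : ℝ) * (1 / (t : ℝ)) = 1 := by field_simp
            rw [this, Real.rpow_one]
        _ ≤ w := Real.rpow_le_rpow (by positivity) h1 (by positivity)
    set z : ℕ := ⌈w⌉₊ with hz
    have hz1 : w ≤ z := Nat.le_ceil w
    have hz2 : (z : ℝ) < w + 1 := Nat.ceil_lt_add_one (by linarith)
    have hz3 : (z : ℝ) ≤ 2 * u := by linarith
    have hY₀z : Y₀ ≤ z := by
      have : (Y₀ : ℝ) ≤ z := by linarith
      exact_mod_cast this
    have hXbound : 4 + 4 * (z * Y) ≤ X := by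
      have h1 : (z : ℝ) * Y ≤ 2 * u * u ^ t := by gcongr
      have h2 : 2 * u * u ^ t = 2 * (X / 20) := by
        rw [← hupow]
        ring
      have h160 : (160 : ℝ) ≤ X := by
        have h4 : u ^ (t + 1) = u ^ t * u := pow_succ u t
        have h5 : 8 * 1 ≤ u ^ t * u := by nlinarith
        rw [h4] at hupow
        linarith
      have h3 : (4 : ℝ) + 4 * (z * Y) ≤ X := by linarith
      exact_mod_cast h3
    have hmain := hsc a f hrec Y z hY₀Y hY₀z hz1 X hXbound
    refine le_trans ?_ hmain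
    have hXr : (1 : ℝ) < X := by linarith
    have hlX := Real.log_pos hXr
    have h1 : (X : ℝ) / 160 * u ≤ z * Y * w := by
      calc (X : ℝ) / 160 * u = (u / 2) * (u ^ t / 2) * (u / 2) := by
            have : (X : ℝ) = 20 * u ^ (t + 1) := by rw [hupow]; ring
            rw [this]
            ring
        _ ≤ z * Y * w := by
            have : u / 2 ≤ z := hw2.trans hz1
            gcongr
    have hlog : Real.log X ^ 5 ≤ (X : ℝ) ^ (e / 4) / ε ^ 5 := by
      have h2 := Real.log_le_rpow_div hXp.le hε0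
      calc Real.log X ^ 5 ≤ ((X : ℝ) ^ ε / ε) ^ 5 := by gcongr
        _ = ((X : ℝ) ^ ε) ^ 5 / ε ^ 5 := by rw [div_pow]
        _ = (X : ℝ) ^ (e / 4) / ε ^ 5 := by
          rw [← Real.rpow_natCast, ← Real.rpow_mul hXp.le]
          congr 2
          rw [hε]
          push_cast
          ring
    have hu20 : (X : ℝ) ^ e / 20 ≤ u := by
      rw [hu, Real.div_rpow hXp.le (by norm_num)]
      have h2 : (20 : ℝ) ^ e ≤ 20 := by
        calc (20 : ℝ) ^ e ≤ 20 ^ (1 : ℝ) := Real.rpow_le_rpow_of_exponent_le (by norm_num) he1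
          _ = 20 := Real.rpow_one _
      gcongr
    have h5 : (X : ℝ) ^ (1 + e / 2) * (X : ℝ) ^ (e / 4) ≤ X * (X : ℝ) ^ e := by
      rw [← Real.rpow_add hXp]
      calc (X : ℝ) ^ (1 + e / 2 + e / 4) ≤ (X : ℝ) ^ (1 + e) :=
            Real.rpow_le_rpow_of_exponent_le hXr.le (by linarith)
        _ = X * (X : ℝ) ^ e := by rw [Real.rpow_add hXp, Real.rpow_one]
    calc min (c0 / 3200 * ε ^ 5) (1 / (6 * X₀ ^ (e / 2))) * (X : ℝ) ^ (1 + e / 2)
        ≤ c0 / 3200 * ε ^ 5 * (X : ℝ) ^ (1 + e / 2) := by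
          apply mul_le_mul_of_nonneg_right (min_le_left _ _) (by positivity)
      _ ≤ c0 * ((X : ℝ) / 160 * ((X : ℝ) ^ e / 20) / ((X : ℝ) ^ (e / 4) / ε ^ 5)) := by
          have hp : 0 < (X : ℝ) ^ (e / 4) := by positivity
          have e1 : c0 * ((X : ℝ) / 160 * ((X : ℝ) ^ e / 20) / ((X : ℝ) ^ (e / 4) / ε ^ 5)) =
              c0 / 3200 * ε ^ 5 * ((X * (X : ℝ) ^ e) / (X : ℝ) ^ (e / 4)) := by
            field_simp
            ring
          rw [e1]
          have h6 : (X : ℝ) ^ (1 + e / 2) ≤ (X * (X : ℝ) ^ e) / (X : ℝ) ^ (e / 4) := by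
            rw [le_div_iff₀ hp]
            exact h5
          gcongr
      _ ≤ c0 * (z * Y * w / Real.log X ^ 5) := by
          apply mul_le_mul_of_nonneg_left _ hc0.le
          have h7 : (X : ℝ) / 160 * ((X : ℝ) ^ e / 20) ≤ z * Y * w :=
            (mul_le_mul_of_nonneg_left hu20 (by positivity)).trans h1
          have h8 : 0 < Real.log X ^ 5 := by positivity
          gcongr

end Pool.Agent.Q205.GC
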