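import Pool.Agent.Q205.GC.TriW

/-!
# Few `N` have a small loss `N - f(N)`
-/

set_option autoImplicit false

namespace Pool.Agent.Q205.GC

open Finset

/-- small terms against `X / log³ X` -/
lemma small_terms3 {X : ℝ} (hX : 2 ≤ X) : Real.log X ^ 5 ≤ 32768 * X ∧
    Real.log X ^ 3 * √X ≤ 512 * X ∧ Real.log X ^ 3 ≤ 512 * X := by
  have hX0 : 0 < X := by linarith
  have hX1 : 1 ≤ X := by linarith
  set w := X ^ (1 / 8 : ℝ) with hw
  have hw1 : 1 ≤ w := Real.one_le_rpow hX1 (by norm_num)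
  have h8 : w ^ 8 = X := by
    rw [hw, ← Real.rpow_natCast, ← Real.rpow_mul hX0.le]
    norm_num
  have h4 : w ^ 4 = √X := by
    have e : X = (w ^ 4) ^ 2 := by rw [← h8]; ring
    rw [e, Real.sqrt_sq (by positivity)]
  have hl0 : 0 ≤ Real.log X := Real.log_nonneg hX1
  have hl : Real.log X ≤ 8 * w := by
    have := Real.log_le_rpow_div hX0.le (by norm_num : (0 : ℝ) < 1 / 8)
    rw [← hw] at this
    linarith
  have h3 : Real.log X ^ 3 ≤ 512 * w ^ 3 := by
    calc Real.log X ^ 3 ≤ (8 * w) ^ 3 := by gcongr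
      _ = _ := by ring
  have hw38 : w ^ 3 ≤ w ^ 8 := pow_le_pow_right₀ hw1 (by norm_num)
  have hw58 : w ^ 5 ≤ w ^ 8 := pow_le_pow_right₀ hw1 (by norm_num)
  have hw78 : w ^ 7 ≤ w ^ 8 := pow_le_pow_right₀ hw1 (by norm_num)
  refine ⟨?_, ?_, ?_⟩
  · calc Real.log X ^ 5 ≤ (8 * w) ^ 5 := by gcongr
      _ = 32768 * w ^ 5 := by ring
      _ ≤ 32768 * w ^ 8 := by linarith
      _ = 32768 * X := by rw [h8]
  · rw [← h4]
    calc Real.log X ^ 3 * w ^ 4 ≤ 512 * w ^ 3 * w ^ 4 := by gcongr
      _ = 512 * w ^ 7 := by ring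
      _ ≤ 512 * w ^ 8 := by linarith
      _ = 512 * X := by rw [h8]
  · calc Real.log X ^ 3 ≤ 512 * w ^ 3 := h3
      _ ≤ 512 * w ^ 8 := by linarith
      _ = 512 * X := by rw [h8]

/-- the logarithm of `10 K` -/
lemma log_ten {K : ℕ} (hK : 2 ≤ K) : Real.log ((10 * K : ℕ) : ℝ) ≤ 5 * Real.log K := by
  have h1 : 10 * K ≤ K ^ 5 := by
    have h2 : 2 ^ 4 ≤ K ^ 4 := Nat.pow_le_pow_left hK 4
    calc 10 * K ≤ K ^ 4 * K := by nlinarith
      _ = K ^ 5 := by ring
  have h3 : ((10 * K : ℕ) : ℝ) ≤ (K : ℝ) ^ 5 := by exact_mod_cast h1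
  have h4 := Real.log_le_log (by exact_mod_cast (by omega : 0 < 10 * K)) h3
  rw [Real.log_pow] at h4
  exact_mod_cast h4

/-- **Few `N` have a small loss** -/
theorem tri_small : ∃ c C : ℝ, 0 < c ∧ 0 < C ∧ ∀ (a : ℕ → ℕ → ℤ) (f : ℕ → ℕ), RecT a f →
    ∀ A X K : ℕ, 2 ≤ X → 2 ≤ K → (K : ℝ) * Real.log K ≤ c * Real.log X ^ 2 →
      (((Ioc A (A + X)).filter (fun N => 6 ≤ N ∧ N ≤ f N + K)).card : ℝ) ≤
      C * (X * (Real.log K / Real.log X) ^ 3) := by
  obtain ⟨c, C, X0, hc, hC, hmain⟩ := walk_final 3 6 (by norm_num)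
  obtain ⟨N₀, hN₀⟩ := Pool.Agent.Results.MP_3f8e47_nt.ThreeQuarters.result.2 (1 / 8) (by norm_num)
  have hl2 : (1 / 2 : ℝ) < Real.log 2 := by
    have := Real.log_two_gt_d9
    linarith
  refine ⟨c / 50, (Real.log X0 / Real.log 2) ^ 3 + 125 * C + 8 * (512 * N₀ + 262144 * c + 512),
    by positivity, by positivity, ?_⟩
  intro a f hrec A X K hX hK hKc
  have hX2 : (2 : ℝ) ≤ X := by exact_mod_cast hX
  have hK2 : (2 : ℝ) ≤ K := by exact_mod_cast hK
  have hX0' : (0 : ℝ) < X := by linarith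
  set x := Real.log X with hx
  have hx0 : 0 < x := Real.log_pos (by linarith)
  have hlK : Real.log 2 ≤ Real.log K := Real.log_le_log (by norm_num) hK2
  have hlK0 : 0 < Real.log K := by linarith
  set q : ℝ := X * (Real.log K / x) ^ 3 with hq
  have hq0 : 0 < q := by positivity
  set S := (Ioc A (A + X)).filter (fun N => 6 ≤ N ∧ N ≤ f N + K) with hS
  rcases Nat.lt_or_ge X X0 with hlt | hge
  · have h1 : (S.card : ℝ) ≤ X := by
      have : S.card ≤ X := by
        refine (card_filter_le _ _).trans ?_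
        rw [Nat.card_Ioc]
        omega
      exact_mod_cast this
    have h2 : x ≤ Real.log X0 := Real.log_le_log hX0' (by exact_mod_cast hlt.le)
    have h3 : 1 ≤ (Real.log X0 / Real.log 2) * (Real.log K / x) := by
      rw [div_mul_div_comm, le_div_iff₀ (by positivity), one_mul, mul_comm]
      apply mul_le_mul h2 hlK (by linarith) (by linarith)
    have h4 : (X : ℝ) ≤ (Real.log X0 / Real.log 2) ^ 3 * q := by
      calc (X : ℝ) = X * 1 := by ring
        _ ≤ X * ((Real.log X0 / Real.log 2) * (Real.log K / x)) ^ 3 := by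
            apply mul_le_mul_of_nonneg_left _ hX0'.le
            exact one_le_pow₀ h3
        _ = _ := by rw [hq]; ring
    have h5 : 0 ≤ (125 * C + 8 * (512 * N₀ + 262144 * c + 512)) * q := by positivity
    linarith
  · set W : ℕ := N₀ + 8 * K + Nat.sqrt X with hW
    set B := S.filter (fun N => W < N) with hB
    have hBN : ∀ N ∈ B, A < N ∧ N ≤ A + X ∧ 6 ≤ N ∧ N ≤ f N + K ∧ W < N := by
      intro N hN
      rw [hB, mem_filter, hS, mem_filter, mem_Ioc] at hN
      obtain ⟨⟨⟨h1, h2⟩, h3, h5⟩, h6⟩ := hN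
      exact ⟨h1, h2, h3, h5, h6⟩
    have hend : ∀ N ∈ B, walk tm tr N (6 * K) = N - 5 - f N ∧ f N + 5 ≤ N ∧ (f N + 1).Prime ∧
        (f N + 3).Prime ∧ (f N + 7).Prime := by
      intro N hN
      obtain ⟨h1, h2, h3, h5, h6⟩ := hBN N hN
      have hlt := hrec.lt h3
      refine ⟨tri_end hrec h3 (6 * K) (by omega) (by omega), hlt, ?_⟩
      have h7 : (3 / 4 + 1 / 8 : ℝ) * N ≤ f N := by
        have e1 : (N : ℝ) ≤ f N + K := by exact_mod_cast h5
        have e2 : (8 * K : ℝ) ≤ N := by exact_mod_cast (by omega : 8 * K ≤ N)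
        linarith
      exact hN₀ N (by omega) (a N) (hrec.one N h3) (hrec.step N h3) (f N) (hrec.zero N h3) h7
    have hlL := log_ten hK
    have hmainB := hmain tm tr ts (6 * K) (10 * K) K A X hge (by omega) (by omega) (by omega)
      (by
        have h1 : ((10 * K : ℕ) : ℝ) * Real.log ((10 * K : ℕ) : ℝ) ≤ (10 * K) * (5 * Real.log K) := by
          push_cast at hlL ⊢
          gcongr
        have h2 : (10 * (K : ℝ)) * (5 * Real.log K) = 50 * (K * Real.log K) := by ring
        linarith) B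
      (fun N hN => ⟨(hBN N hN).1, (hBN N hN).2.1⟩)
      (fun N hN n hn => by
        refine ⟨tm_pos _ _, ?_⟩
        unfold tm
        have := b_le6 (n + 2)
        omega)
      (fun N hN => by
        obtain ⟨h1, h2, h3, h5, h6⟩ := hBN N hN
        obtain ⟨e1, e2, e3, e4, e5⟩ := hend N hN
        rw [e1]
        omega)
      (fun N hN p hp hpX i => by
        obtain ⟨h1, h2, h3, h5, h6⟩ := hBN N hN
        obtain ⟨e1, e2, e3, e4, e5⟩ := hend N hN
        have hps : p ≤ Nat.sqrt X := by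
          rw [Nat.le_sqrt]
          rwa [pow_two] at hpX
        rw [e1]
        unfold ts
        intro hdvd
        split_ifs at hdvd with hi hj
        · have e6 : (N : ℤ) - (((N - 5 - f N : ℕ) : ℤ) + 4) = ((f N + 1 : ℕ) : ℤ) := by omega
          rw [e6, Int.natCast_dvd_natCast, Nat.prime_dvd_prime_iff_eq hp e3] at hdvd
          omega
        · have e6 : (N : ℤ) - (((N - 5 - f N : ℕ) : ℤ) + 2) = ((f N + 3 : ℕ) : ℤ) := by omega
          rw [e6, Int.natCast_dvd_natCast, Nat.prime_dvd_prime_iff_eq hp e4] at hdvd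
          omega
        · have e6 : (N : ℤ) - (((N - 5 - f N : ℕ) : ℤ) - 2) = ((f N + 7 : ℕ) : ℤ) := by omega
          rw [e6, Int.natCast_dvd_natCast, Nat.prime_dvd_prime_iff_eq hp e5] at hdvd
          omega)
      (fun N hN p hp hLp i j hij => by
        have hkey : ∀ k : ℤ, 0 < k → k ≤ 6 → ¬ (p : ℤ) ∣ k := by
          intro k hk0 hk6 hd
          have := Int.le_of_dvd hk0 hd
          omega
        have hkey2 : ∀ k : ℤ, 0 < k → k ≤ 6 → ¬ (p : ℤ) ∣ -k := by
          intro k hk0 hk6 hd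
          exact hkey k hk0 hk6 ((dvd_neg).mp hd)
        generalize walk tm tr N (6 * K) = w
        intro hdvd
        have hcases : ts i w - ts j w = 2 ∨ ts i w - ts j w = 4 ∨ ts i w - ts j w = 6 ∨
            ts i w - ts j w = -2 ∨ ts i w - ts j w = -4 ∨ ts i w - ts j w = -6 := by
          unfold ts
          fin_cases i <;> fin_cases j <;> simp at hij ⊢ <;> omega
        rcases hcases with h | h | h | h | h | h <;> rw [h] at hdvd
        · exact hkey 2 (by norm_num) (by norm_num) hdvd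
        · exact hkey 4 (by norm_num) (by norm_num) hdvd
        · exact hkey 6 (by norm_num) (by norm_num) hdvd
        · exact hkey2 2 (by norm_num) (by norm_num) hdvd
        · exact hkey2 4 (by norm_num) (by norm_num) hdvd
        · exact hkey2 6 (by norm_num) (by norm_num) hdvd)
      (fun N hN p hp hpL => by
        have h7 := tri_queries N (6 * K) p hp.pos
        have h8 : (6 * K + 7) / p ≤ (10 * K) / p := Nat.div_le_div_right (by omega)
        have hp0 : (0 : ℝ) < p := by exact_mod_cast hp.pos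
        have h9 : (((10 * K) / p : ℕ) : ℝ) ≤ ((10 * K : ℕ) : ℝ) / p := Nat.cast_div_le
        have h10 : (1 : ℝ) ≤ ((10 * K : ℕ) : ℝ) / p := by
          rw [le_div_iff₀ hp0, one_mul]
          exact_mod_cast hpL
        have h11 : ((((range (6 * K)).filter (fun n => p ∣ tm n (walk tm tr N n))).card + 3 : ℕ) : ℝ) ≤
            3 * (((10 * K) / p : ℕ) : ℝ) + 3 := by
          exact_mod_cast (by omega : ((range (6 * K)).filter (fun n => p ∣ tm n (walk tm tr N n))).card + 3 ≤
            3 * ((10 * K) / p) + 3)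
        rw [mul_div_assoc]
        linarith)
    have hBcard : (B.card : ℝ) ≤ 125 * C * q := by
      refine hmainB.trans ?_
      have h1 : (Real.log ((10 * K : ℕ) : ℝ) / x) ^ 3 ≤ (5 * Real.log K / x) ^ 3 := by
        have h0 : 0 ≤ Real.log ((10 * K : ℕ) : ℝ) := Real.log_natCast_nonneg _
        gcongr
      calc C * (X * (Real.log ((10 * K : ℕ) : ℝ) / x) ^ 3) ≤ C * (X * (5 * Real.log K / x) ^ 3) := by gcongr
        _ = 125 * C * q := by rw [hq]; ring
    have hsub : S ⊆ B ∪ Icc 1 W := by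
      intro N hN
      rw [mem_union]
      rcases Nat.lt_or_ge W N with h | h
      · left
        rw [hB, mem_filter]
        exact ⟨hN, h⟩
      · right
        rw [hS, mem_filter] at hN
        rw [mem_Icc]
        omega
    have hcard : (S.card : ℝ) ≤ B.card + W := by
      have h1 := (card_le_card hsub).trans (card_union_le _ _)
      rw [Nat.card_Icc, Nat.add_sub_cancel] at h1
      exact_mod_cast h1
    -- the small integers
    obtain ⟨hs1, hs2, hs3⟩ := small_terms3 hX2
    rw [← hx] at hs1 hs2 hs3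
    have hqx : (X : ℝ) / x ^ 3 ≤ 8 * q := by
      have h1 : (1 / 8 : ℝ) ≤ Real.log K ^ 3 := by
        have h0 : (1 / 2 : ℝ) ≤ Real.log K := by linarith
        calc (1 / 8 : ℝ) = (1 / 2) ^ 3 := by norm_num
          _ ≤ Real.log K ^ 3 := by gcongr
      have e : 8 * q = (X / x ^ 3) * (8 * Real.log K ^ 3) := by
        rw [hq]
        field_simp
      rw [e]
      have h2 : 0 < (X : ℝ) / x ^ 3 := by positivity
      nlinarith
    have hsqrt : (Nat.sqrt X : ℝ) ≤ √X := Real.nat_sqrt_le_real_sqrt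
    have hKx : (K : ℝ) ≤ c * x ^ 2 := by
      have h1 : (K : ℝ) * (1 / 2) ≤ K * Real.log K := by
        apply mul_le_mul_of_nonneg_left _ (by linarith)
        linarith
      have h2 : 0 ≤ c * x ^ 2 := by positivity
      linarith
    have hWr : (W : ℝ) ≤ (512 * N₀ + 262144 * c + 512) * (X / x ^ 3) := by
      have hN0 : (0 : ℝ) ≤ N₀ := Nat.cast_nonneg _
      have h1 : (W : ℝ) = N₀ + 8 * K + Nat.sqrt X := by rw [hW]; push_cast; ring
      rw [h1, mul_div_assoc', le_div_iff₀ (by positivity)]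
      have h2 : (N₀ : ℝ) * x ^ 3 ≤ N₀ * (512 * X) := by gcongr
      have h3 : (K : ℝ) * x ^ 3 ≤ 32768 * c * X := by
        calc (K : ℝ) * x ^ 3 ≤ (c * x ^ 2) * x ^ 3 := by gcongr
          _ = c * x ^ 5 := by ring
          _ ≤ c * (32768 * X) := by gcongr
          _ = _ := by ring
      have h4 : (Nat.sqrt X : ℝ) * x ^ 3 ≤ 512 * X := by
        calc (Nat.sqrt X : ℝ) * x ^ 3 ≤ √X * x ^ 3 := by gcongr
          _ = x ^ 3 * √X := by ring
          _ ≤ 512 * X := hs2
      nlinarith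
    have hWq : (W : ℝ) ≤ 8 * (512 * N₀ + 262144 * c + 512) * q := by
      refine hWr.trans ?_
      calc (512 * (N₀ : ℝ) + 262144 * c + 512) * (X / x ^ 3) ≤ (512 * N₀ + 262144 * c + 512) * (8 * q) := by
            gcongr
        _ = _ := by ring
    have h5 : 0 ≤ (Real.log X0 / Real.log 2) ^ 3 * q := by positivity
    linarith

end Pool.Agent.Q205.GC
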