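import Pool.Agent.Q205.GC.Par3
import Pool.Agent.Q205.GC.Jump
import Pool.Agent.Q205.GC.GoldC
import Pool.Agent.Q205.GC.Tri2

/-!
# The recursion for prime triples as a walk, and few `N` with a small loss `N - f(N)`
-/

set_option autoImplicit false

namespace Pool.Agent.Q205.GC

open Finset

open Pool.Agent.Results.MP_3f8e47_nt.LongLife (b b_add)

/-- the moduli -/
def tm (j _c : ℕ) : ℕ := j + 2 + b (j + 2)

/-- the residues -/
def tr (j c : ℕ) : ℤ := (c : ℤ) + 4 - b (j + 2)

/-- the three end numbers are `N - (c + 4)`, `N - (c + 2)`, `N - (c - 2)` -/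
def ts (i : Fin 3) (c : ℕ) : ℤ := if i = 0 then (c : ℤ) + 4 else if i = 1 then (c : ℤ) + 2 else (c : ℤ) - 2

lemma b_le6 (n : ℕ) : b n ≤ 6 := by
  unfold b
  split_ifs <;> omega

lemma tm_add (j t c : ℕ) : tm (j + 3 * t) c = tm j c + 3 * t := by
  unfold tm
  have h : b (j + 3 * t + 2) = b (j + 2) := by
    rw [show j + 3 * t + 2 = (j + 2) + 3 * t by ring]
    exact b_add _ _
  rw [h]
  omega

lemma tr_add (j t c : ℕ) : tr (j + 3 * t) c = tr j c := by
  unfold tr
  have h : b (j + 3 * t + 2) = b (j + 2) := by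
    rw [show j + 3 * t + 2 = (j + 2) + 3 * t by ring]
    exact b_add _ _
  rw [h]

lemma tm_pos (j c : ℕ) : 0 < tm j c := by
  unfold tm
  omega

lemma tri_walk {a : ℕ → ℕ → ℤ} {f : ℕ → ℕ} (h : RecT a f) {N : ℕ} (hN : 6 ≤ N) (j : ℕ) :
    j + 1 ≤ f N → a N (j + 1) = (N : ℤ) - 6 - j - walk tm tr N j := by
  induction j with
  | zero =>
    intro _
    rw [zero_add, h.one N hN]
    simp [walk]
  | succ j ih =>
    intro hj
    have h1 := ih (by omega)
    rw [h.step N hN (j + 1 + 1) (by omega), Nat.add_sub_cancel, h1, walk_succ]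
    set c := walk tm tr N j with hc
    set G := Int.gcd ((N : ℤ) - tr j c) (tm j c) with hG
    have hG0 : 0 < G := Int.gcd_pos_of_ne_zero_right _ (by have := tm_pos j c; omega)
    have e : Int.gcd ((N : ℤ) - 6 - j - c) ((j + 1 + 1 + b (j + 1 + 1) : ℕ) : ℤ) = G := by
      rw [hG]
      unfold tr tm
      have e1 : ((j + 1 + 1 + b (j + 1 + 1) : ℕ) : ℤ) = ((j + 2 + b (j + 2) : ℕ) : ℤ) := rfl
      have e2 : (N : ℤ) - 6 - j - c = ((N : ℤ) - ((c : ℤ) + 4 - b (j + 2))) +
          (-1) * ((j + 2 + b (j + 2) : ℕ) : ℤ) := by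
        push_cast
        ring
      rw [e1, e2, Int.gcd_add_mul_right_left]
    rw [e]
    push_cast [Nat.cast_sub (by omega : 1 ≤ G)]
    ring

/-- the end of the walk -/
lemma tri_end {a : ℕ → ℕ → ℤ} {f : ℕ → ℕ} (h : RecT a f) {N : ℕ} (hN : 6 ≤ N) (T : ℕ)
    (hT : 6 * (N - 5 - f N) ≤ T) (hTg : T + 1 ≤ f N) : walk tm tr N T = N - 5 - f N := by
  have hz := (h.zero N hN).1
  have hlt := h.lt hN
  have h1 := tri_walk h hN (f N - 1) (by omega)
  have e : f N - 1 + 1 = f N := by omega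
  rw [e, hz.2] at h1
  have h2 : walk tm tr N (f N - 1) = N - 5 - f N := by
    have h3 : ((f N - 1 : ℕ) : ℤ) = (f N : ℤ) - 1 := by omega
    rw [h3] at h1
    omega
  rw [walk_stable tm tr 3 (by norm_num) tm_add tr_add tm_pos N T (f N - 1) (by omega), h2]
  rw [h2]
  omega

lemma tri_queries (N T p : ℕ) (hp : 0 < p) :
    ((range T).filter (fun n => p ∣ tm n (walk tm tr N n))).card ≤ 3 * ((T + 7) / p) := by
  have h1 : (range T).filter (fun n => p ∣ tm n (walk tm tr N n)) ⊆
      ((range T).filter (fun n => p ∣ n + 2) ∪ (range T).filter (fun n => p ∣ n + 4)) ∪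
      (range T).filter (fun n => p ∣ n + 8) := by
    intro n hn
    rw [mem_filter] at hn
    obtain ⟨hn, hd⟩ := hn
    unfold tm b at hd
    rw [mem_union, mem_union, mem_filter, mem_filter, mem_filter]
    split_ifs at hd
    · exact Or.inl (Or.inr ⟨hn, hd⟩)
    · exact Or.inr ⟨hn, hd⟩
    · exact Or.inl (Or.inl ⟨hn, hd⟩)
  have hcount : ∀ k : ℕ, 2 ≤ k → k ≤ 8 → ((range T).filter (fun n => p ∣ n + k)).card ≤ (T + 7) / p := by
    intro k hk1 hk2
    apply count_strict (fun n => n + k) (fun a b hab => by simpa using hab) (fun n => by omega) _ _ _ hp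
    intro n hn
    rw [mem_range] at hn
    omega
  have h2 := hcount 2 (by norm_num) (by norm_num)
  have h3 := hcount 4 (by norm_num) (by norm_num)
  have h4 := hcount 8 (by norm_num) (by norm_num)
  have h5 := (card_le_card h1).trans ((card_union_le _ _).trans (Nat.add_le_add_right (card_union_le _ _) _))
  omega

end Pool.Agent.Q205.GC
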