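import Pool.Agent.Q205.GC.Box

/-!
# Walks given by gcds: the paths of length `T` and their boxes of residues
-/

set_option autoImplicit false

namespace Pool.Agent.Q205.GC

open Finset

/-- the walk: the state `c` changes to `c + gcd (N - r n c, m n c) - 1` at the step `n` -/
def walk (m : ℕ → ℕ → ℕ) (r : ℕ → ℕ → ℤ) (N : ℤ) : ℕ → ℕ
  | 0 => 0
  | n + 1 => walk m r N n + (Int.gcd (N - r n (walk m r N n)) (m n (walk m r N n)) - 1)

section

variable (m : ℕ → ℕ → ℕ) (r : ℕ → ℕ → ℤ)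

lemma walk_succ (N : ℤ) (n : ℕ) : walk m r N (n + 1) =
    walk m r N n + (Int.gcd (N - r n (walk m r N n)) (m n (walk m r N n)) - 1) := rfl

/-- comparison of two gcds -/
lemma gcd_dvd_of (L y M : ℕ) (hy : L < (y + 1) ^ 2)
    (hM : ∀ q k : ℕ, q.Prime → q ≤ y → q ^ k ≤ L → q ^ k ∣ M) (N N' : ℤ) (hN : (M : ℤ) ∣ N - N')
    (m0 : ℕ) (hm0 : 0 < m0) (hm1 : m0 ≤ L) (ρ : ℤ)
    (h : ∀ p : ℕ, p.Prime → y < p → p ∣ m0 → (p : ℤ) ∣ N - ρ → (p : ℤ) ∣ N' - ρ) :
    Int.gcd (N - ρ) m0 ∣ Int.gcd (N' - ρ) m0 := by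
  rw [Nat.dvd_iff_prime_pow_dvd_dvd]
  intro p k hp hpk
  have h1 : (p : ℤ) ^ k ∣ N - ρ := by
    have := (Int.natCast_dvd_natCast.mpr hpk).trans (Int.gcd_dvd_left (a := N - ρ) (b := (m0 : ℤ)))
    exact_mod_cast this
  have h2 : p ^ k ∣ m0 := by
    have := (Int.natCast_dvd_natCast.mpr hpk).trans (Int.gcd_dvd_right (a := N - ρ) (b := (m0 : ℤ)))
    exact_mod_cast this
  have h3 : p ^ k ≤ m0 := Nat.le_of_dvd hm0 h2
  have h4 : (p : ℤ) ^ k ∣ N' - ρ := by
    rcases Nat.lt_or_ge y p with hyp | hyp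
    · rcases Nat.lt_or_ge k 2 with hk | hk
      · interval_cases k
        · simp
        · rw [pow_one] at h1 h2 ⊢
          exact h p hp hyp h2 h1
      · exfalso
        have h5 : (y + 1) ^ 2 ≤ p ^ 2 := Nat.pow_le_pow_left (by omega) 2
        have h6 : p ^ 2 ≤ p ^ k := Nat.pow_le_pow_right hp.pos hk
        omega
    · have h5 : ((p ^ k : ℕ) : ℤ) ∣ N - N' :=
        (Int.natCast_dvd_natCast.mpr (hM p k hp hyp (h3.trans hm1))).trans hN
      push_cast at h5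
      have h6 : N' - ρ = (N - ρ) - (N - N') := by ring
      rw [h6]
      exact dvd_sub h1 h5
  have h5 : ((p ^ k : ℕ) : ℤ) ∣ Int.gcd (N' - ρ) m0 := by
    apply Int.dvd_coe_gcd
    · push_cast
      exact h4
    · exact_mod_cast h2
  exact_mod_cast h5

/-- two different paths differ at a prime `p > y` -/
lemma walk_differ (L y M T : ℕ) (hy : L < (y + 1) ^ 2)
    (hM : ∀ q k : ℕ, q.Prime → q ≤ y → q ^ k ≤ L → q ^ k ∣ M) (N N' : ℤ) (hN : (M : ℤ) ∣ N - N')
    (harg : ∀ n < T, 0 < m n (walk m r N n) ∧ m n (walk m r N n) ≤ L)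
    (hne : ∃ n ≤ T, walk m r N n ≠ walk m r N' n) :
    ∃ n < T, walk m r N n = walk m r N' n ∧ ∃ p : ℕ, p.Prime ∧ y < p ∧ p ∣ m n (walk m r N n) ∧
      ¬ ((p : ℤ) ∣ N - r n (walk m r N n) ↔ (p : ℤ) ∣ N' - r n (walk m r N n)) := by
  classical
  -- the first difference
  have hfind := Nat.find_spec hne
  set k := Nat.find hne with hk
  have hmin : ∀ j < k, walk m r N j = walk m r N' j := by
    intro j hj
    by_contra hcon
    exact Nat.find_min hne hj ⟨by omega, hcon⟩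
  have hk0 : k ≠ 0 := by
    intro h0
    rw [h0] at hfind
    exact hfind.2 rfl
  obtain ⟨n, hn⟩ := Nat.exists_eq_succ_of_ne_zero hk0
  have hnT : n < T := by omega
  have heq := hmin n (by omega)
  refine ⟨n, hnT, heq, ?_⟩
  by_contra hcon
  push Not at hcon
  apply hfind.2
  rw [hn, Nat.succ_eq_add_one, walk_succ, walk_succ, ← heq]
  congr 2
  obtain ⟨ha, hb⟩ := harg n hnT
  apply Nat.dvd_antisymm
  · exact gcd_dvd_of L y M hy hM N N' hN _ ha hb _ (fun p hp hyp hpm hd => (hcon p hp hyp hpm).mp hd)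
  · refine gcd_dvd_of L y M hy hM N' N ?_ _ ha hb _ (fun p hp hyp hpm hd => (hcon p hp hyp hpm).mpr hd)
    rw [← dvd_neg, neg_sub]
    exact hN

variable {κ : ℕ} (σ : Fin κ → ℕ → ℤ)

open Classical in
/-- the residues modulo `p` compatible with the path of `N` up to the step `T` and with the end -/
noncomputable def Om (T : ℕ) (N : ℤ) (p : ℕ) : Finset ℕ :=
  (range p).filter (fun x => (∀ n < T, p ∣ m n (walk m r N n) →
    ((p : ℤ) ∣ (x : ℤ) - r n (walk m r N n) ↔ (p : ℤ) ∣ N - r n (walk m r N n))) ∧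
    ∀ i, ¬ (p : ℤ) ∣ (x : ℤ) - σ i (walk m r N T))

lemma emod_dvd (p : ℕ) (N : ℕ) (ρ : ℤ) : (p : ℤ) ∣ ((N % p : ℕ) : ℤ) - ρ ↔ (p : ℤ) ∣ (N : ℤ) - ρ := by
  have h : (N : ℤ) - ρ = (((N % p : ℕ) : ℤ) - ρ) + (p : ℤ) * ((N / p : ℕ) : ℤ) := by
    have := Nat.mod_add_div N p
    have h2 : (N : ℤ) = ((N % p : ℕ) : ℤ) + (p : ℤ) * ((N / p : ℕ) : ℤ) := by exact_mod_cast this.symm
    linarith
  rw [h]
  constructor
  · intro h1
    exact dvd_add h1 (Dvd.intro _ rfl)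
  · intro h1
    exact (dvd_add_left (Dvd.intro _ rfl)).mp h1

/-- the elements with the same path are in the box -/
lemma mem_Om (T p : ℕ) (hp : 0 < p) (N : ℤ) (N' : ℕ)
    (harg : ∀ n < T, 0 < m n (walk m r N n))
    (hw : ∀ n ≤ T, walk m r N' n = walk m r N n)
    (hσ : ∀ i, ¬ (p : ℤ) ∣ (N' : ℤ) - σ i (walk m r N T)) : N' % p ∈ Om m r σ T N p := by
  unfold Om
  rw [mem_filter, mem_range]
  refine ⟨Nat.mod_lt _ hp, ?_, ?_⟩
  · intro n hn hpm
    rw [emod_dvd]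
    have h1 := hw (n + 1) hn
    have h0 := hw n hn.le
    rw [walk_succ, walk_succ, h0] at h1
    set c := walk m r N n with hc
    have hm := harg n hn
    have e1 : 0 < Int.gcd ((N' : ℤ) - r n c) (m n c) := by
      apply Int.gcd_pos_of_ne_zero_right
      exact_mod_cast hm.ne'
    have e2 : 0 < Int.gcd (N - r n c) (m n c) := by
      apply Int.gcd_pos_of_ne_zero_right
      exact_mod_cast hm.ne'
    have e3 : Int.gcd ((N' : ℤ) - r n c) (m n c) = Int.gcd (N - r n c) (m n c) := by omega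
    have key : ∀ x : ℤ, (p : ℤ) ∣ x ↔ (p : ℤ) ∣ (Int.gcd x (m n c) : ℤ) := by
      intro x
      constructor
      · intro h
        exact Int.dvd_coe_gcd h (by exact_mod_cast hpm)
      · intro h
        exact h.trans (Int.gcd_dvd_left ..)
    rw [key, e3, ← key]
  · intro i
    rw [emod_dvd]
    exact hσ i

/-- the boxes of different paths are disjoint -/
lemma Om_disjoint (L y M T : ℕ) (hy : L < (y + 1) ^ 2)
    (hM : ∀ q k : ℕ, q.Prime → q ≤ y → q ^ k ≤ L → q ^ k ∣ M) (N N' : ℤ) (hN : (M : ℤ) ∣ N - N')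
    (harg : ∀ n < T, 0 < m n (walk m r N n) ∧ m n (walk m r N n) ≤ L)
    (hne : ∃ n ≤ T, walk m r N n ≠ walk m r N' n) :
    ∃ p : ℕ, p.Prime ∧ y < p ∧ p ≤ L ∧ Disjoint (Om m r σ T N p) (Om m r σ T N' p) := by
  obtain ⟨n, hn, heq, p, hp, hyp, hpm, hiff⟩ := walk_differ m r L y M T hy hM N N' hN harg hne
  refine ⟨p, hp, hyp, (Nat.le_of_dvd (harg n hn).1 hpm).trans (harg n hn).2, ?_⟩
  rw [Finset.disjoint_left]
  intro x hx hx'
  unfold Om at hx hx'
  rw [mem_filter] at hx hx'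
  have h1 := hx.2.1 n hn hpm
  have h2 := hx'.2.1 n hn (by rw [← heq]; exact hpm)
  rw [← heq] at h2
  exact hiff (h1.symm.trans h2)

/-- the sum over the boxes is at most one -/
lemma boxes_sum (P : Finset ℕ) (hP : ∀ p ∈ P, 0 < p) (S : Finset ℕ) (O : ℕ → ℕ → Finset ℕ)
    (hO : ∀ s ∈ S, ∀ p ∈ P, O s p ⊆ range p)
    (hd : ∀ s ∈ S, ∀ s' ∈ S, s ≠ s' → ∃ p ∈ P, Disjoint (O s p) (O s' p)) :
    ∑ s ∈ S, ∏ p ∈ P, (((O s p).card : ℝ) / p) ≤ 1 := by
  classical
  have h1 : ∑ s ∈ S, ∏ p ∈ P, (O s p).card ≤ ∏ p ∈ P, p := by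
    have e1 : ∀ s ∈ S, ∏ p ∈ P, (O s p).card = (P.pi (fun p => O s p)).card := by
      intro s _
      rw [Finset.card_pi]
    rw [Finset.sum_congr rfl e1, ← Finset.card_biUnion]
    · calc _ ≤ (P.pi (fun p => range p)).card := by
            apply Finset.card_le_card
            intro f hf
            rw [Finset.mem_biUnion] at hf
            obtain ⟨s, hs, hf⟩ := hf
            rw [Finset.mem_pi] at hf ⊢
            exact fun p hp => hO s hs p hp (hf p hp)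
        _ = ∏ p ∈ P, p := by rw [Finset.card_pi]; simp
    · intro s hs s' hs' hne
      obtain ⟨p, hp, hdis⟩ := hd s hs s' hs' hne
      rw [Function.onFun, Finset.disjoint_left]
      intro f hf hf'
      rw [Finset.mem_pi] at hf hf'
      exact (Finset.disjoint_left.mp hdis) (hf p hp) (hf' p hp)
  have hpos : (0 : ℝ) < ∏ p ∈ P, (p : ℝ) := Finset.prod_pos fun p hp => by exact_mod_cast hP p hp
  have e2 : ∑ s ∈ S, ∏ p ∈ P, (((O s p).card : ℝ) / p) =
      (∑ s ∈ S, ∏ p ∈ P, ((O s p).card : ℝ)) / ∏ p ∈ P, (p : ℝ) := by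
    rw [Finset.sum_div]
    exact Finset.sum_congr rfl fun s _ => Finset.prod_div_distrib ..
  rw [e2, div_le_one hpos]
  have h3 := (Nat.cast_le (α := ℝ)).mpr h1
  rw [Nat.cast_sum, Nat.cast_prod] at h3
  refine le_trans (le_of_eq ?_) h3
  exact Finset.sum_congr rfl fun s _ => (Nat.cast_prod ..).symm

end

end Pool.Agent.Q205.GC
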