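import Pool.Agent.Q205.GC.Walk

/-!
# Walks given by gcds: the number of classes excluded by a path, and the number of integers
-/

set_option autoImplicit false

namespace Pool.Agent.Q205.GC

open Finset

lemma one_res (p : ℕ) (ρ : ℤ) : ((range p).filter (fun x : ℕ => (p : ℤ) ∣ (x : ℤ) - ρ)).card ≤ 1 := by
  rw [card_le_one]
  intro a ha b hb
  rw [mem_filter, mem_range] at ha hb
  have h1 : (p : ℤ) ∣ (a : ℤ) - b := by
    have := dvd_sub ha.2 hb.2
    have e : (a : ℤ) - ρ - ((b : ℤ) - ρ) = a - b := by ring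
    rwa [e] at this
  have h2 := Int.eq_zero_of_abs_lt_dvd h1 (by rw [abs_lt]; constructor <;> omega)
  omega

section

variable (m : ℕ → ℕ → ℕ) (r : ℕ → ℕ → ℤ) {κ : ℕ} (σ : Fin κ → ℕ → ℤ)

lemma walk_sum (N : ℤ) (T : ℕ) : walk m r N T =
    ∑ n ∈ range T, (Int.gcd (N - r n (walk m r N n)) (m n (walk m r N n)) - 1) := by
  induction T with
  | zero => rfl
  | succ T ih => rw [sum_range_succ, ← ih, walk_succ]

lemma Om_sub (T : ℕ) (N : ℤ) (p : ℕ) : Om m r σ T N p ⊆ range p := filter_subset _ _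

/-- few classes are excluded at a prime which does not occur in the gcds -/
lemma Om_low (T : ℕ) (N : ℤ) (p : ℕ)
    (hnh : ∀ n < T, p ∣ m n (walk m r N n) → ¬ (p : ℤ) ∣ N - r n (walk m r N n)) :
    p ≤ (Om m r σ T N p).card + (((range T).filter (fun n => p ∣ m n (walk m r N n))).card + κ) := by
  classical
  set q := (range T).filter (fun n => p ∣ m n (walk m r N n)) with hq
  have h1 : range p ⊆ Om m r σ T N p ∪
      (q.biUnion (fun n => (range p).filter (fun x : ℕ => (p : ℤ) ∣ (x : ℤ) - r n (walk m r N n))) ∪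
      (univ : Finset (Fin κ)).biUnion
        (fun i => (range p).filter (fun x : ℕ => (p : ℤ) ∣ (x : ℤ) - σ i (walk m r N T)))) := by
    intro x hx
    rw [mem_union, mem_union, mem_biUnion, mem_biUnion]
    by_cases ha : ∃ n < T, p ∣ m n (walk m r N n) ∧ (p : ℤ) ∣ (x : ℤ) - r n (walk m r N n)
    · obtain ⟨n, hn, h2, h3⟩ := ha
      refine Or.inr (Or.inl ⟨n, ?_, ?_⟩)
      · rw [hq, mem_filter, mem_range]; exact ⟨hn, h2⟩
      · rw [mem_filter]; exact ⟨hx, h3⟩
    · by_cases hb : ∃ i, (p : ℤ) ∣ (x : ℤ) - σ i (walk m r N T)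
      · obtain ⟨i, hi⟩ := hb
        exact Or.inr (Or.inr ⟨i, mem_univ _, by rw [mem_filter]; exact ⟨hx, hi⟩⟩)
      · left
        unfold Om
        rw [mem_filter]
        push Not at ha hb
        refine ⟨hx, fun n hn hpm => ?_, hb⟩
        constructor
        · intro h; exact absurd h (ha n hn hpm)
        · intro h; exact absurd h (hnh n hn hpm)
  have h2 := card_le_card h1
  rw [card_range] at h2
  have h3 : (q.biUnion (fun n => (range p).filter
      (fun x : ℕ => (p : ℤ) ∣ (x : ℤ) - r n (walk m r N n)))).card ≤ q.card := by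
    refine le_trans card_biUnion_le ?_
    calc _ ≤ ∑ _n ∈ q, 1 := sum_le_sum fun n _ => one_res p _
      _ = q.card := by simp
  have h4 : ((univ : Finset (Fin κ)).biUnion
        (fun i => (range p).filter (fun x : ℕ => (p : ℤ) ∣ (x : ℤ) - σ i (walk m r N T)))).card ≤ κ := by
    refine le_trans card_biUnion_le ?_
    calc _ ≤ ∑ _i : Fin κ, 1 := sum_le_sum fun n _ => one_res p _
      _ = κ := by simp
  have h5 := card_union_le (Om m r σ T N p)
      (q.biUnion (fun n => (range p).filter (fun x : ℕ => (p : ℤ) ∣ (x : ℤ) - r n (walk m r N n))) ∪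
      (univ : Finset (Fin κ)).biUnion
        (fun i => (range p).filter (fun x : ℕ => (p : ℤ) ∣ (x : ℤ) - σ i (walk m r N T))))
  have h6 := card_union_le
      (q.biUnion (fun n => (range p).filter (fun x : ℕ => (p : ℤ) ∣ (x : ℤ) - r n (walk m r N n))))
      ((univ : Finset (Fin κ)).biUnion
        (fun i => (range p).filter (fun x : ℕ => (p : ℤ) ∣ (x : ℤ) - σ i (walk m r N T))))
  omega

/-- the classes excluded at the end -/
lemma Om_up (T : ℕ) (N : ℤ) (p : ℕ) (hp : 0 < p)
    (hd : ∀ i j, i ≠ j → ¬ (p : ℤ) ∣ σ i (walk m r N T) - σ j (walk m r N T)) :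
    (Om m r σ T N p).card + κ ≤ p := by
  classical
  set f : Fin κ → ℕ := fun i => (σ i (walk m r N T) % (p : ℤ)).toNat with hf
  have hp' : (0 : ℤ) < p := by exact_mod_cast hp
  have hfe : ∀ i, ((f i : ℕ) : ℤ) = σ i (walk m r N T) % (p : ℤ) := by
    intro i
    simp only [hf]
    exact Int.toNat_of_nonneg (Int.emod_nonneg _ hp'.ne')
  have hfl : ∀ i, f i ∈ range p := by
    intro i
    rw [mem_range]
    have h1 := hfe i
    have h2 := Int.emod_lt_of_pos (σ i (walk m r N T)) hp'
    omega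
  have hfd : ∀ i, (p : ℤ) ∣ ((f i : ℕ) : ℤ) - σ i (walk m r N T) := by
    intro i
    rw [hfe i, ← dvd_neg, neg_sub]
    exact Int.dvd_self_sub_emod
  have hinj : Function.Injective f := by
    intro i j hij
    by_contra hne
    apply hd i j hne
    have h1 := hfd i
    have h2 := hfd j
    rw [← hij] at h2
    have := dvd_sub h2 h1
    have e : (f i : ℤ) - σ j (walk m r N T) - ((f i : ℤ) - σ i (walk m r N T)) =
      σ i (walk m r N T) - σ j (walk m r N T) := by ring
    rwa [e] at this
  have hdis : Disjoint (Om m r σ T N p) (univ.image f) := by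
    rw [Finset.disjoint_left]
    intro x hx hx'
    rw [mem_image] at hx'
    obtain ⟨i, _, rfl⟩ := hx'
    unfold Om at hx
    rw [mem_filter] at hx
    exact hx.2.2 i (hfd i)
  have h1 : (Om m r σ T N p ∪ univ.image f).card ≤ p := by
    calc _ ≤ (range p).card := by
          apply card_le_card
          apply union_subset (Om_sub m r σ T N p)
          intro x hx
          rw [mem_image] at hx
          obtain ⟨i, _, rfl⟩ := hx
          exact hfl i
      _ = p := card_range p
  rw [card_union_of_disjoint hdis, card_image_of_injective _ hinj, card_univ, Fintype.card_fin] at h1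
  exact h1

/-- few primes `> y` occur in the gcds -/
lemma hits (T L y : ℕ) (hy : L < (y + 1) ^ 2) (N : ℤ)
    (harg : ∀ n < T, 0 < m n (walk m r N n) ∧ m n (walk m r N n) ≤ L) (H : Finset ℕ)
    (hH : ∀ p ∈ H, p.Prime ∧ y < p ∧ ∃ n < T, p ∣ m n (walk m r N n) ∧ (p : ℤ) ∣ N - r n (walk m r N n)) :
    H.card * y ≤ walk m r N T := by
  classical
  have hch : ∀ p : ℕ, ∃ n : ℕ, p ∈ H → n < T ∧ p ∣ m n (walk m r N n) ∧
      (p : ℤ) ∣ N - r n (walk m r N n) := by
    intro p
    by_cases hp : p ∈ H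
    · obtain ⟨_, _, n, hn⟩ := hH p hp
      exact ⟨n, fun _ => hn⟩
    · exact ⟨0, fun h => absurd h hp⟩
  choose f hf using hch
  set g : ℕ → ℕ := fun n => Int.gcd (N - r n (walk m r N n)) (m n (walk m r N n)) with hg
  have hgm : ∀ n < T, 0 < g n ∧ g n ≤ L := by
    intro n hn
    obtain ⟨h1, h2⟩ := harg n hn
    refine ⟨Int.gcd_pos_of_ne_zero_right _ (by exact_mod_cast h1.ne'), ?_⟩
    have h3 : g n ∣ m n (walk m r N n) := by
      have := Int.gcd_dvd_right (a := N - r n (walk m r N n)) (b := (m n (walk m r N n) : ℤ))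
      exact_mod_cast this
    exact (Nat.le_of_dvd h1 h3).trans h2
  have hpg : ∀ p ∈ H, p ∣ g (f p) := by
    intro p hp
    obtain ⟨_, h2, h3⟩ := hf p hp
    have := Int.dvd_coe_gcd h3 (Int.natCast_dvd_natCast.mpr h2)
    exact_mod_cast this
  have hinj : Set.InjOn f (H : Set ℕ) := by
    intro p hp p' hp' he
    by_contra hne
    have h1 := hpg p hp
    have h2 := hpg p' hp'
    rw [← he] at h2
    have h3 : p * p' ∣ g (f p) := by
      apply Nat.Coprime.mul_dvd_of_dvd_of_dvd _ h1 h2
      exact (Nat.coprime_primes (hH p hp).1 (hH p' hp').1).mpr hne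
    obtain ⟨h4, h5⟩ := hgm (f p) (hf p hp).1
    have h6 := Nat.le_of_dvd h4 h3
    have h7 : (y + 1) * (y + 1) ≤ p * p' := Nat.mul_le_mul (hH p hp).2.1 (hH p' hp').2.1
    nlinarith
  rw [walk_sum]
  calc H.card * y = ∑ _p ∈ H, y := by rw [sum_const, smul_eq_mul]
    _ ≤ ∑ p ∈ H, (g (f p) - 1) := by
      apply sum_le_sum
      intro p hp
      have h1 := Nat.le_of_dvd (hgm (f p) (hf p hp).1).1 (hpg p hp)
      have h2 := (hH p hp).2.1
      omega
    _ = ∑ n ∈ H.image f, (g n - 1) := (sum_image (f := fun n => g n - 1) hinj).symm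
    _ ≤ ∑ n ∈ range T, (g n - 1) := by
      apply sum_le_sum_of_subset
      intro n hn
      rw [mem_image] at hn
      obtain ⟨p, hp, rfl⟩ := hn
      rw [mem_range]
      exact (hf p hp).1

end

end Pool.Agent.Q205.GC
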