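import Pool.Agent.Q205.GC.Walk2

/-!
# Walks given by gcds: the number of integers with a given kind of end
-/

set_option autoImplicit false

namespace Pool.Agent.Q205.GC

open Finset

/-- the primes of `(a, b]` -/
def PR (a b : ℕ) : Finset ℕ := (Ioc a b).filter Nat.Prime

lemma mem_PR {a b p : ℕ} : p ∈ PR a b ↔ p.Prime ∧ a < p ∧ p ≤ b := by
  unfold PR
  rw [mem_filter, mem_Ioc]
  tauto

section

variable (m : ℕ → ℕ → ℕ) (r : ℕ → ℕ → ℤ) {κ : ℕ} (σ : Fin κ → ℕ → ℤ)

open Classical in
/-- the bound for one class of paths -/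
theorem class_count (T L y M K A X Q Z0 : ℕ) (ε : ℝ) (hε : 0 < ε) (qc : ℕ → ℝ)
    (hy0 : 1 ≤ y) (hyL : y ≤ L) (hy : L < (y + 1) ^ 2) (hM0 : 0 < M)
    (hMc : ∀ q : ℕ, q.Prime → y < q → Nat.Coprime q M) (N0 : ℕ) (Bk : Finset ℕ)
    (hB : ∀ N ∈ Bk, A < N ∧ N ≤ A + X ∧ N % M = N0 % M ∧ ∀ n ≤ T, walk m r N n = walk m r N0 n)
    (hN0 : N0 ∈ Bk)
    (harg : ∀ n < T, 0 < m n (walk m r N0 n) ∧ m n (walk m r N0 n) ≤ L)
    (hfin : walk m r N0 T ≤ K)
    (hσ : ∀ N ∈ Bk, ∀ p : ℕ, p.Prime → y < p → p ≤ Z0 → ∀ i, ¬ (p : ℤ) ∣ (N : ℤ) - σ i (walk m r N T))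
    (hdist : ∀ p : ℕ, p.Prime → L < p → p ≤ Z0 → ∀ i j, i ≠ j →
      ¬ (p : ℤ) ∣ σ i (walk m r N0 T) - σ j (walk m r N0 T))
    (hqc : ∀ p : ℕ, p.Prime → y < p → p ≤ L →
      ((((range T).filter (fun n => p ∣ m n (walk m r N0 n))).card + κ : ℕ) : ℝ) ≤ qc p)
    (hLZ : L ≤ Z0) (hκL : κ ≤ L) (hQ : 1 ≤ Q) (hQX : Q ^ 2 ≤ X / M + 2)
    (hc : ((K : ℝ) / y) * ((L : ℝ) ^ ε - 1) + ∑ p ∈ PR y L, ((p : ℝ) ^ ε - 1) * (qc p / p) +
      ∑ p ∈ PR L Z0, ((p : ℝ) ^ ε - 1) * (κ / p) ≤ ε * Real.log Q - Real.log 2) :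
    (Bk.card : ℝ) ≤ 24 * ((X / M + 2 : ℕ) : ℝ) * ((∏ p ∈ PR y L, (((Om m r σ T N0 p).card : ℝ) / p)) *
      ∏ p ∈ PR L Z0, (1 - (κ : ℝ) / p)) := by
  set w : ℕ → ℝ := fun p => if p ≤ L then ((Om m r σ T N0 p).card : ℝ) else (p : ℝ) - κ with hw
  have hprime1 : ∀ p ∈ PR y L, p.Prime := fun p hp => (mem_PR.mp hp).1
  have hprime2 : ∀ p ∈ PR L Z0, p.Prime := fun p hp => (mem_PR.mp hp).1
  have hdisj : Disjoint (PR y L) (PR L Z0) := by
    rw [Finset.disjoint_left]
    intro p h1 h2
    rw [mem_PR] at h1 h2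
    omega
  have hmem0 : ∀ p : ℕ, p.Prime → y < p → p ≤ Z0 → N0 % p ∈ Om m r σ T N0 p := fun p hp hyp hpZ =>
    mem_Om m r σ T p hp.pos N0 N0 (fun n hn => (harg n hn).1) (fun n _ => rfl)
      (hσ N0 hN0 p hp hyp hpZ)
  have hw0 : ∀ t ∈ PR y L ∪ PR L Z0, 0 < w t := by
    intro t ht
    rw [mem_union] at ht
    simp only [hw]
    rcases ht with ht | ht
    · obtain ⟨h1, h2, h3⟩ := mem_PR.mp ht
      rw [if_pos h3]
      exact_mod_cast card_pos.mpr ⟨_, hmem0 t h1 h2 (h3.trans hLZ)⟩
    · obtain ⟨h1, h2, h3⟩ := mem_PR.mp ht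
      rw [if_neg (by omega)]
      have : (κ : ℝ) < t := by exact_mod_cast lt_of_le_of_lt hκL h2
      linarith
  have hOmle : ∀ t : ℕ, (Om m r σ T N0 t).card ≤ t := by
    intro t
    calc _ ≤ (range t).card := card_le_card (Om_sub m r σ T N0 t)
      _ = t := card_range t
  have hw1 : ∀ t ∈ PR y L ∪ PR L Z0, w t ≤ t := by
    intro t _
    simp only [hw]
    split_ifs
    · exact_mod_cast hOmle t
    · have : (0 : ℝ) ≤ κ := Nat.cast_nonneg _
      linarith
  set O' : ℕ → Finset ℕ := fun p => (range p).filter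
    (fun u => (N0 % M + M * (u + (p - 1))) % p ∈ Om m r σ T N0 p) with hO'
  have hO'card : ∀ t ∈ PR y L ∪ PR L Z0, ((O' t).card : ℝ) ≤ w t := by
    intro t ht
    have htp : t.Prime := by
      rw [mem_union] at ht
      rcases ht with ht | ht
      · exact hprime1 t ht
      · exact hprime2 t ht
    have hyt : y < t := by
      rw [mem_union] at ht
      rcases ht with ht | ht
      · exact (mem_PR.mp ht).2.1
      · exact lt_of_le_of_lt hyL (mem_PR.mp ht).2.1
    have h1 : (O' t).card ≤ (Om m r σ T N0 t).card := by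
      apply card_le_card_of_injOn (fun u => (N0 % M + M * (u + (t - 1))) % t)
      · intro u hu
        simp only [hO', mem_coe, mem_filter] at hu
        exact hu.2
      · intro u hu v hv huv
        simp only [hO', mem_coe, mem_filter, mem_range] at hu hv
        have h2 : N0 % M + M * (u + (t - 1)) ≡ N0 % M + M * (v + (t - 1)) [MOD t] := huv
        have h3 : M * (u + (t - 1)) ≡ M * (v + (t - 1)) [MOD t] := Nat.ModEq.add_left_cancel' _ h2
        have h4 : u + (t - 1) ≡ v + (t - 1) [MOD t] :=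
          Nat.ModEq.cancel_left_of_coprime (hMc t htp hyt) h3
        have h5 : u ≡ v [MOD t] := Nat.ModEq.add_right_cancel' _ h4
        exact h5.eq_of_lt_of_lt hu.1 hv.1
    simp only [hw]
    split_ifs with hL
    · exact_mod_cast h1
    · have h2 : (Om m r σ T N0 t).card + κ ≤ t := by
        apply Om_up m r σ T N0 t htp.pos
        intro i j hij
        rw [mem_union] at ht
        rcases ht with ht | ht
        · exact absurd (mem_PR.mp ht).2.2 hL
        · exact hdist t htp (mem_PR.mp ht).2.1 (mem_PR.mp ht).2.2 i j hij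
      have h3 : ((Om m r σ T N0 t).card : ℝ) + κ ≤ t := by exact_mod_cast h2
      have h4 : ((O' t).card : ℝ) ≤ ((Om m r σ T N0 t).card : ℝ) := by exact_mod_cast h1
      linarith
  -- the condition
  have hpow : ∀ p : ℕ, 1 ≤ p → 0 ≤ (p : ℝ) ^ ε - 1 := by
    intro p hp
    have : (1 : ℝ) ≤ (p : ℝ) ^ ε := Real.one_le_rpow (by exact_mod_cast hp) hε.le
    linarith
  set H := (PR y L).filter (fun p => ∃ n < T, p ∣ m n (walk m r N0 n) ∧
    (p : ℤ) ∣ (N0 : ℤ) - r n (walk m r N0 n)) with hH
  have hHc : (H.card : ℝ) ≤ (K : ℝ) / y := by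
    have h1 := hits m r T L y hy N0 harg H (by
      intro p hp
      rw [hH, mem_filter, mem_PR] at hp
      exact ⟨hp.1.1, hp.1.2.1, hp.2⟩)
    have h2 : H.card * y ≤ K := h1.trans hfin
    rw [le_div_iff₀ (by exact_mod_cast hy0)]
    exact_mod_cast h2
  have hcond : ∑ t ∈ PR y L ∪ PR L Z0, ((t : ℝ) ^ ε - 1) * (1 - w t / t) ≤
      ε * Real.log Q - Real.log 2 := by
    refine le_trans ?_ hc
    rw [sum_union hdisj]
    apply add_le_add
    · have hterm : ∀ p ∈ PR y L, ((p : ℝ) ^ ε - 1) * (1 - w p / p) ≤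
          (if p ∈ H then ((L : ℝ) ^ ε - 1) else 0) + ((p : ℝ) ^ ε - 1) * (qc p / p) := by
        intro p hp
        obtain ⟨h1, h2, h3⟩ := mem_PR.mp hp
        have hp0 : (0 : ℝ) < p := by exact_mod_cast h1.pos
        have hq0 : 0 ≤ qc p := le_trans (Nat.cast_nonneg _) (hqc p h1 h2 h3)
        have hpw := hpow p h1.one_lt.le
        have hwp : w p = ((Om m r σ T N0 p).card : ℝ) := by simp only [hw]; rw [if_pos h3]
        by_cases hpH : p ∈ H
        · rw [if_pos hpH]
          have e1 : (p : ℝ) ^ ε - 1 ≤ (L : ℝ) ^ ε - 1 := by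
            have : (p : ℝ) ^ ε ≤ (L : ℝ) ^ ε :=
              Real.rpow_le_rpow hp0.le (by exact_mod_cast h3) hε.le
            linarith
          have e2 : 1 - w p / p ≤ 1 := by
            have : 0 ≤ w p / p := by rw [hwp]; positivity
            linarith
          have e3 : ((p : ℝ) ^ ε - 1) * (1 - w p / p) ≤ (p : ℝ) ^ ε - 1 := by
            calc _ ≤ ((p : ℝ) ^ ε - 1) * 1 := mul_le_mul_of_nonneg_left e2 hpw
              _ = _ := mul_one _
          have e4 : 0 ≤ ((p : ℝ) ^ ε - 1) * (qc p / p) := by positivity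
          linarith
        · rw [if_neg hpH, zero_add]
          apply mul_le_mul_of_nonneg_left _ hpw
          have h4 := Om_low m r σ T N0 p (by
            intro n hn hpm hd
            exact hpH (by rw [hH, mem_filter]; exact ⟨hp, n, hn, hpm, hd⟩))
          have h5 : (p : ℝ) ≤ ((Om m r σ T N0 p).card : ℝ) +
              ((((range T).filter (fun n => p ∣ m n (walk m r N0 n))).card + κ : ℕ) : ℝ) := by
            exact_mod_cast h4
          have h6 := hqc p h1 h2 h3
          rw [hwp, ← sub_nonneg]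
          have e : qc p / p - (1 - ((Om m r σ T N0 p).card : ℝ) / p) =
            (qc p - (p - ((Om m r σ T N0 p).card : ℝ))) / p := by
            field_simp
          rw [e]
          apply div_nonneg _ hp0.le
          linarith
      refine le_trans (sum_le_sum hterm) ?_
      rw [sum_add_distrib]
      apply add_le_add _ le_rfl
      rw [← sum_filter]
      have e1 : (PR y L).filter (fun p => p ∈ H) = H := by
        ext p
        rw [mem_filter]
        constructor
        · exact fun h => h.2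
        · intro h
          refine ⟨?_, h⟩
          rw [hH, mem_filter] at h
          exact h.1
      rw [e1, sum_const, nsmul_eq_mul]
      apply mul_le_mul_of_nonneg_right hHc
      exact hpow L (by omega)
    · apply le_of_eq
      apply sum_congr rfl
      intro p hp
      obtain ⟨h1, h2, h3⟩ := mem_PR.mp hp
      have hp0 : (0 : ℝ) < p := by exact_mod_cast h1.pos
      simp only [hw]
      rw [if_neg (by omega)]
      congr 1
      field_simp
      ring
  -- application of the sieve
  have hres := box_sieve (X / M + 2) Q (A / M) (PR y L ∪ PR L Z0) (by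
      intro t ht
      rw [mem_union] at ht
      rcases ht with ht | ht
      · exact hprime1 t ht
      · exact hprime2 t ht) (Bk.image (fun N => N / M + 1)) O' w hw0 hw1 hO'card (by
      intro z hz
      rw [mem_image] at hz
      obtain ⟨N, hN, rfl⟩ := hz
      obtain ⟨h1, h2, _, _⟩ := hB N hN
      rw [mem_Ioc]
      constructor
      · have := Nat.div_le_div_right (c := M) h1.le
        omega
      · have h3 : N / M ≤ A / M + X / M + 1 := by
          have h4 : N / M ≤ (A + X) / M := Nat.div_le_div_right h2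
          have h5 : (A + X) / M ≤ A / M + X / M + 1 := by
            rw [← Nat.lt_succ_iff, Nat.div_lt_iff_lt_mul hM0]
            have h6 := Nat.lt_mul_div_succ A hM0
            have h7 := Nat.lt_mul_div_succ X hM0
            calc A + X < M * (A / M + 1) + M * (X / M + 1) := by omega
              _ = (A / M + X / M + 1).succ * M := by rw [Nat.succ_eq_add_one]; ring
          omega
        omega) (by
      intro z hz t ht
      rw [mem_image] at hz
      obtain ⟨N, hN, rfl⟩ := hz
      obtain ⟨h1, h2, h3, h4⟩ := hB N hN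
      have htp : t.Prime ∧ y < t ∧ t ≤ Z0 := by
        rw [mem_union] at ht
        rcases ht with ht | ht
        · obtain ⟨a1, a2, a3⟩ := mem_PR.mp ht
          exact ⟨a1, a2, a3.trans hLZ⟩
        · obtain ⟨a1, a2, a3⟩ := mem_PR.mp ht
          exact ⟨a1, by omega, a3⟩
      simp only [hO', mem_filter, mem_range]
      refine ⟨Nat.mod_lt _ htp.1.pos, ?_⟩
      have e1 : (N0 % M + M * ((N / M + 1) % t + (t - 1))) % t = N % t := by
        have e2 : N0 % M + M * ((N / M + 1) % t + (t - 1)) ≡ N0 % M + M * ((N / M + 1) + (t - 1)) [MOD t] := by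
          apply Nat.ModEq.add_left
          apply Nat.ModEq.mul_left
          exact Nat.ModEq.add_right _ (Nat.mod_modEq _ _)
        have e3 : N0 % M + M * ((N / M + 1) + (t - 1)) = N + t * M := by
          have h5 := Nat.mod_add_div N M
          rw [← h3]
          have h6 : N / M + 1 + (t - 1) = N / M + t := by
            have := htp.1.pos
            omega
          rw [h6]
          calc N % M + M * (N / M + t) = (N % M + M * (N / M)) + t * M := by ring
            _ = _ := by rw [h5]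
        rw [e3] at e2
        rw [e2]
        exact Nat.add_mul_mod_self_left _ _ _
      rw [e1]
      apply mem_Om m r σ T t htp.1.pos N0 N (fun n hn => (harg n hn).1) h4
      intro i
      have := hσ N hN t htp.1 htp.2.1 htp.2.2 i
      rwa [h4 T le_rfl] at this) ε hε hQ hQX hcond
  have hcard : (Bk.image (fun N => N / M + 1)).card = Bk.card := by
    apply card_image_of_injOn
    intro a ha b hb hab
    have h1 := (hB a ha).2.2.1
    have h2 := (hB b hb).2.2.1
    have h3 : a / M = b / M := by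
      have : a / M + 1 = b / M + 1 := hab
      omega
    rw [← Nat.mod_add_div a M, ← Nat.mod_add_div b M, h1, h2, h3]
  rw [hcard, prod_union hdisj] at hres
  refine hres.trans (le_of_eq ?_)
  congr 2
  · apply prod_congr rfl
    intro p hp
    simp only [hw]
    rw [if_pos (mem_PR.mp hp).2.2]
  · apply prod_congr rfl
    intro p hp
    obtain ⟨h1, h2, h3⟩ := mem_PR.mp hp
    have hp0 : (0 : ℝ) < p := by exact_mod_cast h1.pos
    simp only [hw]
    rw [if_neg (by omega)]
    field_simp

end

end Pool.Agent.Q205.GC
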