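import Pool.Agent.Q205.GC.Walk3

/-!
# Walks given by gcds: the number of integers with a given kind of end, all paths
-/

set_option autoImplicit false

namespace Pool.Agent.Q205.GC

open Finset

section

variable (m : ℕ → ℕ → ℕ) (r : ℕ → ℕ → ℤ) {κ : ℕ} (σ : Fin κ → ℕ → ℤ)

/-- the class of `N` modulo `M` and its path up to the step `T` -/
def key (T M N : ℕ) : ℕ × (ℕ → ℕ) := (N % M, fun n => if n ≤ T then walk m r N n else 0)

lemma key_iff (T M N N' : ℕ) : key m r T M N = key m r T M N' ↔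
    N % M = N' % M ∧ ∀ n ≤ T, walk m r N n = walk m r N' n := by
  unfold key
  rw [Prod.mk.injEq]
  apply and_congr_right
  intro _
  constructor
  · intro h n hn
    have := congrFun h n
    simpa [hn] using this
  · intro h
    funext n
    by_cases hn : n ≤ T
    · simp [hn, h n hn]
    · simp [hn]

open Classical in
/-- **the number of integers whose walk ends with primes** -/
theorem walk_count (T L y M K A X Q Z0 : ℕ) (ε : ℝ) (hε : 0 < ε) (qc : ℕ → ℝ)
    (hy0 : 1 ≤ y) (hyL : y ≤ L) (hy : L < (y + 1) ^ 2) (hM0 : 0 < M)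
    (hM : ∀ q k : ℕ, q.Prime → q ≤ y → q ^ k ≤ L → q ^ k ∣ M)
    (hMc : ∀ q : ℕ, q.Prime → y < q → Nat.Coprime q M) (B : Finset ℕ)
    (hB : ∀ N ∈ B, A < N ∧ N ≤ A + X)
    (harg : ∀ N ∈ B, ∀ n < T, 0 < m n (walk m r N n) ∧ m n (walk m r N n) ≤ L)
    (hfin : ∀ N ∈ B, walk m r N T ≤ K)
    (hσ : ∀ N ∈ B, ∀ p : ℕ, p.Prime → y < p → p ≤ Z0 → ∀ i, ¬ (p : ℤ) ∣ (N : ℤ) - σ i (walk m r N T))
    (hdist : ∀ N ∈ B, ∀ p : ℕ, p.Prime → L < p → p ≤ Z0 → ∀ i j, i ≠ j →
      ¬ (p : ℤ) ∣ σ i (walk m r N T) - σ j (walk m r N T))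
    (hqc : ∀ N ∈ B, ∀ p : ℕ, p.Prime → y < p → p ≤ L →
      ((((range T).filter (fun n => p ∣ m n (walk m r N n))).card + κ : ℕ) : ℝ) ≤ qc p)
    (hLZ : L ≤ Z0) (hκL : κ ≤ L) (hQ : 1 ≤ Q) (hQX : Q ^ 2 ≤ X / M + 2)
    (hc : ((K : ℝ) / y) * ((L : ℝ) ^ ε - 1) + ∑ p ∈ PR y L, ((p : ℝ) ^ ε - 1) * (qc p / p) +
      ∑ p ∈ PR L Z0, ((p : ℝ) ^ ε - 1) * (κ / p) ≤ ε * Real.log Q - Real.log 2) :
    (B.card : ℝ) ≤ 24 * ((X / M + 2 : ℕ) : ℝ) * (M * ∏ p ∈ PR L Z0, (1 - (κ : ℝ) / p)) := by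
  set V := ∏ p ∈ PR L Z0, (1 - (κ : ℝ) / p) with hV
  have hV0 : 0 ≤ V := by
    apply prod_nonneg
    intro p hp
    obtain ⟨h1, h2, h3⟩ := mem_PR.mp hp
    have hp0 : (0 : ℝ) < p := by exact_mod_cast h1.pos
    have : (κ : ℝ) / p ≤ 1 := by
      rw [div_le_one hp0]
      exact_mod_cast hκL.trans h2.le
    linarith
  set kf := key m r T M with hkf
  -- representatives
  set rep : ℕ × (ℕ → ℕ) → ℕ := fun k => if h : ∃ N ∈ B, kf N = k then h.choose else 0 with hrep
  have hrep1 : ∀ k ∈ B.image kf, rep k ∈ B ∧ kf (rep k) = k := by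
    intro k hk
    rw [mem_image] at hk
    have h : ∃ N ∈ B, kf N = k := hk
    simp only [hrep]
    rw [dif_pos h]
    exact h.choose_spec
  set F : ℕ → ℝ := fun s => ∏ p ∈ PR y L, (((Om m r σ T s p).card : ℝ) / p) with hF
  have hclass : ∀ k ∈ B.image kf, ((B.filter (fun N => kf N = k)).card : ℝ) ≤
      24 * ((X / M + 2 : ℕ) : ℝ) * (F (rep k) * V) := by
    intro k hk
    obtain ⟨h1, h2⟩ := hrep1 k hk
    apply class_count m r σ T L y M K A X Q Z0 ε hε qc hy0 hyL hy hM0 hMc (rep k)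
      (B.filter (fun N => kf N = k))
    · intro N hN
      rw [mem_filter] at hN
      have h3 : kf N = kf (rep k) := hN.2.trans h2.symm
      rw [hkf, key_iff] at h3
      exact ⟨(hB N hN.1).1, (hB N hN.1).2, h3.1, h3.2⟩
    · rw [mem_filter]
      exact ⟨h1, h2⟩
    · exact harg _ h1
    · exact hfin _ h1
    · intro N hN
      rw [mem_filter] at hN
      exact hσ N hN.1
    · exact hdist _ h1
    · exact hqc _ h1
    · exact hLZ
    · exact hκL
    · exact hQ
    · exact hQX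
    · exact hc
  have hinj : Set.InjOn rep (B.image kf : Set (ℕ × (ℕ → ℕ))) := by
    intro k hk k' hk' he
    have h1 := (hrep1 k (mem_coe.mp hk)).2
    have h2 := (hrep1 k' (mem_coe.mp hk')).2
    rw [← h1, ← h2, he]
  set R := (B.image kf).image rep with hR
  have hRB : ∀ s ∈ R, s ∈ B := by
    intro s hs
    rw [hR, mem_image] at hs
    obtain ⟨k, hk, rfl⟩ := hs
    exact (hrep1 k hk).1
  have hRinj : ∀ s ∈ R, ∀ s' ∈ R, kf s = kf s' → s = s' := by
    intro s hs s' hs' he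
    rw [hR, mem_image] at hs hs'
    obtain ⟨k, hk, rfl⟩ := hs
    obtain ⟨k', hk', rfl⟩ := hs'
    rw [(hrep1 k hk).2, (hrep1 k' hk').2] at he
    rw [he]
  have hsumF : ∑ s ∈ R, F s ≤ M := by
    rw [← Finset.sum_fiberwise_of_maps_to (g := fun s => s % M) (t := range M)
      (fun s _ => mem_range.mpr (Nat.mod_lt _ hM0))]
    calc _ ≤ ∑ _a ∈ range M, (1 : ℝ) := by
          apply sum_le_sum
          intro a _
          apply boxes_sum (PR y L) (fun p hp => (mem_PR.mp hp).1.pos) _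
            (fun s p => Om m r σ T s p) (fun s _ p _ => Om_sub m r σ T s p)
          intro s hs s' hs' hne
          rw [mem_filter] at hs hs'
          have hmod : s % M = s' % M := by rw [hs.2, hs'.2]
          have hdiff : ∃ n ≤ T, walk m r s n ≠ walk m r s' n := by
            by_contra hcon
            push Not at hcon
            apply hne
            apply hRinj s hs.1 s' hs'.1
            rw [hkf, key_iff]
            exact ⟨hmod, hcon⟩
          have hdvd : (M : ℤ) ∣ (s : ℤ) - s' := by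
            have h1 : s ≡ s' [MOD M] := hmod
            rw [← dvd_neg, neg_sub]
            exact (Nat.modEq_iff_dvd.mp h1)
          obtain ⟨p, h1, h2, h3, h4⟩ := Om_disjoint m r σ L y M T hy hM s s' hdvd
            (harg s (hRB s hs.1)) hdiff
          exact ⟨p, mem_PR.mpr ⟨h1, h2, h3⟩, h4⟩
      _ = M := by simp
  calc (B.card : ℝ) = ∑ k ∈ B.image kf, ((B.filter (fun N => kf N = k)).card : ℝ) := by
        rw [← Nat.cast_sum, ← card_eq_sum_card_image]
    _ ≤ ∑ k ∈ B.image kf, 24 * ((X / M + 2 : ℕ) : ℝ) * (F (rep k) * V) := sum_le_sum hclass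
    _ = 24 * ((X / M + 2 : ℕ) : ℝ) * ((∑ k ∈ B.image kf, F (rep k)) * V) := by
        rw [← mul_sum, sum_mul]
    _ = 24 * ((X / M + 2 : ℕ) : ℝ) * ((∑ s ∈ R, F s) * V) := by
        rw [hR, sum_image hinj]
    _ ≤ _ := by
        apply mul_le_mul_of_nonneg_left _ (by positivity)
        exact mul_le_mul_of_nonneg_right hsumF hV0

end

end Pool.Agent.Q205.GC
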